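import Mathlib

/-!
# A small functional language for polynomial-time computation

Data are finite binary trees `T`; programs are `Code`s with a total semantics `Code.eval` and a
cost function `Code.cost`.  A function between types with a tree encoding is `PolyTime` when a
`Code` computes it with cost bounded by a polynomial in the size of the input.
-/

namespace Pool.Agent.Lib.PT

/-- finite binary trees -/
inductive T : Type
  | nil : T
  | cons : T → T → T
  deriving DecidableEq, Inhabited

namespace T

/-- number of nodes -/
def size : T → ℕ
  | nil => 1
  | cons a b => size a + size b + 1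

/-- length of the right spine -/
def len : T → ℕ
  | nil => 0
  | cons _ b => len b + 1

/-- first component -/
def fst : T → T
  | nil => nil
  | cons a _ => a

/-- second component -/
def snd : T → T
  | nil => nil
  | cons _ b => b

@[simp] theorem size_nil : size nil = 1 := rfl
@[simp] theorem size_cons (a b : T) : size (cons a b) = size a + size b + 1 := rfl
@[simp] theorem len_nil : len nil = 0 := rfl
@[simp] theorem len_cons (a b : T) : len (cons a b) = len b + 1 := rfl
@[simp] theorem fst_nil : fst nil = nil := rfl
@[simp] theorem fst_cons (a b : T) : fst (cons a b) = a := rfl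
@[simp] theorem snd_nil : snd nil = nil := rfl
@[simp] theorem snd_cons (a b : T) : snd (cons a b) = b := rfl

theorem size_pos (a : T) : 0 < a.size := by cases a <;> simp

theorem len_lt_size (a : T) : a.len < a.size := by
  induction a with
  | nil => simp
  | cons a b _ ih => simp; omega

theorem size_fst_le (a : T) : a.fst.size ≤ a.size := by cases a <;> simp; omega
theorem size_snd_le (a : T) : a.snd.size ≤ a.size := by cases a <;> simp; omega

end T

open T

/-- programs -/
inductive Code : Type
  | id : Code
  | nil : Code
  | fst : Code
  | snd : Code
  /-- `x ↦ cons (f x) (g x)` -/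
  | pair : Code → Code → Code
  /-- `x ↦ f (g x)` -/
  | comp : Code → Code → Code
  /-- `x ↦ if x = nil then f x else g x` -/
  | case : Code → Code → Code
  /-- `cons n x ↦ f^[len n] x`, `nil ↦ nil` -/
  | iter : Code → Code

namespace Code

/-- semantics -/
def eval : Code → T → T
  | id, x => x
  | nil, _ => T.nil
  | fst, x => x.fst
  | snd, x => x.snd
  | pair f g, x => T.cons (eval f x) (eval g x)
  | comp f g, x => eval f (eval g x)
  | case f _, T.nil => eval f T.nil
  | case _ g, T.cons a b => eval g (T.cons a b)
  | iter _, T.nil => T.nil
  | iter f, T.cons n x => (eval f)^[n.len] x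

/-- cost (an upper bound, up to a constant factor, for the running time) -/
def cost : Code → T → ℕ
  | id, _ => 1
  | nil, x => x.size + 1
  | fst, x => x.size + 1
  | snd, x => x.size + 1
  | pair f g, x => cost f x + cost g x + x.size + (eval f x).size + (eval g x).size + 1
  | comp f g, x => cost g x + cost f (eval g x) + 1
  | case f _, T.nil => cost f T.nil + 1
  | case _ g, T.cons a b => cost g (T.cons a b) + 1
  | iter _, T.nil => 1
  | iter f, T.cons n x => n.size + x.size + 1 +
      ∑ i ∈ Finset.range n.len, (cost f ((eval f)^[i] x) + ((eval f)^[i] x).size +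
        ((eval f)^[i + 1] x).size + n.size + 1)

@[simp] theorem eval_id (x : T) : eval id x = x := by rw [eval]
@[simp] theorem eval_nil (x : T) : eval nil x = T.nil := by rw [eval]
@[simp] theorem eval_fst (x : T) : eval fst x = x.fst := by rw [eval]
@[simp] theorem eval_snd (x : T) : eval snd x = x.snd := by rw [eval]
@[simp] theorem eval_pair (f g : Code) (x : T) :
    eval (pair f g) x = T.cons (eval f x) (eval g x) := by rw [eval]
@[simp] theorem eval_comp (f g : Code) (x : T) : eval (comp f g) x = eval f (eval g x) := by
  rw [eval]
@[simp] theorem eval_case_nil (f g : Code) : eval (case f g) T.nil = eval f T.nil := by rw [eval]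
@[simp] theorem eval_case_cons (f g : Code) (a b : T) :
    eval (case f g) (T.cons a b) = eval g (T.cons a b) := by rw [eval]
@[simp] theorem eval_iter_nil (f : Code) : eval (iter f) T.nil = T.nil := by rw [eval]
@[simp] theorem eval_iter_cons (f : Code) (n x : T) :
    eval (iter f) (T.cons n x) = (eval f)^[n.len] x := by rw [eval]

theorem size_eval_le (c : Code) : ∀ x, (eval c x).size ≤ x.size + cost c x := by
  induction c with
  | id => intro x; simp
  | nil => intro x; simp [cost]; omega
  | fst => intro x; have := size_fst_le x; simp [cost]; omega
  | snd => intro x; have := size_snd_le x; simp [cost]; omega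
  | pair f g _ _ => intro x; simp [cost]; omega
  | comp f g ihf ihg =>
    intro x
    have h1 := ihg x
    have h2 := ihf (eval g x)
    simp [cost]; omega
  | case f g ihf ihg =>
    intro x
    cases x with
    | nil => have := ihf T.nil; rw [eval_case_nil]; simp only [cost]; omega
    | cons a b => have := ihg (T.cons a b); rw [eval_case_cons]; simp only [cost]; omega
  | iter f _ =>
    intro x
    cases x with
    | nil => simp
    | cons n x =>
      simp only [eval_iter_cons, cost, size_cons]
      rcases h : n.len with _ | k
      · simp; omega
      · have := Finset.single_le_sum (s := Finset.range (k + 1))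
          (f := fun i => (cost f ((eval f)^[i] x) + ((eval f)^[i] x).size +
            ((eval f)^[i + 1] x).size + n.size + 1)) (fun _ _ => Nat.zero_le _)
          (Finset.self_mem_range_succ k)
        omega

end Code

/-- types with a tree encoding -/
class Enc (α : Type*) where
  enc : α → T
  enc_inj : Function.Injective enc

export Enc (enc)

/-- polynomially bounded functions `ℕ → ℕ` (with a monotone polynomial bound) -/
def PolyBdd (g : ℕ → ℕ) : Prop := ∃ p : Polynomial ℕ, ∀ n, g n ≤ p.eval n

/-- `f` is computed by a program of polynomially bounded cost -/
def PolyTime {α β : Type*} [Enc α] [Enc β] (f : α → β) : Prop :=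
  ∃ c : Code, (∀ a : α, c.eval (enc a) = enc (f a)) ∧
    ∃ p : Polynomial ℕ, ∀ a : α, c.cost (enc a) ≤ p.eval (enc a).size

/-! ### Standard encodings -/

instance : Enc T := ⟨id, Function.injective_id⟩

instance : Enc Unit := ⟨fun _ => T.nil, fun _ _ _ => rfl⟩

/-- `false ↦ nil`, `true ↦ cons nil nil` -/
instance : Enc Bool := ⟨fun b => bif b then T.cons T.nil T.nil else T.nil, by
  intro a b h; cases a <;> cases b <;> simp_all⟩

/-- pairs -/
instance {α β : Type*} [Enc α] [Enc β] : Enc (α × β) :=
  ⟨fun p => T.cons (enc p.1) (enc p.2), by
    rintro ⟨a, b⟩ ⟨c, d⟩ h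
    simp only [T.cons.injEq] at h
    exact Prod.ext (Enc.enc_inj h.1) (Enc.enc_inj h.2)⟩

/-- lists, along the right spine -/
def encList {α : Type*} [Enc α] : List α → T
  | [] => T.nil
  | a :: l => T.cons (enc a) (encList l)

instance {α : Type*} [Enc α] : Enc (List α) :=
  ⟨encList, by
    intro l
    induction l with
    | nil => intro l' h; cases l' with
      | nil => rfl
      | cons a l' => simp [encList] at h
    | cons a l ih =>
      intro l' h
      cases l' with
      | nil => simp [encList] at h
      | cons b l' =>
        simp only [encList, T.cons.injEq] at h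
        rw [Enc.enc_inj h.1, ih h.2]⟩

/-- natural numbers in unary, along the right spine -/
def encNat : ℕ → T
  | 0 => T.nil
  | n + 1 => T.cons T.nil (encNat n)

instance : Enc ℕ :=
  ⟨encNat, by
    intro n
    induction n with
    | zero => intro m h; cases m with
      | zero => rfl
      | succ m => simp [encNat] at h
    | succ n ih =>
      intro m h
      cases m with
      | zero => simp [encNat] at h
      | succ m =>
        simp only [encNat, T.cons.injEq, true_and] at h
        rw [ih h]⟩

@[simp] theorem enc_T (t : T) : enc t = t := rfl
@[simp] theorem enc_unit (u : Unit) : enc u = T.nil := rfl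
@[simp] theorem enc_false : enc false = T.nil := rfl
@[simp] theorem enc_true : enc true = T.cons T.nil T.nil := rfl
@[simp] theorem enc_pair {α β : Type*} [Enc α] [Enc β] (a : α) (b : β) :
    enc (a, b) = T.cons (enc a) (enc b) := rfl
@[simp] theorem enc_list_nil {α : Type*} [Enc α] : enc ([] : List α) = T.nil := rfl
@[simp] theorem enc_list_cons {α : Type*} [Enc α] (a : α) (l : List α) :
    enc (a :: l) = T.cons (enc a) (enc l) := rfl
@[simp] theorem enc_nat_zero : enc (0 : ℕ) = T.nil := rfl
@[simp] theorem enc_nat_succ (n : ℕ) : enc (n + 1) = T.cons T.nil (enc n) := rfl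

/-! ### NAND circuits (straight-line programs) -/

/-- Wires are numbered from `0`; the gate `(i, j)` appends the wire `¬ (wᵢ ∧ wⱼ)`. -/
def runNand : List (ℕ × ℕ) → List Bool → List Bool
  | [], v => v
  | (i, j) :: gs, v => runNand gs (v ++ [!(v.getD i false && v.getD j false)])

end Pool.Agent.Lib.PT
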