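import Mathlib
import Pool.Agent.Lib.PolyTime.Basic

/-!
# Closure properties of `PolyTime`

All lemmas are stated in the form `PolyTime f → PolyTime g → PolyTime (fun a => op (f a) (g a))`.
-/

namespace Pool.Agent.Lib.PT

open T

/-! ### Polynomial bounds -/

/-- size of the encoding -/
def sz {α : Type*} [Enc α] (a : α) : ℕ := (enc a).size

theorem poly_mono (p : Polynomial ℕ) {m n : ℕ} (h : m ≤ n) : p.eval m ≤ p.eval n := by
  rw [Polynomial.eval_eq_sum, Polynomial.eval_eq_sum]
  exact Finset.sum_le_sum fun i _ => Nat.mul_le_mul_left _ (Nat.pow_le_pow_left h i)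

/-- `g` is bounded by a polynomial in the size of its argument -/
def PB {α : Type*} [Enc α] (g : α → ℕ) : Prop := ∃ p : Polynomial ℕ, ∀ a, g a ≤ p.eval (sz a)

section PB

variable {α β : Type*} [Enc α] [Enc β]

theorem PB.mono {f g : α → ℕ} (h : PB g) (hfg : ∀ a, f a ≤ g a) : PB f := by
  obtain ⟨p, hp⟩ := h
  exact ⟨p, fun a => (hfg a).trans (hp a)⟩

theorem PB.add {f g : α → ℕ} (hf : PB f) (hg : PB g) : PB (fun a => f a + g a) := by
  obtain ⟨p, hp⟩ := hf
  obtain ⟨q, hq⟩ := hg
  refine ⟨p + q, fun a => ?_⟩
  rw [Polynomial.eval_add]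
  exact Nat.add_le_add (hp a) (hq a)

theorem PB.mul {f g : α → ℕ} (hf : PB f) (hg : PB g) : PB (fun a => f a * g a) := by
  obtain ⟨p, hp⟩ := hf
  obtain ⟨q, hq⟩ := hg
  refine ⟨p * q, fun a => ?_⟩
  rw [Polynomial.eval_mul]
  exact Nat.mul_le_mul (hp a) (hq a)

theorem PB.const (n : ℕ) : PB (fun _ : α => n) := ⟨Polynomial.C n, fun a => by simp⟩

theorem PB.sz : PB (fun a : α => sz a) := ⟨Polynomial.X, fun a => by simp⟩

theorem PB.comp {f : α → β} {g : β → ℕ} (hf : PB (fun a => Pool.Agent.Lib.PT.sz (f a)))
    (hg : PB g) : PB (fun a => g (f a)) := by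
  obtain ⟨p, hp⟩ := hf
  obtain ⟨q, hq⟩ := hg
  refine ⟨q.comp p, fun a => ?_⟩
  rw [Polynomial.eval_comp]
  exact (hq _).trans (poly_mono q (hp a))

theorem PB.poly {g : α → ℕ} (p : Polynomial ℕ) (hg : PB g) : PB (fun a => p.eval (g a)) := by
  obtain ⟨q, hq⟩ := hg
  refine ⟨p.comp q, fun a => ?_⟩
  rw [Polynomial.eval_comp]
  exact poly_mono p (hq a)

end PB

section basic

variable {α β γ δ : Type*} [Enc α] [Enc β] [Enc γ] [Enc δ]

theorem PolyTime.size_bdd {f : α → β} (h : PolyTime f) : PB (fun a => sz (f a)) := by
  obtain ⟨c, hc, p, hp⟩ := h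
  refine ⟨Polynomial.X + p, fun a => ?_⟩
  have := Code.size_eval_le c (enc a)
  rw [hc] at this
  rw [Polynomial.eval_add, Polynomial.eval_X]
  exact this.trans (Nat.add_le_add_left (hp a) _)

theorem PolyTime.sz_le {f : α → β} (h : PolyTime f) :
    ∃ p : Polynomial ℕ, ∀ a, sz (f a) ≤ p.eval (sz a) := h.size_bdd

protected theorem PolyTime.id : PolyTime (fun a : α => a) :=
  ⟨Code.id, fun a => by simp, 1, fun a => by simp [Code.cost]⟩

theorem PolyTime.comp {g : β → γ} {f : α → β} (hg : PolyTime g) (hf : PolyTime f) :
    PolyTime (fun a => g (f a)) := by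
  have hsz := hf.size_bdd
  obtain ⟨cg, hcg, hpg⟩ := hg
  obtain ⟨cf, hcf, hpf⟩ := hf
  refine ⟨Code.comp cg cf, fun a => by rw [Code.eval_comp, hcf, hcg], ?_⟩
  have h1 : PB (fun a : α => cf.cost (enc a)) := hpf
  have h2 : PB (fun a : α => cg.cost (enc (f a))) := PB.comp (g := fun b : β => cg.cost (enc b))
    hsz hpg
  exact ((h1.add h2).add (PB.const 1)).mono fun a => by simp [Code.cost, hcf]

/-- the code of a constant -/
def constCode : T → Code
  | T.nil => Code.nil
  | T.cons a b => Code.pair (constCode a) (constCode b)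

theorem constCode_eval (t x : T) : (constCode t).eval x = t := by
  induction t with
  | nil => simp [constCode]
  | cons a b iha ihb => simp [constCode, iha, ihb]

theorem constCode_cost (t : T) : ∃ p : Polynomial ℕ, ∀ x, (constCode t).cost x ≤ p.eval x.size := by
  induction t with
  | nil => exact ⟨Polynomial.X + 1, fun x => by simp [constCode, Code.cost]⟩
  | cons a b iha ihb =>
    obtain ⟨p, hp⟩ := iha
    obtain ⟨q, hq⟩ := ihb
    refine ⟨p + q + Polynomial.X + Polynomial.C (a.size + b.size + 1), fun x => ?_⟩
    have h1 := hp x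
    have h2 := hq x
    simp only [constCode, Code.cost, constCode_eval, Polynomial.eval_add, Polynomial.eval_X,
      Polynomial.eval_C]
    omega

theorem PolyTime.const (b : β) : PolyTime (fun _ : α => b) := by
  obtain ⟨p, hp⟩ := constCode_cost (enc b)
  exact ⟨constCode (enc b), fun a => constCode_eval _ _, p, fun a => hp _⟩

protected theorem PolyTime.pair {f : α → β} {g : α → γ} (hf : PolyTime f) (hg : PolyTime g) :
    PolyTime (fun a => (f a, g a)) := by
  have hs1 := hf.size_bdd
  have hs2 := hg.size_bdd
  obtain ⟨cf, hcf, hpf⟩ := hf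
  obtain ⟨cg, hcg, hpg⟩ := hg
  refine ⟨Code.pair cf cg, fun a => by rw [Code.eval_pair, hcf, hcg]; rfl, ?_⟩
  have h1 : PB (fun a : α => cf.cost (enc a)) := hpf
  have h2 : PB (fun a : α => cg.cost (enc a)) := hpg
  exact (((((h1.add h2).add PB.sz).add hs1).add hs2).add (PB.const 1)).mono fun a => by
    simp [Code.cost, hcf, hcg, sz]

protected theorem PolyTime.fst {f : α → β × γ} (hf : PolyTime f) : PolyTime (fun a => (f a).1) :=
  PolyTime.comp (g := fun p : β × γ => p.1) ⟨Code.fst, fun a => by
    rw [Code.eval_fst]; rfl, Polynomial.X + 1, fun a => by simp [Code.cost]⟩ hf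

protected theorem PolyTime.snd {f : α → β × γ} (hf : PolyTime f) : PolyTime (fun a => (f a).2) :=
  PolyTime.comp (g := fun p : β × γ => p.2) ⟨Code.snd, fun a => by
    rw [Code.eval_snd]; rfl, Polynomial.X + 1, fun a => by simp [Code.cost]⟩ hf

/-- apply a binary function -/
theorem PolyTime.comp₂ {g : β → γ → δ} {f₁ : α → β} {f₂ : α → γ}
    (hg : PolyTime (fun p : β × γ => g p.1 p.2)) (h₁ : PolyTime f₁) (h₂ : PolyTime f₂) :
    PolyTime (fun a => g (f₁ a) (f₂ a)) :=
  PolyTime.comp (g := fun p : β × γ => g p.1 p.2) hg (h₁.pair h₂)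

theorem PolyTime.comp₃ {ε : Type*} [Enc ε] {g : β → γ → δ → ε} {f₁ : α → β} {f₂ : α → γ}
    {f₃ : α → δ}
    (hg : PolyTime (fun p : β × γ × δ => g p.1 p.2.1 p.2.2)) (h₁ : PolyTime f₁)
    (h₂ : PolyTime f₂) (h₃ : PolyTime f₃) :
    PolyTime (fun a => g (f₁ a) (f₂ a) (f₃ a)) :=
  PolyTime.comp (g := fun p : β × γ × δ => g p.1 p.2.1 p.2.2) hg (h₁.pair (h₂.pair h₃))

/-- change of representation: same encoding -/
theorem PolyTime.of_enc_eq {f : α → β} {g : α → γ} (hf : PolyTime f)
    (h : ∀ a, enc (f a) = enc (g a)) : PolyTime g := by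
  obtain ⟨c, hc, hp⟩ := hf
  exact ⟨c, fun a => by rw [hc, h], hp⟩

theorem PolyTime.congr {f g : α → β} (hf : PolyTime f) (h : ∀ a, f a = g a) : PolyTime g := by
  have : f = g := funext h
  rwa [← this]

/-! ### Sizes -/

theorem sz_pos (a : α) : 0 < sz a := T.size_pos _

@[simp] theorem sz_pair (a : α) (b : β) : sz (a, b) = sz a + sz b + 1 := rfl
@[simp] theorem sz_list_nil : sz ([] : List α) = 1 := rfl
@[simp] theorem sz_list_cons (a : α) (l : List α) : sz (a :: l) = sz a + sz l + 1 := rfl
@[simp] theorem sz_true : sz true = 3 := rfl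
@[simp] theorem sz_false : sz false = 1 := rfl

theorem sz_bool_le (b : Bool) : sz b ≤ 3 := by cases b <;> simp

@[simp] theorem sz_nat (n : ℕ) : sz n = 2 * n + 1 := by
  induction n with
  | zero => rfl
  | succ n ih =>
    show (T.cons T.nil (enc n)).size = _
    have : (enc n).size = 2 * n + 1 := ih
    rw [T.size_cons, this, T.size_nil]
    ring

theorem len_enc_nat (n : ℕ) : (enc n).len = n := by
  induction n with
  | zero => rfl
  | succ n ih => rw [enc_nat_succ, T.len_cons, ih]

theorem len_enc_list (l : List α) : (enc l).len = l.length := by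
  induction l with
  | nil => rfl
  | cons a l ih => rw [enc_list_cons, T.len_cons, ih, List.length_cons]

theorem length_lt_sz (l : List α) : l.length < sz l := by
  rw [← len_enc_list]
  exact T.len_lt_size _

theorem sz_append (l₁ l₂ : List α) : sz (l₁ ++ l₂) + 1 = sz l₁ + sz l₂ := by
  induction l₁ with
  | nil => simp; omega
  | cons a l ih => rw [List.cons_append, sz_list_cons, sz_list_cons]; omega

theorem sz_append_le (l₁ l₂ : List α) : sz (l₁ ++ l₂) ≤ sz l₁ + sz l₂ := by
  have := sz_append l₁ l₂; omega

theorem sz_reverse (l : List α) : sz l.reverse = sz l := by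
  induction l with
  | nil => rfl
  | cons a l ih =>
    have := sz_append l.reverse [a]
    rw [List.reverse_cons, sz_list_cons]
    rw [sz_list_cons, sz_list_nil] at this
    omega

theorem sz_mem_lt {l : List α} {a : α} (h : a ∈ l) : sz a < sz l := by
  induction l with
  | nil => simp at h
  | cons b l ih =>
    rw [sz_list_cons]
    rcases List.mem_cons.1 h with rfl | h
    · omega
    · have := ih h; omega

theorem sz_le_of_length {l : List α} {n B : ℕ} (hl : l.length ≤ n) (hB : ∀ a ∈ l, sz a ≤ B) :
    sz l ≤ n * (B + 1) + 1 := by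
  have : sz l ≤ l.length * (B + 1) + 1 := by
    clear hl
    induction l with
    | nil => simp
    | cons b l ih =>
      have h1 := ih fun a ha => hB a (List.mem_cons_of_mem _ ha)
      have h2 := hB b List.mem_cons_self
      rw [sz_list_cons, List.length_cons, Nat.succ_mul]
      omega
  exact this.trans (Nat.add_le_add_right (Nat.mul_le_mul_right _ hl) 1)

theorem sz_bools (l : List Bool) : sz l ≤ 4 * l.length + 1 := by
  have := sz_le_of_length (l := l) (n := l.length) (B := 3) le_rfl (fun a _ => sz_bool_le a)
  omega

theorem sz_suffix {l₁ l₂ l : List α} (h : l = l₁ ++ l₂) : sz l₂ ≤ sz l := by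
  have := sz_append l₁ l₂
  have := sz_pos l₁
  rw [h]; omega

theorem sz_prefix {l₁ l₂ l : List α} (h : l = l₁ ++ l₂) : sz l₁ ≤ sz l := by
  have := sz_append l₁ l₂
  have := sz_pos l₂
  rw [h]; omega

theorem sz_drop_le (l : List α) (i : ℕ) : sz (l.drop i) ≤ sz l :=
  sz_suffix (List.take_append_drop i l).symm

theorem sz_take_le (l : List α) (i : ℕ) : sz (l.take i) ≤ sz l :=
  sz_prefix (List.take_append_drop i l).symm

/-! ### Iteration -/

theorem PolyTime.iterate {n : α → ℕ} {b : α → β} {f : α → β → β} (hn : PolyTime n)
    (hb : PolyTime b) (hf : PolyTime (fun q : α × β => f q.1 q.2))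
    (hs : ∃ p : Polynomial ℕ, ∀ a i, i ≤ n a → sz ((f a)^[i] (b a)) ≤ p.eval (sz a)) :
    PolyTime (fun a => (f a)^[n a] (b a)) := by
  have hsn := hn.size_bdd
  have hsb := hb.size_bdd
  obtain ⟨cn, hcn, hpn⟩ := hn
  obtain ⟨cb, hcb, hpb⟩ := hb
  obtain ⟨cf, hcf, pf, hpf⟩ := hf
  obtain ⟨p, hp⟩ := hs
  set body := Code.pair Code.fst cf with hbody
  have hbe : ∀ a (x : β), body.eval (T.cons (enc a) (enc x)) = T.cons (enc a) (enc (f a x)) := by
    intro a x
    rw [hbody, Code.eval_pair, Code.eval_fst]
    have := hcf (a, x)
    rw [enc_pair] at this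
    rw [this]
    rfl
  have hit : ∀ a i, (body.eval)^[i] (T.cons (enc a) (enc (b a))) =
      T.cons (enc a) (enc ((f a)^[i] (b a))) := by
    intro a i
    induction i with
    | zero => rfl
    | succ i ih => rw [Function.iterate_succ_apply', ih, hbe, Function.iterate_succ_apply']
  refine ⟨Code.comp Code.snd (Code.comp (Code.iter body) (Code.pair cn (Code.pair Code.id cb))),
    fun a => ?_, ?_⟩
  · simp only [Code.eval_comp, Code.eval_pair, Code.eval_id, Code.eval_snd, hcn, hcb,
      Code.eval_iter_cons, len_enc_nat, hit]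
    rfl
  · have h1 : PB (fun a : α => cn.cost (enc a)) := hpn
    have h2 : PB (fun a : α => cb.cost (enc a)) := hpb
    -- bound for one step
    let B : α → ℕ := fun a => pf.eval (sz a + p.eval (sz a) + 1) + 20 * sz a +
      20 * p.eval (sz a) + sz (n a) + 20
    have hB : PB B := by
      have e1 : PB (fun a : α => p.eval (sz a)) := PB.poly p PB.sz
      exact ((((PB.poly pf ((PB.sz.add e1).add (PB.const 1))).add
        ((PB.const 20).mul PB.sz)).add ((PB.const 20).mul e1)).add hsn).add (PB.const 20)
    have hnB : PB n := hsn.mono fun a => by rw [sz_nat]; omega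
    have hstep : ∀ a i, i < n a → Code.cost body (T.cons (enc a) (enc ((f a)^[i] (b a)))) +
        (T.cons (enc a) (enc ((f a)^[i] (b a)))).size +
        (T.cons (enc a) (enc ((f a)^[i + 1] (b a)))).size + (enc (n a)).size + 1 ≤ B a := by
      intro a i hi
      have hc1 := hpf (a, (f a)^[i] (b a))
      rw [enc_pair] at hc1
      have hs1 := hp a i hi.le
      have hs2 := hp a (i + 1) hi
      have hc2 : cf.cost (T.cons (enc a) (enc ((f a)^[i] (b a)))) ≤
          pf.eval (sz a + p.eval (sz a) + 1) := by
        refine hc1.trans (poly_mono pf ?_)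
        simp only [T.size_cons]
        have : (enc ((f a)^[i] (b a))).size = sz ((f a)^[i] (b a)) := rfl
        rw [this]
        have : (enc a).size = sz a := rfl
        omega
      have hev : cf.eval (T.cons (enc a) (enc ((f a)^[i] (b a)))) = enc ((f a)^[i + 1] (b a)) := by
        have := hcf (a, (f a)^[i] (b a))
        rw [enc_pair] at this
        rw [this, Function.iterate_succ_apply']
      have e0 : (enc a).size = sz a := rfl
      have e1 : (enc ((f a)^[i] (b a))).size = sz ((f a)^[i] (b a)) := rfl
      have e2 : (enc ((f a)^[i+1] (b a))).size = sz ((f a)^[i+1] (b a)) := rfl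
      have e3 : (enc (n a)).size = sz (n a) := rfl
      simp only [hbody, Code.cost, Code.eval_fst, T.fst_cons, hev, T.size_cons, e0, e1, e2, e3, B]
      omega
    have hsum : ∀ a, ∑ i ∈ Finset.range (n a),
        (Code.cost body (T.cons (enc a) (enc ((f a)^[i] (b a)))) +
        (T.cons (enc a) (enc ((f a)^[i] (b a)))).size +
        (T.cons (enc a) (enc ((f a)^[i + 1] (b a)))).size + (enc (n a)).size + 1) ≤
          n a * B a := by
      intro a
      refine (Finset.sum_le_sum (fun i hi => hstep a i (Finset.mem_range.1 hi))).trans ?_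
      rw [Finset.sum_const, Finset.card_range, smul_eq_mul]
    have htot : PB (fun a : α => cn.cost (enc a) + cb.cost (enc a) + 20 * sz a + 20 * sz (n a) +
        20 * sz (b a) + 20 * p.eval (sz a) + n a * B a + 30) :=
      ((((((h1.add h2).add ((PB.const 20).mul PB.sz)).add ((PB.const 20).mul hsn)).add
        ((PB.const 20).mul hsb)).add ((PB.const 20).mul (PB.poly p PB.sz))).add
        (hnB.mul hB)).add (PB.const 30)
    refine htot.mono fun a => ?_
    have e0 : (enc a).size = sz a := rfl
    have e1 : (enc (b a)).size = sz (b a) := rfl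
    have e2 : (enc ((f a)^[n a] (b a))).size = sz ((f a)^[n a] (b a)) := rfl
    have e3 : (enc (n a)).size = sz (n a) := rfl
    have hs1 := hp a (n a) le_rfl
    have hsum' := hsum a
    simp only [Code.cost, Code.eval_comp, Code.eval_pair, Code.eval_id, hcn, hcb,
      Code.eval_iter_cons, len_enc_nat, hit, T.size_cons, e0, e1, e2, e3] at hsum' ⊢
    omega

/-- fold over a list, with a polynomial bound on all intermediate values -/
theorem PolyTime.foldl {l : α → List γ} {b : α → β} {f : α → β → γ → β} (hl : PolyTime l)
    (hb : PolyTime b) (hf : PolyTime (fun q : α × β × γ => f q.1 q.2.1 q.2.2))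
    (hs : ∃ p : Polynomial ℕ, ∀ a i, i ≤ (l a).length →
      sz (((l a).take i).foldl (f a) (b a)) ≤ p.eval (sz a)) :
    PolyTime (fun a => (l a).foldl (f a) (b a)) := by
  have hsl := hl.size_bdd
  have hsb := hb.size_bdd
  obtain ⟨cl, hcl, hpl⟩ := hl
  obtain ⟨cb, hcb, hpb⟩ := hb
  obtain ⟨cf, hcf, pf, hpf⟩ := hf
  obtain ⟨p, hp⟩ := hs
  -- state: cons a (cons rest acc)
  set body := Code.pair Code.fst (Code.pair (Code.comp Code.snd (Code.comp Code.fst Code.snd))
    (Code.comp cf (Code.pair Code.fst (Code.pair (Code.comp Code.snd Code.snd)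
      (Code.comp Code.fst (Code.comp Code.fst Code.snd)))))) with hbody
  have hbe : ∀ a (x : β) (y : γ) (r : List γ),
      body.eval (T.cons (enc a) (T.cons (enc (y :: r)) (enc x))) =
      T.cons (enc a) (T.cons (enc r) (enc (f a x y))) := by
    intro a x y r
    have := hcf (a, x, y)
    simp only [enc_pair] at this
    simp only [hbody, Code.eval_pair, Code.eval_fst, Code.eval_comp, Code.eval_snd, T.fst_cons,
      T.snd_cons, enc_list_cons, this]
  have hit : ∀ a i, i ≤ (l a).length →
      (body.eval)^[i] (T.cons (enc a) (T.cons (enc (l a)) (enc (b a)))) =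
      T.cons (enc a) (T.cons (enc ((l a).drop i)) (enc (((l a).take i).foldl (f a) (b a)))) := by
    intro a i hi
    induction i with
    | zero => rfl
    | succ i ih =>
      have hi' : i < (l a).length := hi
      rw [Function.iterate_succ_apply', ih hi'.le, List.drop_eq_getElem_cons hi', hbe,
        List.take_succ_eq_append_getElem hi', List.foldl_append]
      rfl
  refine ⟨Code.comp (Code.comp Code.snd Code.snd) (Code.comp (Code.iter body)
    (Code.pair cl (Code.pair Code.id (Code.pair cl cb)))), fun a => ?_, ?_⟩
  · simp only [Code.eval_comp, Code.eval_pair, Code.eval_id, Code.eval_snd, hcl, hcb,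
      Code.eval_iter_cons, len_enc_list, hit a _ le_rfl, List.take_length]
    rfl
  · have h1 : PB (fun a : α => cl.cost (enc a)) := hpl
    have h2 : PB (fun a : α => cb.cost (enc a)) := hpb
    let B : α → ℕ := fun a => pf.eval (sz a + p.eval (sz a) + sz (l a) + 2) + 40 * sz a +
      40 * p.eval (sz a) + 40 * sz (l a) + 80
    have e1 : PB (fun a : α => p.eval (sz a)) := PB.poly p PB.sz
    have hB : PB B :=
      ((((PB.poly pf (((PB.sz.add e1).add hsl).add (PB.const 2))).add
        ((PB.const 40).mul PB.sz)).add ((PB.const 40).mul e1)).add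
        ((PB.const 40).mul hsl)).add (PB.const 80)
    have hnB : PB (fun a => (l a).length) := hsl.mono fun a => (length_lt_sz _).le
    have hstep : ∀ a i, i < (l a).length →
        Code.cost body ((body.eval)^[i] (T.cons (enc a) (T.cons (enc (l a)) (enc (b a))))) +
        ((body.eval)^[i] (T.cons (enc a) (T.cons (enc (l a)) (enc (b a))))).size +
        ((body.eval)^[i + 1] (T.cons (enc a) (T.cons (enc (l a)) (enc (b a))))).size +
        (enc (l a)).size + 1 ≤ B a := by
      intro a i hi
      rw [hit a i hi.le, hit a (i + 1) hi, List.drop_eq_getElem_cons hi]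
      have hc1 := hpf (a, ((l a).take i).foldl (f a) (b a), (l a)[i])
      simp only [enc_pair] at hc1
      have hs1 := hp a i hi.le
      have hs2 := hp a (i + 1) hi
      have hs3 := sz_mem_lt (List.getElem_mem hi)
      have hs4 := sz_drop_le (l a) (i + 1)
      have hs5 := sz_drop_le (l a) i
      rw [List.drop_eq_getElem_cons hi] at hs5
      have hev := hcf (a, ((l a).take i).foldl (f a) (b a), (l a)[i])
      simp only [enc_pair] at hev
      have hev2 : f a (((l a).take i).foldl (f a) (b a)) (l a)[i] =
          ((l a).take (i + 1)).foldl (f a) (b a) := by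
        rw [List.take_succ_eq_append_getElem hi, List.foldl_append]
        rfl
      rw [hev2] at hev
      have e0 : (enc a).size = sz a := rfl
      have e1 : (enc (((l a).take i).foldl (f a) (b a))).size =
        sz (((l a).take i).foldl (f a) (b a)) := rfl
      have e2 : (enc (((l a).take (i + 1)).foldl (f a) (b a))).size =
        sz (((l a).take (i + 1)).foldl (f a) (b a)) := rfl
      have e3 : (enc (l a)).size = sz (l a) := rfl
      have e4 : (enc ((l a).drop (i + 1))).size = sz ((l a).drop (i + 1)) := rfl
      have e5 : (enc (l a)[i]).size = sz (l a)[i] := rfl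
      rw [sz_list_cons] at hs5
      have hc2 : cf.cost (T.cons (enc a) (T.cons (enc (((l a).take i).foldl (f a) (b a)))
          (enc (l a)[i]))) ≤ pf.eval (sz a + p.eval (sz a) + sz (l a) + 2) := by
        refine hc1.trans (poly_mono pf ?_)
        simp only [T.size_cons, e0, e1, e5]
        omega
      simp only [hbody, Code.cost, Code.eval_fst, Code.eval_snd, Code.eval_pair, Code.eval_comp,
        T.fst_cons, T.snd_cons, enc_list_cons, T.size_cons, hev, e0, e1, e2, e3, e4, e5, B]
      omega
    have hsum : ∀ a, ∑ i ∈ Finset.range (l a).length,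
        (Code.cost body ((body.eval)^[i] (T.cons (enc a) (T.cons (enc (l a)) (enc (b a))))) +
        ((body.eval)^[i] (T.cons (enc a) (T.cons (enc (l a)) (enc (b a))))).size +
        ((body.eval)^[i + 1] (T.cons (enc a) (T.cons (enc (l a)) (enc (b a))))).size +
        (enc (l a)).size + 1) ≤ (l a).length * B a := by
      intro a
      refine (Finset.sum_le_sum (fun i hi => hstep a i (Finset.mem_range.1 hi))).trans ?_
      rw [Finset.sum_const, Finset.card_range, smul_eq_mul]
    have htot : PB (fun a : α => 2 * cl.cost (enc a) + cb.cost (enc a) + 40 * sz a +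
        40 * sz (l a) + 40 * sz (b a) + 40 * p.eval (sz a) + (l a).length * B a + 80) :=
      (((((((((PB.const 2).mul h1).add h2).add ((PB.const 40).mul PB.sz)).add
        ((PB.const 40).mul hsl)).add
        ((PB.const 40).mul hsb)).add ((PB.const 40).mul (PB.poly p PB.sz))).add
        (hnB.mul hB)).add (PB.const 80))
    refine htot.mono fun a => ?_
    have e0 : (enc a).size = sz a := rfl
    have e1 : (enc (b a)).size = sz (b a) := rfl
    have e2 : (enc ((l a).foldl (f a) (b a))).size = sz ((l a).foldl (f a) (b a)) := rfl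
    have e3 : (enc (l a)).size = sz (l a) := rfl
    have hs1 := hp a (l a).length le_rfl
    rw [List.take_length] at hs1
    have hsum' := hsum a
    have hfin := hit a _ le_rfl
    simp only [List.take_length, List.drop_length] at hfin
    simp only [Code.cost, Code.eval_comp, Code.eval_pair, Code.eval_id, Code.eval_snd, hcl, hcb,
      Code.eval_iter_cons, len_enc_list, hfin, T.size_cons, T.snd_cons, enc_list_nil,
      T.size_nil, e0, e1, e2, e3] at hsum' ⊢
    omega

/-- iteration, when every step adds a bounded amount to the size -/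
theorem PolyTime.iterate_add {n : α → ℕ} {b : α → β} {f : α → β → β} (hn : PolyTime n)
    (hb : PolyTime b) (hf : PolyTime (fun q : α × β => f q.1 q.2))
    (hs : ∃ p : Polynomial ℕ, ∀ a x, sz (f a x) ≤ sz x + p.eval (sz a)) :
    PolyTime (fun a => (f a)^[n a] (b a)) := by
  refine PolyTime.iterate hn hb hf ?_
  obtain ⟨p, hp⟩ := hs
  obtain ⟨qn, hqn⟩ := hn.sz_le
  obtain ⟨qb, hqb⟩ := hb.sz_le
  refine ⟨qb + qn * p, fun a i hi => ?_⟩
  have key : ∀ i, sz ((f a)^[i] (b a)) ≤ sz (b a) + i * p.eval (sz a) := by
    intro i
    induction i with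
    | zero => simp
    | succ i ih =>
      rw [Function.iterate_succ_apply', Nat.succ_mul]
      have := hp a ((f a)^[i] (b a))
      omega
  rw [Polynomial.eval_add, Polynomial.eval_mul]
  have h1 := hqn a
  rw [sz_nat] at h1
  have h2 : i ≤ qn.eval (sz a) := by omega
  exact (key i).trans (Nat.add_le_add (hqb a) (Nat.mul_le_mul_right _ h2))

/-- fold, when every step adds a bounded amount to the size -/
theorem PolyTime.foldl_add {l : α → List γ} {b : α → β} {f : α → β → γ → β} (hl : PolyTime l)
    (hb : PolyTime b) (hf : PolyTime (fun q : α × β × γ => f q.1 q.2.1 q.2.2))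
    (hs : ∃ p : Polynomial ℕ, ∀ a x, ∀ y ∈ l a, sz (f a x y) ≤ sz x + p.eval (sz a)) :
    PolyTime (fun a => (l a).foldl (f a) (b a)) := by
  refine PolyTime.foldl hl hb hf ?_
  obtain ⟨p, hp⟩ := hs
  obtain ⟨ql, hql⟩ := hl.sz_le
  obtain ⟨qb, hqb⟩ := hb.sz_le
  refine ⟨qb + ql * p, fun a i hi => ?_⟩
  have key : ∀ i, i ≤ (l a).length → sz (((l a).take i).foldl (f a) (b a)) ≤
      sz (b a) + i * p.eval (sz a) := by
    intro i hi
    induction i with
    | zero => simp
    | succ i ih =>
      have hi' : i < (l a).length := hi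
      rw [List.take_succ_eq_append_getElem hi', List.foldl_append, Nat.succ_mul]
      have h1 := hp a (((l a).take i).foldl (f a) (b a)) (l a)[i] (List.getElem_mem hi')
      have h2 := ih hi'.le
      simp only [List.foldl_cons, List.foldl_nil]
      omega
  rw [Polynomial.eval_add, Polynomial.eval_mul]
  have h1 := hql a
  have h3 := length_lt_sz (l a)
  have h2 : i ≤ ql.eval (sz a) := by omega
  exact (key i hi).trans (Nat.add_le_add (hqb a) (Nat.mul_le_mul_right _ h2))

/-- the same with the size increment bounded in terms of the list element -/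
theorem PolyTime.foldl_add' {l : α → List γ} {b : α → β} {f : α → β → γ → β} (hl : PolyTime l)
    (hb : PolyTime b) (hf : PolyTime (fun q : α × β × γ => f q.1 q.2.1 q.2.2))
    (hs : ∃ p : Polynomial ℕ, ∀ a x y, sz (f a x y) ≤ sz x + p.eval (sz a + sz y)) :
    PolyTime (fun a => (l a).foldl (f a) (b a)) := by
  refine PolyTime.foldl_add hl hb hf ?_
  obtain ⟨p, hp⟩ := hs
  obtain ⟨q, hq⟩ := hl.sz_le
  refine ⟨p.comp (Polynomial.X + q), fun a x y hy => ?_⟩
  rw [Polynomial.eval_comp, Polynomial.eval_add, Polynomial.eval_X]
  refine (hp a x y).trans (Nat.add_le_add_left (poly_mono p (Nat.add_le_add_left ?_ _)) _)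
  exact (sz_mem_lt hy).le.trans (hq a)

/-! ### Booleans and conditionals -/

theorem PolyTime.toNat {f : α → Bool} (hf : PolyTime f) : PolyTime (fun a => (f a).toNat) :=
  hf.of_enc_eq fun a => by cases f a <;> rfl

protected theorem PolyTime.cond {c : α → Bool} {f g : α → β} (hc : PolyTime c) (hf : PolyTime f)
    (hg : PolyTime g) : PolyTime (fun a => bif c a then f a else g a) := by
  have h := PolyTime.iterate (f := fun a _ => f a) hc.toNat hg (hf.comp PolyTime.id.fst) (by
    obtain ⟨p, hp⟩ := hf.sz_le
    obtain ⟨q, hq⟩ := hg.sz_le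
    refine ⟨p + q, fun a i _ => ?_⟩
    rw [Polynomial.eval_add]
    cases i with
    | zero => exact (hq a).trans (Nat.le_add_left _ _)
    | succ i =>
      rw [Function.iterate_succ_apply']
      exact (hp a).trans (Nat.le_add_right _ _))
  refine h.congr fun a => ?_
  cases c a <;> rfl

protected theorem PolyTime.ite {c : α → Prop} [DecidablePred c] {f g : α → β}
    (hc : PolyTime (fun a => decide (c a))) (hf : PolyTime f)
    (hg : PolyTime g) : PolyTime (fun a => if c a then f a else g a) := by
  refine (hc.cond hf hg).congr fun a => ?_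
  by_cases h : c a <;> simp [h]

protected theorem PolyTime.not {f : α → Bool} (hf : PolyTime f) : PolyTime (fun a => !(f a)) :=
  (hf.cond (PolyTime.const false) (PolyTime.const true)).congr fun a => by cases f a <;> rfl

protected theorem PolyTime.and {f g : α → Bool} (hf : PolyTime f) (hg : PolyTime g) :
    PolyTime (fun a => f a && g a) :=
  (hf.cond hg (PolyTime.const false)).congr fun a => by cases f a <;> rfl

protected theorem PolyTime.or {f g : α → Bool} (hf : PolyTime f) (hg : PolyTime g) :
    PolyTime (fun a => f a || g a) :=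
  (hf.cond (PolyTime.const true) hg).congr fun a => by cases f a <;> rfl

protected theorem PolyTime.xor {f g : α → Bool} (hf : PolyTime f) (hg : PolyTime g) :
    PolyTime (fun a => xor (f a) (g a)) :=
  (hf.cond hg.not hg).congr fun a => by cases f a <;> cases g a <;> rfl

protected theorem PolyTime.beqBool {f g : α → Bool} (hf : PolyTime f) (hg : PolyTime g) :
    PolyTime (fun a => f a == g a) :=
  (hf.cond hg hg.not).congr fun a => by cases f a <;> cases g a <;> rfl

/-! ### Lists -/

protected theorem PolyTime.cons {f : α → β} {l : α → List β} (hf : PolyTime f)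
    (hl : PolyTime l) : PolyTime (fun a => f a :: l a) :=
  (hf.pair hl).of_enc_eq fun _ => rfl

protected theorem PolyTime.tail {l : α → List β} (hl : PolyTime l) :
    PolyTime (fun a => (l a).tail) :=
  PolyTime.comp (g := fun l : List β => l.tail) ⟨Code.snd, fun l => by
    cases l <;> rw [Code.eval_snd] <;> rfl, Polynomial.X + 1, fun a => by simp [Code.cost]⟩ hl

/-- test for `nil` -/
theorem isNil_code : (∀ t : T, (Code.case (constCode (enc true)) Code.nil).eval t =
    enc (decide (t = T.nil))) ∧ ∃ p : Polynomial ℕ, ∀ t : T,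
      (Code.case (constCode (enc true)) Code.nil).cost t ≤ p.eval t.size := by
  refine ⟨fun t => ?_, Polynomial.X + Polynomial.C 50, fun t => ?_⟩
  · cases t with
    | nil => simp [constCode_eval]
    | cons a b => simp
  · cases t with
    | nil => simp [Code.cost, constCode]
    | cons a b => simp [Code.cost]

protected theorem PolyTime.isEmpty {l : α → List β} (hl : PolyTime l) :
    PolyTime (fun a => (l a).isEmpty) :=
  PolyTime.comp (g := fun l : List β => l.isEmpty) ⟨_, fun l => by
    rw [isNil_code.1]; cases l <;> simp,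
    isNil_code.2.imp fun p hp a => hp _⟩ hl

protected theorem PolyTime.reverse {l : α → List β} (hl : PolyTime l) :
    PolyTime (fun a => (l a).reverse) := by
  have h := PolyTime.foldl_add' (f := fun (_ : α) (acc : List β) x => x :: acc) hl
    (PolyTime.const ([] : List β)) (PolyTime.id.snd.snd.cons PolyTime.id.snd.fst)
    ⟨Polynomial.X + 1, fun a x y => by simp; omega⟩
  refine h.congr fun a => ?_
  have : ∀ l acc : List β, l.foldl (fun acc x => x :: acc) acc = l.reverse ++ acc := by
    intro l
    induction l with
    | nil => intro acc; rfl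
    | cons x l ih => intro acc; simp [ih]
  rw [this, List.append_nil]

theorem PolyTime.foldr {l : α → List γ} {b : α → β} {f : α → γ → β → β} (hl : PolyTime l)
    (hb : PolyTime b) (hf : PolyTime (fun q : α × γ × β => f q.1 q.2.1 q.2.2))
    (hs : ∃ p : Polynomial ℕ, ∀ a i, i ≤ (l a).length →
      sz (((l a).drop i).foldr (f a) (b a)) ≤ p.eval (sz a)) :
    PolyTime (fun a => (l a).foldr (f a) (b a)) := by
  have h := PolyTime.foldl (f := fun (a : α) (acc : β) (x : γ) => f a x acc) hl.reverse hb
    (hf.comp (PolyTime.id.fst.pair (PolyTime.id.snd.snd.pair PolyTime.id.snd.fst))) (by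
      obtain ⟨p, hp⟩ := hs
      refine ⟨p, fun a i hi => ?_⟩
      rw [List.length_reverse] at hi
      rw [List.take_reverse, List.foldl_reverse]
      exact hp a _ (Nat.sub_le _ _))
  refine h.congr fun a => ?_
  rw [List.foldl_reverse]

theorem PolyTime.foldr_add {l : α → List γ} {b : α → β} {f : α → γ → β → β} (hl : PolyTime l)
    (hb : PolyTime b) (hf : PolyTime (fun q : α × γ × β => f q.1 q.2.1 q.2.2))
    (hs : ∃ p : Polynomial ℕ, ∀ a x, ∀ y ∈ l a, sz (f a y x) ≤ sz x + p.eval (sz a)) :
    PolyTime (fun a => (l a).foldr (f a) (b a)) := by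
  have h := PolyTime.foldl_add (f := fun (a : α) (acc : β) (x : γ) => f a x acc) hl.reverse hb
    (hf.comp (PolyTime.id.fst.pair (PolyTime.id.snd.snd.pair PolyTime.id.snd.fst))) (by
      obtain ⟨p, hp⟩ := hs
      exact ⟨p, fun a x y hy => hp a x y (List.mem_reverse.1 hy)⟩)
  refine h.congr fun a => ?_
  rw [List.foldl_reverse]

theorem PolyTime.foldr_add' {l : α → List γ} {b : α → β} {f : α → γ → β → β} (hl : PolyTime l)
    (hb : PolyTime b) (hf : PolyTime (fun q : α × γ × β => f q.1 q.2.1 q.2.2))
    (hs : ∃ p : Polynomial ℕ, ∀ a x y, sz (f a y x) ≤ sz x + p.eval (sz a + sz y)) :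
    PolyTime (fun a => (l a).foldr (f a) (b a)) := by
  have h := PolyTime.foldl_add' (f := fun (a : α) (acc : β) (x : γ) => f a x acc) hl.reverse hb
    (hf.comp (PolyTime.id.fst.pair (PolyTime.id.snd.snd.pair PolyTime.id.snd.fst))) hs
  refine h.congr fun a => ?_
  rw [List.foldl_reverse]

protected theorem PolyTime.append {l₁ l₂ : α → List β} (h₁ : PolyTime l₁) (h₂ : PolyTime l₂) :
    PolyTime (fun a => l₁ a ++ l₂ a) := by
  have h := PolyTime.foldr_add' (f := fun (_ : α) x (acc : List β) => x :: acc) h₁ h₂
    (PolyTime.id.snd.fst.cons PolyTime.id.snd.snd)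
    ⟨Polynomial.X + 1, fun a x y => by simp; omega⟩
  refine h.congr fun a => ?_
  induction l₁ a with
  | nil => rfl
  | cons x l ih => simp

protected theorem PolyTime.map {l : α → List β} {f : α → β → γ} (hl : PolyTime l)
    (hf : PolyTime (fun q : α × β => f q.1 q.2)) : PolyTime (fun a => (l a).map (f a)) := by
  have h := PolyTime.foldr_add' (f := fun (a : α) x (acc : List γ) => f a x :: acc) hl
    (PolyTime.const ([] : List γ))
    ((hf.comp (PolyTime.id.fst.pair PolyTime.id.snd.fst)).cons PolyTime.id.snd.snd) (by
      obtain ⟨p, hp⟩ := hf.sz_le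
      refine ⟨p.comp (Polynomial.X + 1) + 1, fun a x y => ?_⟩
      have := hp (a, y)
      simp only [sz_pair] at this
      simp only [sz_list_cons, Polynomial.eval_add, Polynomial.eval_comp, Polynomial.eval_X,
        Polynomial.eval_one]
      omega)
  refine h.congr fun a => ?_
  induction l a with
  | nil => rfl
  | cons x l ih => simp [ih]

protected theorem PolyTime.flatMap {l : α → List β} {f : α → β → List γ} (hl : PolyTime l)
    (hf : PolyTime (fun q : α × β => f q.1 q.2)) : PolyTime (fun a => (l a).flatMap (f a)) := by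
  have h := PolyTime.foldr_add' (f := fun (a : α) x (acc : List γ) => f a x ++ acc) hl
    (PolyTime.const ([] : List γ))
    ((hf.comp (PolyTime.id.fst.pair PolyTime.id.snd.fst)).append PolyTime.id.snd.snd) (by
      obtain ⟨p, hp⟩ := hf.sz_le
      refine ⟨p.comp (Polynomial.X + 1), fun a x y => ?_⟩
      have := hp (a, y)
      simp only [sz_pair] at this
      have h2 := sz_append_le (f a y) x
      simp only [Polynomial.eval_add, Polynomial.eval_comp, Polynomial.eval_X,
        Polynomial.eval_one]
      omega)
  refine h.congr fun a => ?_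
  induction l a with
  | nil => rfl
  | cons x l ih => simp [ih]

protected theorem PolyTime.flatten {l : α → List (List β)} (hl : PolyTime l) :
    PolyTime (fun a => (l a).flatten) :=
  (hl.flatMap (f := fun _ x => x) PolyTime.id.snd).congr fun a => by
    rw [List.flatMap_def, List.map_id']

protected theorem PolyTime.filter {l : α → List β} {f : α → β → Bool} (hl : PolyTime l)
    (hf : PolyTime (fun q : α × β => f q.1 q.2)) : PolyTime (fun a => (l a).filter (f a)) := by
  have h := PolyTime.flatMap (f := fun (a : α) x => bif f a x then [x] else []) hl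
    (hf.cond (PolyTime.id.snd.cons (PolyTime.const [])) (PolyTime.const []))
  refine h.congr fun a => ?_
  induction l a with
  | nil => rfl
  | cons x l ih => rw [List.flatMap_cons, ih, List.filter_cons]; cases f a x <;> rfl

protected theorem PolyTime.headD {l : α → List β} {d : α → β} (hl : PolyTime l)
    (hd : PolyTime d) : PolyTime (fun a => (l a).headD (d a)) := by
  have h := PolyTime.foldl (f := fun (_ : α) (_ : β) (x : β) => x) hl.reverse hd
    PolyTime.id.snd.snd (by
      obtain ⟨p, hp⟩ := hl.sz_le
      obtain ⟨q, hq⟩ := hd.sz_le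
      refine ⟨p + q, fun a i hi => ?_⟩
      rw [Polynomial.eval_add]
      have key : ∀ (l' : List β) (d' : β), (l'.foldl (fun _ x => x) d') = d' ∨
          (l'.foldl (fun _ x => x) d') ∈ l' := by
        intro l'
        induction l' with
        | nil => intro d'; left; rfl
        | cons x l' ih =>
          intro d'
          right
          rcases ih x with h | h
          · rw [List.foldl_cons, h]; exact List.mem_cons_self
          · exact List.mem_cons_of_mem _ h
      rcases key ((l a).reverse.take i) (d a) with h | h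
      · rw [h]; exact (hq a).trans (Nat.le_add_left _ _)
      · have h1 := sz_mem_lt (List.mem_reverse.1 (List.mem_of_mem_take h))
        exact (h1.le.trans (hp a)).trans (Nat.le_add_right _ _))
  refine h.congr fun a => ?_
  cases l a with
  | nil => rfl
  | cons x l => simp

protected theorem PolyTime.length {l : α → List β} (hl : PolyTime l) :
    PolyTime (fun a => (l a).length) := by
  have h := (hl.map (f := fun _ _ => ()) (PolyTime.const ()))
  refine h.of_enc_eq fun a => ?_
  induction l a with
  | nil => rfl
  | cons x l ih => rw [List.map_cons, enc_list_cons, ih, List.length_cons, enc_nat_succ]; rfl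

/-! ### Unary arithmetic -/

protected theorem PolyTime.succ {f : α → ℕ} (hf : PolyTime f) : PolyTime (fun a => f a + 1) :=
  ((PolyTime.const T.nil).pair hf).of_enc_eq fun _ => rfl

protected theorem PolyTime.pred {f : α → ℕ} (hf : PolyTime f) : PolyTime (fun a => f a - 1) :=
  PolyTime.comp (g := fun n : ℕ => n - 1) ⟨Code.snd, fun n => by
    cases n <;> rw [Code.eval_snd] <;> rfl, Polynomial.X + 1, fun a => by simp [Code.cost]⟩ hf

protected theorem PolyTime.isZero {f : α → ℕ} (hf : PolyTime f) :
    PolyTime (fun a => decide (f a = 0)) :=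
  PolyTime.comp (g := fun n : ℕ => decide (n = 0)) ⟨_, fun n => by
    rw [isNil_code.1]; cases n <;> simp,
    isNil_code.2.imp fun p hp a => hp _⟩ hf

protected theorem PolyTime.add {f g : α → ℕ} (hf : PolyTime f) (hg : PolyTime g) :
    PolyTime (fun a => f a + g a) := by
  have h := PolyTime.iterate_add (f := fun (_ : α) (x : ℕ) => x + 1) hg hf PolyTime.id.snd.succ
    ⟨2, fun a x => by simp; omega⟩
  refine h.congr fun a => ?_
  rw [Nat.succ_iterate]

protected theorem PolyTime.sub {f g : α → ℕ} (hf : PolyTime f) (hg : PolyTime g) :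
    PolyTime (fun a => f a - g a) := by
  have h := PolyTime.iterate_add (f := fun (_ : α) (x : ℕ) => x - 1) hg hf PolyTime.id.snd.pred
    ⟨2, fun a x => by simp; omega⟩
  refine h.congr fun a => ?_
  induction g a with
  | zero => rfl
  | succ n ih => rw [Function.iterate_succ_apply', ih]; omega

protected theorem PolyTime.mul {f g : α → ℕ} (hf : PolyTime f) (hg : PolyTime g) :
    PolyTime (fun a => f a * g a) := by
  have h := PolyTime.iterate_add (f := fun (a : α) (x : ℕ) => x + f a) hg (PolyTime.const 0)
    (PolyTime.id.snd.add (hf.comp PolyTime.id.fst)) (by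
      obtain ⟨p, hp⟩ := hf.sz_le
      refine ⟨p, fun a x => ?_⟩
      have := hp a
      simp only [sz_nat] at this ⊢
      omega)
  refine h.congr fun a => ?_
  induction g a with
  | zero => rfl
  | succ n ih => rw [Function.iterate_succ_apply', ih]; ring

protected theorem PolyTime.le {f g : α → ℕ} (hf : PolyTime f) (hg : PolyTime g) :
    PolyTime (fun a => decide (f a ≤ g a)) :=
  (hf.sub hg).isZero.congr fun a => by
    rw [decide_eq_decide]; omega

protected theorem PolyTime.lt {f g : α → ℕ} (hf : PolyTime f) (hg : PolyTime g) :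
    PolyTime (fun a => decide (f a < g a)) :=
  (hf.succ.le hg).congr fun a => by
    rw [decide_eq_decide]; omega

protected theorem PolyTime.eqNat {f g : α → ℕ} (hf : PolyTime f) (hg : PolyTime g) :
    PolyTime (fun a => decide (f a = g a)) :=
  ((hf.le hg).and (hg.le hf)).congr fun a => by
    rw [← Bool.decide_and, decide_eq_decide]; omega

protected theorem PolyTime.min {f g : α → ℕ} (hf : PolyTime f) (hg : PolyTime g) :
    PolyTime (fun a => min (f a) (g a)) :=
  (PolyTime.ite (hf.le hg) hf hg).congr fun a => by rw [Nat.min_def]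

protected theorem PolyTime.max {f g : α → ℕ} (hf : PolyTime f) (hg : PolyTime g) :
    PolyTime (fun a => max (f a) (g a)) :=
  (PolyTime.ite (hf.le hg) hg hf).congr fun a => by rw [Nat.max_def]

/-- evaluation of a fixed polynomial -/
protected theorem PolyTime.polyEval (p : Polynomial ℕ) {f : α → ℕ} (hf : PolyTime f) :
    PolyTime (fun a => p.eval (f a)) := by
  induction p using Polynomial.induction_on' with
  | add p q hp hq => exact (hp.add hq).congr fun a => by rw [Polynomial.eval_add]
  | monomial n c =>
    have : PolyTime (fun a => c * f a ^ n) := by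
      refine (PolyTime.const c).mul ?_
      induction n with
      | zero => exact (PolyTime.const 1).congr fun a => by rw [pow_zero]
      | succ n ih => exact (ih.mul hf).congr fun a => by rw [pow_succ]
    exact this.congr fun a => by rw [Polynomial.eval_monomial]

protected theorem PolyTime.range {f : α → ℕ} (hf : PolyTime f) :
    PolyTime (fun a => List.range (f a)) := by
  have h := PolyTime.iterate (f := fun (_ : α) (x : ℕ × List ℕ) => (x.1 + 1, x.1 :: x.2)) hf
    (PolyTime.const ((0, []) : ℕ × List ℕ))
    (PolyTime.id.snd.fst.succ.pair (PolyTime.id.snd.fst.cons PolyTime.id.snd.snd)) (by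
      obtain ⟨p, hp⟩ := hf.sz_le
      have key : ∀ i : ℕ, ((fun (x : ℕ × List ℕ) => (x.1 + 1, x.1 :: x.2))^[i] (0, [])).1 = i ∧
          sz ((fun (x : ℕ × List ℕ) => (x.1 + 1, x.1 :: x.2))^[i] (0, [])).2 ≤
            i * (2 * i + 2) + 1 := by
        intro i
        induction i with
        | zero => exact ⟨rfl, by simp⟩
        | succ i ih =>
          rw [Function.iterate_succ_apply']
          refine ⟨by rw [ih.1], ?_⟩
          simp only [sz_list_cons, ih.1, sz_nat]
          nlinarith [ih.2]
      refine ⟨2 * p + 2 + (p * (2 * p + 2) + 1), fun a i hi => ?_⟩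
      have h1 := hp a
      rw [sz_nat] at h1
      have h2 := key i
      have h3 : i ≤ p.eval (sz a) := by omega
      rw [show (fun (x : ℕ × List ℕ) => (x.1 + 1, x.1 :: x.2))^[i] (0, []) = (_, _) from
        (Prod.mk.eta).symm, sz_pair, h2.1, sz_nat]
      have h4 : i * (2 * i + 2) ≤ p.eval (sz a) * (2 * p.eval (sz a) + 2) :=
        Nat.mul_le_mul h3 (by omega)
      simp only [Polynomial.eval_add, Polynomial.eval_mul, Polynomial.eval_ofNat,
        Polynomial.eval_one]
      omega)
  refine h.snd.reverse.congr fun a => ?_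
  have key : ∀ i : ℕ, ((fun (x : ℕ × List ℕ) => (x.1 + 1, x.1 :: x.2))^[i] (0, [])) =
      (i, (List.range i).reverse) := by
    intro i
    induction i with
    | zero => rfl
    | succ i ih =>
      rw [Function.iterate_succ_apply', ih, List.range_succ]
      simp
  rw [key, List.reverse_reverse]

protected theorem PolyTime.replicate {f : α → ℕ} {b : α → β} (hf : PolyTime f)
    (hb : PolyTime b) : PolyTime (fun a => List.replicate (f a) (b a)) :=
  (hf.range.map (f := fun a _ => b a) (hb.comp PolyTime.id.fst)).congr fun a => by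
    rw [List.map_const', List.length_range]

protected theorem PolyTime.drop {l : α → List β} {n : α → ℕ} (hn : PolyTime n)
    (hl : PolyTime l) : PolyTime (fun a => (l a).drop (n a)) := by
  have h := PolyTime.iterate_add (f := fun (_ : α) (x : List β) => x.tail) hn hl
    PolyTime.id.snd.tail ⟨0, fun a x => by cases x with
      | nil => simp
      | cons y x => simp; omega⟩
  refine h.congr fun a => ?_
  induction n a with
  | zero => rfl
  | succ n ih => rw [Function.iterate_succ_apply', ih, List.tail_drop]

protected theorem PolyTime.take {l : α → List β} {n : α → ℕ} (hn : PolyTime n)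
    (hl : PolyTime l) : PolyTime (fun a => (l a).take (n a)) := by
  refine (PolyTime.drop (hl.length.sub hn) hl.reverse).reverse.congr fun a => ?_
  rw [List.drop_reverse, List.reverse_reverse]
  by_cases h : n a ≤ (l a).length
  · rw [Nat.sub_sub_self h]
  · rw [List.take_of_length_le (by omega), List.take_of_length_le (by omega)]

protected theorem PolyTime.getD {l : α → List β} {n : α → ℕ} {d : α → β} (hl : PolyTime l)
    (hn : PolyTime n) (hd : PolyTime d) : PolyTime (fun a => (l a).getD (n a) (d a)) := by
  refine ((PolyTime.drop hn hl).headD hd).congr fun a => ?_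
  rw [List.getD_eq_getElem?_getD, List.headD_eq_head?_getD, List.head?_drop]

protected theorem PolyTime.zip {l₁ : α → List β} {l₂ : α → List γ} (h₁ : PolyTime l₁)
    (h₂ : PolyTime l₂) : PolyTime (fun a => (l₁ a).zip (l₂ a)) := by
  -- fold over `l₁`, carrying the rest of `l₂` and the (reversed) result
  have h := PolyTime.foldl (f := fun (_ : α) (acc : List γ × List (β × γ)) (x : β) =>
      (acc.1.tail, (acc.1.take 1).map (fun y => (x, y)) ++ acc.2)) h₁
    (h₂.pair (PolyTime.const ([] : List (β × γ))))
    (PolyTime.id.snd.fst.fst.tail.pair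
      (((PolyTime.take (PolyTime.const 1) PolyTime.id.snd.fst.fst).map
        (f := fun (q : α × (List γ × List (β × γ)) × β) (y : γ) => (q.2.2, y))
        (PolyTime.id.fst.snd.snd.pair PolyTime.id.snd)).append PolyTime.id.snd.fst.snd)) (by
      obtain ⟨p, hp⟩ := h₁.sz_le
      obtain ⟨q, hq⟩ := h₂.sz_le
      refine ⟨2 * q + 2 * p + 2, fun a i hi => ?_⟩
      have key : ∀ (l : List β) (r : List γ) (acc : List (β × γ)),
          sz (l.foldl (fun (acc : List γ × List (β × γ)) (x : β) =>
            (acc.1.tail, (acc.1.take 1).map (fun y => (x, y)) ++ acc.2)) (r, acc)) ≤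
          2 * sz r + sz acc + 2 * sz l := by
        intro l
        induction l with
        | nil => intro r acc; simp; have := sz_pos r; omega
        | cons x l ih =>
          intro r acc
          rw [List.foldl_cons]
          cases r with
          | nil =>
            have := ih [] acc
            simp only [List.tail_nil, List.take_nil, List.map_nil, List.nil_append, sz_list_nil,
              sz_list_cons] at this ⊢
            omega
          | cons y r =>
            have := ih r ((x, y) :: acc)
            simp only [List.tail_cons, List.take_succ_cons, List.take_zero, List.map_cons,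
              List.map_nil, List.cons_append, List.nil_append, sz_list_cons, sz_pair] at this ⊢
            omega
      have h1 := key ((l₁ a).take i) (l₂ a) []
      have h2 := sz_take_le (l₁ a) i
      have h3 := hp a
      have h4 := hq a
      simp only [Polynomial.eval_add, Polynomial.eval_mul, Polynomial.eval_ofNat]
      rw [sz_list_nil] at h1
      omega)
  refine h.snd.reverse.congr fun a => ?_
  have key : ∀ (l : List β) (r : List γ) (acc : List (β × γ)),
      (l.foldl (fun (acc : List γ × List (β × γ)) (x : β) =>
            (acc.1.tail, (acc.1.take 1).map (fun y => (x, y)) ++ acc.2)) (r, acc)).2 =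
        (l.zip r).reverse ++ acc := by
    intro l
    induction l with
    | nil => intro r acc; rfl
    | cons x l ih =>
      intro r acc
      rw [List.foldl_cons]
      cases r with
      | nil =>
        simp only [List.tail_nil, List.take_nil, List.map_nil, List.nil_append]
        rw [ih]
        simp
      | cons y r =>
        simp only [List.tail_cons, List.take_succ_cons, List.take_zero, List.map_cons,
          List.map_nil, List.cons_append, List.nil_append]
        rw [ih]
        simp
  rw [key, List.append_nil, List.reverse_reverse]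

protected theorem PolyTime.zipWith {ε : Type*} [Enc ε] {l₁ : α → List β} {l₂ : α → List γ}
    {f : α → β → γ → ε} (h₁ : PolyTime l₁)
    (h₂ : PolyTime l₂) (hf : PolyTime (fun q : α × β × γ => f q.1 q.2.1 q.2.2)) :
    PolyTime (fun a => List.zipWith (f a) (l₁ a) (l₂ a)) :=
  ((h₁.zip h₂).map (f := fun a (q : β × γ) => f a q.1 q.2) hf).congr fun a => by
    rw [List.zip, List.map_zipWith]

/-- sum of a list of unary numbers -/
protected theorem PolyTime.sum {l : α → List ℕ} (hl : PolyTime l) :
    PolyTime (fun a => (l a).sum) := by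
  have h := PolyTime.foldr_add' (f := fun (_ : α) (x : ℕ) (acc : ℕ) => x + acc) hl
    (PolyTime.const 0) (PolyTime.id.snd.fst.add PolyTime.id.snd.snd)
    ⟨Polynomial.X, fun a x y => by simp; omega⟩
  refine h.congr fun a => rfl

protected theorem PolyTime.all {l : α → List β} {f : α → β → Bool} (hl : PolyTime l)
    (hf : PolyTime (fun q : α × β => f q.1 q.2)) : PolyTime (fun a => (l a).all (f a)) :=
  (PolyTime.isEmpty (hl.filter (f := fun a x => !(f a x)) hf.not)).congr fun a => by
    induction l a with
    | nil => rfl
    | cons x l ih =>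
      rw [List.filter_cons, List.all_cons]
      cases f a x
      · simp
      · simpa using ih

protected theorem PolyTime.any {l : α → List β} {f : α → β → Bool} (hl : PolyTime l)
    (hf : PolyTime (fun q : α × β => f q.1 q.2)) : PolyTime (fun a => (l a).any (f a)) :=
  (PolyTime.isEmpty (hl.filter hf)).not.congr fun a => by
    induction l a with
    | nil => rfl
    | cons x l ih =>
      rw [List.filter_cons, List.any_cons]
      cases f a x
      · simpa using ih
      · simp

end basic

end Pool.Agent.Lib.PT
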