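import Mathlib
import Pool.Agent.Lib.PolyTime.Lib

/-!
# Binary arithmetic in polynomial time

Natural numbers in binary are little-endian lists of bits with value `bval`.  For every operation
there is a value lemma (`bval_badd`, ...), a length bound (`length_badd`, ...) and a closure lemma
(`PolyTime.badd`, ...).  Fractions `BQ` are triples `(p, q, d)` of binary numbers meaning
`(p - q) / d` with value `qval` (Lean's convention `x / 0 = 0`); all value lemmas for fractions are
unconditional.
-/

namespace Pool.Agent.Lib.PT

open T

/-! ### Folds with a measure -/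

section measure

variable {α β γ δ : Type*} [Enc α] [Enc β] [Enc γ] [Enc δ]

/-- fold over a list, when the size is bounded by a polynomial in a measure that grows by a bounded
amount at every step -/
theorem PolyTime.foldl_meas {l : α → List γ} {b : α → β} {f : α → β → γ → β} (μ : β → ℕ)
    (hl : PolyTime l)
    (hb : PolyTime b) (hf : PolyTime (fun q : α × β × γ => f q.1 q.2.1 q.2.2))
    (hμ : ∃ P : Polynomial ℕ, ∀ x, sz x ≤ P.eval (μ x)) (hμb : PB (fun a => μ (b a)))
    (hs : ∃ p : Polynomial ℕ, ∀ a x, ∀ y ∈ l a, μ (f a x y) ≤ μ x + p.eval (sz a)) :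
    PolyTime (fun a => (l a).foldl (f a) (b a)) := by
  refine PolyTime.foldl hl hb hf ?_
  obtain ⟨p, hp⟩ := hs
  obtain ⟨P, hP⟩ := hμ
  obtain ⟨ql, hql⟩ := hl.sz_le
  obtain ⟨qb, hqb⟩ := hμb
  refine ⟨P.comp (qb + ql * p), fun a i hi => ?_⟩
  have key : ∀ i, i ≤ (l a).length → μ (((l a).take i).foldl (f a) (b a)) ≤
      μ (b a) + i * p.eval (sz a) := by
    intro i hi
    induction i with
    | zero => simp
    | succ i ih =>
      have hi' : i < (l a).length := hi
      rw [List.take_succ_eq_append_getElem hi', List.foldl_append, Nat.succ_mul]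
      have h1 := hp a (((l a).take i).foldl (f a) (b a)) (l a)[i] (List.getElem_mem hi')
      have h2 := ih hi'.le
      simp only [List.foldl_cons, List.foldl_nil]
      omega
  rw [Polynomial.eval_comp]
  refine (hP _).trans (poly_mono P ?_)
  rw [Polynomial.eval_add, Polynomial.eval_mul]
  have h1 := hql a
  have h3 := length_lt_sz (l a)
  have h2 : i ≤ ql.eval (sz a) := by omega
  exact (key i hi).trans (Nat.add_le_add (hqb a) (Nat.mul_le_mul_right _ h2))

theorem PolyTime.foldr_meas {l : α → List γ} {b : α → β} {f : α → γ → β → β} (μ : β → ℕ)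
    (hl : PolyTime l)
    (hb : PolyTime b) (hf : PolyTime (fun q : α × γ × β => f q.1 q.2.1 q.2.2))
    (hμ : ∃ P : Polynomial ℕ, ∀ x, sz x ≤ P.eval (μ x)) (hμb : PB (fun a => μ (b a)))
    (hs : ∃ p : Polynomial ℕ, ∀ a x, ∀ y ∈ l a, μ (f a y x) ≤ μ x + p.eval (sz a)) :
    PolyTime (fun a => (l a).foldr (f a) (b a)) := by
  have h := PolyTime.foldl_meas (f := fun (a : α) (acc : β) (x : γ) => f a x acc) μ hl.reverse hb
    (hf.comp (PolyTime.id.fst.pair (PolyTime.id.snd.snd.pair PolyTime.id.snd.fst))) hμ hμb (by
      obtain ⟨p, hp⟩ := hs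
      exact ⟨p, fun a x y hy => hp a x y (List.mem_reverse.1 hy)⟩)
  refine h.congr fun a => ?_
  rw [List.foldl_reverse]

/-- iteration, with a measure -/
theorem PolyTime.iterate_meas {n : α → ℕ} {b : α → β} {f : α → β → β} (μ : β → ℕ)
    (hn : PolyTime n) (hb : PolyTime b) (hf : PolyTime (fun q : α × β => f q.1 q.2))
    (hμ : ∃ P : Polynomial ℕ, ∀ x, sz x ≤ P.eval (μ x)) (hμb : PB (fun a => μ (b a)))
    (hs : ∃ p : Polynomial ℕ, ∀ a x, μ (f a x) ≤ μ x + p.eval (sz a)) :
    PolyTime (fun a => (f a)^[n a] (b a)) := by
  refine PolyTime.iterate hn hb hf ?_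
  obtain ⟨p, hp⟩ := hs
  obtain ⟨P, hP⟩ := hμ
  obtain ⟨qn, hqn⟩ := hn.sz_le
  obtain ⟨qb, hqb⟩ := hμb
  refine ⟨P.comp (qb + qn * p), fun a i hi => ?_⟩
  have key : ∀ i, μ ((f a)^[i] (b a)) ≤ μ (b a) + i * p.eval (sz a) := by
    intro i
    induction i with
    | zero => simp
    | succ i ih =>
      rw [Function.iterate_succ_apply', Nat.succ_mul]
      have := hp a ((f a)^[i] (b a))
      omega
  rw [Polynomial.eval_comp]
  refine (hP _).trans (poly_mono P ?_)
  rw [Polynomial.eval_add, Polynomial.eval_mul]
  have h1 := hqn a
  rw [sz_nat] at h1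
  have h2 : i ≤ qn.eval (sz a) := by omega
  exact (key i).trans (Nat.add_le_add (hqb a) (Nat.mul_le_mul_right _ h2))

end measure

/-! ### The value of a list of bits -/

/-- value of a little-endian list of bits -/
def bval : List Bool → ℕ
  | [] => 0
  | b :: l => b.toNat + 2 * bval l

@[simp] theorem bval_nil : bval [] = 0 := rfl
@[simp] theorem bval_cons (b : Bool) (l : List Bool) : bval (b :: l) = b.toNat + 2 * bval l := rfl

theorem bval_lt (l : List Bool) : bval l < 2 ^ l.length := by
  induction l with
  | nil => simp
  | cons b l ih =>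
    rw [bval_cons, List.length_cons, pow_succ]
    have := Bool.toNat_lt b
    omega

theorem bval_append (x y : List Bool) : bval (x ++ y) = bval x + 2 ^ x.length * bval y := by
  induction x with
  | nil => simp
  | cons b x ih => rw [List.cons_append, bval_cons, ih, bval_cons, List.length_cons, pow_succ]; ring

@[simp] theorem bval_replicate (n : ℕ) : bval (List.replicate n false) = 0 := by
  induction n with
  | zero => rfl
  | succ n ih => rw [List.replicate_succ, bval_cons, ih]; rfl

theorem bval_take (x : List Bool) (n : ℕ) : bval (x.take n) = bval x % 2 ^ n := by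
  rcases le_or_gt n x.length with h | h
  · have h1 := bval_append (x.take n) (x.drop n)
    rw [List.take_append_drop, List.length_take_of_le h] at h1
    have h2 := bval_lt (x.take n)
    rw [List.length_take_of_le h] at h2
    rw [h1, Nat.add_mul_mod_self_left, Nat.mod_eq_of_lt h2]
  · rw [List.take_of_length_le h.le, Nat.mod_eq_of_lt]
    exact (bval_lt x).trans_le (Nat.pow_le_pow_right (by norm_num) h.le)

theorem bval_take_of_lt {x : List Bool} {n : ℕ} (h : bval x < 2 ^ n) :
    bval (x.take n) = bval x := by
  rw [bval_take, Nat.mod_eq_of_lt h]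

theorem bval_bits (n : ℕ) : bval n.bits = n := by
  induction n using Nat.binaryRec' with
  | zero => simp
  | bit b n h ih =>
    rw [Nat.bits_append_bit n b h, bval_cons, ih, Nat.bit_val]
    ring

/-! ### Normal form -/

/-- strip the trailing zeros -/
def bnorm (x : List Bool) : List Bool :=
  x.foldr (fun b acc => bif acc.isEmpty && !b then [] else b :: acc) []

theorem bnorm_cons (b : Bool) (x : List Bool) :
    bnorm (b :: x) = bif (bnorm x).isEmpty && !b then [] else b :: bnorm x := rfl

theorem bnorm_eq (x : List Bool) : bnorm x = (bval x).bits := by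
  induction x with
  | nil => simp [bnorm]
  | cons b x ih =>
    rw [bnorm_cons, ih, bval_cons]
    have e : b.toNat + 2 * bval x = Nat.bit b (bval x) := by rw [Nat.bit_val]; ring
    rw [e]
    rcases Nat.eq_zero_or_pos (bval x) with h | h
    · rw [h]
      cases b <;> simp
    · rw [Nat.bits_append_bit _ _ (by omega)]
      have : (bval x).bits ≠ [] := by
        intro h2
        have := bval_bits (bval x)
        rw [h2] at this
        simp at this
        omega
      cases hx : (bval x).bits with
      | nil => exact absurd hx this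
      | cons c t => simp

@[simp] theorem bval_bnorm (x : List Bool) : bval (bnorm x) = bval x := by
  rw [bnorm_eq, bval_bits]

theorem bnorm_congr {x y : List Bool} (h : bval x = bval y) : bnorm x = bnorm y := by
  rw [bnorm_eq, bnorm_eq, h]

theorem length_bnorm (x : List Bool) : (bnorm x).length ≤ x.length := by
  induction x with
  | nil => simp [bnorm]
  | cons b x ih =>
    rw [bnorm_cons, List.length_cons]
    cases (bnorm x).isEmpty && !b
    · simpa using ih
    · simp

/-! ### Addition and subtraction -/

/-- pad with zeros up to length `n` -/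
def bpad (n : ℕ) (x : List Bool) : List Bool := x ++ List.replicate (n - x.length) false

@[simp] theorem bval_bpad (n : ℕ) (x : List Bool) : bval (bpad n x) = bval x := by
  rw [bpad, bval_append, bval_replicate, mul_zero, add_zero]

theorem length_bpad {n : ℕ} {x : List Bool} (h : x.length ≤ n) : (bpad n x).length = n := by
  rw [bpad, List.length_append, List.length_replicate]; omega

/-- the pairs of digits of two numbers -/
def bzip (x y : List Bool) : List (Bool × Bool) :=
  (bpad (max x.length y.length) x).zip (bpad (max x.length y.length) y)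

theorem length_bzip (x y : List Bool) : (bzip x y).length = max x.length y.length := by
  rw [bzip, List.length_zip, length_bpad (le_max_left _ _), length_bpad (le_max_right _ _),
    min_self]

theorem bval_bzip_fst (x y : List Bool) : bval ((bzip x y).map Prod.fst) = bval x := by
  rw [bzip, List.map_fst_zip, bval_bpad]
  rw [length_bpad (le_max_left _ _), length_bpad (le_max_right _ _)]

theorem bval_bzip_snd (x y : List Bool) : bval ((bzip x y).map Prod.snd) = bval y := by
  rw [bzip, List.map_snd_zip, bval_bpad]
  rw [length_bpad (le_max_left _ _), length_bpad (le_max_right _ _)]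

/-- one step of addition; the state is the carry and the reversed digits -/
def addStep (s : Bool × List Bool) (p : Bool × Bool) : Bool × List Bool :=
  ((s.1 && p.1) || (s.1 && p.2) || (p.1 && p.2), (xor (xor s.1 p.1) p.2) :: s.2)

/-- addition -/
def badd (x y : List Bool) : List Bool :=
  ((bzip x y).foldl addStep (false, [])).2.reverse ++ [((bzip x y).foldl addStep (false, [])).1]

theorem addStep_fold (l : List (Bool × Bool)) : ∀ (c : Bool) (acc : List Bool),
    bval ((l.foldl addStep (c, acc)).2.reverse ++ [(l.foldl addStep (c, acc)).1]) =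
      bval acc.reverse + 2 ^ acc.length *
        (c.toNat + bval (l.map Prod.fst) + bval (l.map Prod.snd)) := by
  induction l with
  | nil => intro c acc; simp [bval_append]
  | cons p l ih =>
    intro c acc
    rw [List.foldl_cons, addStep, ih]
    simp only [List.reverse_cons, bval_append, List.length_reverse, List.length_cons, bval_cons,
      bval_nil, List.map_cons]
    rcases p with ⟨a, b⟩
    cases a <;> cases b <;> cases c <;> simp [pow_succ] <;> ring

@[simp] theorem bval_badd (x y : List Bool) : bval (badd x y) = bval x + bval y := by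
  rw [badd, addStep_fold]
  simp [bval_bzip_fst, bval_bzip_snd]

theorem addStep_fold_length (l : List (Bool × Bool)) : ∀ (c : Bool) (acc : List Bool),
    (l.foldl addStep (c, acc)).2.length = acc.length + l.length := by
  induction l with
  | nil => intro c acc; simp
  | cons p l ih =>
    intro c acc
    rw [List.foldl_cons, addStep, ih, List.length_cons, List.length_cons]; ring

theorem length_badd (x y : List Bool) : (badd x y).length = max x.length y.length + 1 := by
  rw [badd, List.length_append, List.length_reverse, addStep_fold_length, length_bzip]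
  simp

theorem length_badd_le (x y : List Bool) : (badd x y).length ≤ max x.length y.length + 1 :=
  (length_badd x y).le

/-- one step of subtraction; the state is the borrow and the reversed digits -/
def subStep (s : Bool × List Bool) (p : Bool × Bool) : Bool × List Bool :=
  ((!p.1 && (s.1 || p.2)) || (s.1 && p.2), (xor (xor s.1 p.1) p.2) :: s.2)

theorem subStep_fold (l : List (Bool × Bool)) : ∀ (c : Bool) (acc : List Bool),
    bval (l.foldl subStep (c, acc)).2.reverse + 2 ^ acc.length *
        (c.toNat + bval (l.map Prod.snd)) =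
      bval acc.reverse + 2 ^ acc.length * bval (l.map Prod.fst) +
        2 ^ (acc.length + l.length) * (l.foldl subStep (c, acc)).1.toNat := by
  induction l with
  | nil => intro c acc; simp
  | cons p l ih =>
    intro c acc
    have h := ih ((!p.1 && (c || p.2)) || (c && p.2)) ((xor (xor c p.1) p.2) :: acc)
    rw [List.foldl_cons, show subStep (c, acc) p = ((!p.1 && (c || p.2)) || (c && p.2),
      (xor (xor c p.1) p.2) :: acc) from rfl]
    rw [List.length_cons, List.map_cons, List.map_cons, bval_cons, bval_cons]
    rw [List.reverse_cons, bval_append, List.length_reverse, List.length_cons, bval_cons,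
      bval_nil] at h
    have e : 2 ^ (acc.length + (l.length + 1)) = 2 ^ (acc.length + 1 + l.length) := by
      congr 1; ring
    rw [e]
    generalize (List.foldl subStep ((!p.1 && (c || p.2)) || (c && p.2),
      (xor (xor c p.1) p.2) :: acc) l) = s at h ⊢
    generalize 2 ^ (acc.length + 1 + l.length) * s.1.toNat = u at h ⊢
    rw [pow_succ] at h
    generalize 2 ^ acc.length = w at h ⊢
    generalize bval (l.map Prod.fst) = m at h ⊢
    generalize bval (l.map Prod.snd) = n at h ⊢
    rcases p with ⟨a, b⟩
    cases a <;> cases b <;> cases c <;> simp at h ⊢ <;> nlinarith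

theorem subStep_fold_length (l : List (Bool × Bool)) : ∀ (c : Bool) (acc : List Bool),
    (l.foldl subStep (c, acc)).2.length = acc.length + l.length := by
  induction l with
  | nil => intro c acc; simp
  | cons p l ih =>
    intro c acc
    rw [List.foldl_cons, subStep, ih, List.length_cons, List.length_cons]; ring

/-- borrow and digits of `x - y` -/
def bsubAux (x y : List Bool) : Bool × List Bool := (bzip x y).foldl subStep (false, [])

theorem bsubAux_spec (x y : List Bool) :
    bval (bsubAux x y).2.reverse + bval y =
      bval x + 2 ^ (max x.length y.length) * (bsubAux x y).1.toNat := by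
  have := subStep_fold (bzip x y) false []
  simp only [List.length_nil, pow_zero, one_mul, Bool.toNat_false, zero_add, List.reverse_nil,
    bval_nil, length_bzip, bval_bzip_fst, bval_bzip_snd] at this
  exact this

theorem bsubAux_lt (x y : List Bool) :
    bval (bsubAux x y).2.reverse < 2 ^ (max x.length y.length) := by
  have := bval_lt (bsubAux x y).2.reverse
  rw [List.length_reverse, bsubAux, subStep_fold_length, length_bzip, List.length_nil,
    zero_add] at this
  exact this

theorem bsubAux_fst (x y : List Bool) : (bsubAux x y).1 = decide (bval x < bval y) := by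
  have h1 := bsubAux_spec x y
  have h2 := bsubAux_lt x y
  cases h : (bsubAux x y).1 with
  | false =>
    rw [h] at h1
    simp only [Bool.toNat_false, mul_zero, add_zero] at h1
    symm
    rw [decide_eq_false_iff_not]
    omega
  | true =>
    rw [h] at h1
    simp only [Bool.toNat_true, mul_one] at h1
    symm
    rw [decide_eq_true_iff]
    omega

/-- comparison of values -/
def ble (x y : List Bool) : Bool := !(bsubAux y x).1

@[simp] theorem ble_eq (x y : List Bool) : ble x y = decide (bval x ≤ bval y) := by
  rw [ble, bsubAux_fst, ← decide_not, decide_eq_decide]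
  omega

/-- truncated subtraction -/
def bsub (x y : List Bool) : List Bool :=
  bif (bsubAux x y).1 then [] else (bsubAux x y).2.reverse.take x.length

@[simp] theorem bval_bsub (x y : List Bool) : bval (bsub x y) = bval x - bval y := by
  have h1 := bsubAux_spec x y
  have h3 := bsubAux_fst x y
  rw [bsub]
  cases h : (bsubAux x y).1 with
  | false =>
    rw [h] at h1 h3
    simp only [Bool.toNat_false, mul_zero, add_zero] at h1
    rw [cond_false, bval_take_of_lt]
    · omega
    · have := bval_lt x
      omega
  | true =>
    rw [h] at h3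
    rw [cond_true, bval_nil]
    have := of_decide_eq_true h3.symm
    omega

theorem length_bsub (x y : List Bool) : (bsub x y).length ≤ x.length := by
  rw [bsub]
  cases (bsubAux x y).1
  · rw [cond_false, List.length_take]; exact min_le_left _ _
  · simp

/-- equality of values -/
def beqv (x y : List Bool) : Bool := ble x y && ble y x

@[simp] theorem beqv_eq (x y : List Bool) : beqv x y = decide (bval x = bval y) := by
  rw [beqv, ble_eq, ble_eq, ← Bool.decide_and, decide_eq_decide]
  omega

/-! ### Multiplication -/

/-- multiplication without truncation -/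
def bmulAux (x y : List Bool) : List Bool :=
  x.foldr (fun b acc => badd (bif b then y else []) (false :: acc)) []

theorem bmulAux_cons (b : Bool) (x y : List Bool) :
    bmulAux (b :: x) y = badd (bif b then y else []) (false :: bmulAux x y) := rfl

theorem bval_bmulAux (x y : List Bool) : bval (bmulAux x y) = bval x * bval y := by
  induction x with
  | nil => simp [bmulAux]
  | cons b x ih =>
    rw [bmulAux_cons, bval_badd, bval_cons, ih, bval_cons]
    cases b <;> simp <;> ring

/-- multiplication -/
def bmul (x y : List Bool) : List Bool := (bmulAux x y).take (x.length + y.length)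

@[simp] theorem bval_bmul (x y : List Bool) : bval (bmul x y) = bval x * bval y := by
  rw [bmul, bval_take_of_lt, bval_bmulAux]
  rw [bval_bmulAux, pow_add]
  exact Nat.mul_lt_mul'' (bval_lt x) (bval_lt y)

theorem length_bmul (x y : List Bool) : (bmul x y).length ≤ x.length + y.length := by
  rw [bmul, List.length_take]; exact min_le_left _ _

/-! ### Division -/

/-- one step of long division by `y`; the state is (quotient, remainder) -/
def divStep (y : List Bool) (b : Bool) (s : List Bool × List Bool) : List Bool × List Bool :=
  bif ble y (b :: s.2) then (true :: s.1, bsub (b :: s.2) y) else (false :: s.1, b :: s.2)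

/-- quotient and remainder, by long division -/
def bdivMod (x y : List Bool) : List Bool × List Bool := x.foldr (divStep y) ([], [])

theorem bdivMod_cons (b : Bool) (x y : List Bool) :
    bdivMod (b :: x) y = divStep y b (bdivMod x y) := rfl

theorem bdivMod_spec (x y : List Bool) (hy : bval y ≠ 0) :
    bval x = bval (bdivMod x y).1 * bval y + bval (bdivMod x y).2 ∧
      bval (bdivMod x y).2 < bval y := by
  induction x with
  | nil =>
    simp [bdivMod]
    omega
  | cons b x ih =>
    obtain ⟨h1, h2⟩ := ih
    have hb := Bool.toNat_lt b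
    rw [bdivMod_cons, divStep, ble_eq]
    by_cases h : bval y ≤ bval (b :: (bdivMod x y).2)
    · rw [decide_eq_true h, cond_true]
      simp only [bval_cons, bval_bsub, Bool.toNat_true] at h ⊢
      constructor
      · rw [h1]
        have : (1 + 2 * bval (bdivMod x y).1) * bval y =
          bval y + 2 * (bval (bdivMod x y).1 * bval y) := by ring
        rw [this]; omega
      · omega
    · rw [decide_eq_false h, cond_false]
      simp only [bval_cons, Bool.toNat_false] at h ⊢
      constructor
      · rw [h1]
        have : (0 + 2 * bval (bdivMod x y).1) * bval y =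
          2 * (bval (bdivMod x y).1 * bval y) := by ring
        rw [this]; omega
      · omega

theorem length_bdivMod (x y : List Bool) : (bdivMod x y).1.length = x.length ∧
    (bdivMod x y).2.length ≤ x.length := by
  induction x with
  | nil => simp [bdivMod]
  | cons b x ih =>
    rw [bdivMod_cons, divStep]
    cases ble y (b :: (bdivMod x y).2)
    · simp [ih.1, ih.2]
    · rw [cond_true]
      have := length_bsub (b :: (bdivMod x y).2) y
      rw [List.length_cons] at this
      refine ⟨by simp [ih.1], ?_⟩
      rw [List.length_cons]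
      exact this.trans (Nat.succ_le_succ ih.2)

/-- floor division, `x / 0 = 0` -/
def bdiv (x y : List Bool) : List Bool := bif ble y [] then [] else (bdivMod x y).1

@[simp] theorem bval_bdiv (x y : List Bool) : bval (bdiv x y) = bval x / bval y := by
  rw [bdiv, ble_eq]
  by_cases h : bval y = 0
  · rw [h]; simp
  · have h0 : ¬ bval y ≤ bval [] := by rw [bval_nil]; omega
    rw [decide_eq_false h0, cond_false]
    obtain ⟨h1, h2⟩ := bdivMod_spec x y h
    rw [h1, add_comm, Nat.add_mul_div_right _ _ (by omega), Nat.div_eq_of_lt h2, zero_add]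

theorem length_bdiv (x y : List Bool) : (bdiv x y).length ≤ x.length := by
  rw [bdiv]
  cases ble y []
  · exact (length_bdivMod x y).1.le
  · simp

/-- remainder, `x % 0 = x` -/
def bmod (x y : List Bool) : List Bool := bif ble y [] then x else (bdivMod x y).2

@[simp] theorem bval_bmod (x y : List Bool) : bval (bmod x y) = bval x % bval y := by
  rw [bmod, ble_eq]
  by_cases h : bval y = 0
  · rw [h]; simp
  · have h0 : ¬ bval y ≤ bval [] := by rw [bval_nil]; omega
    rw [decide_eq_false h0, cond_false]
    obtain ⟨h1, h2⟩ := bdivMod_spec x y h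
    rw [h1, add_comm, Nat.add_mul_mod_self_right, Nat.mod_eq_of_lt h2]

theorem length_bmod (x y : List Bool) : (bmod x y).length ≤ x.length := by
  rw [bmod]
  cases ble y []
  · exact (length_bdivMod x y).2
  · simp

/-! ### Unary to binary, powers, sums and products -/

/-- unary to binary -/
def ofUnary (n : ℕ) : List Bool := n.bits

@[simp] theorem bval_ofUnary (n : ℕ) : bval (ofUnary n) = n := bval_bits n

theorem length_ofUnary (n : ℕ) : (ofUnary n).length ≤ n := by
  rw [ofUnary, Nat.size_eq_bits_len, Nat.size_le]
  exact Nat.lt_two_pow_self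

theorem ofUnary_succ (n : ℕ) : ofUnary (n + 1) = bnorm (badd (ofUnary n) [true]) := by
  rw [bnorm_eq, bval_badd, bval_ofUnary]
  rfl

/-- power with unary exponent -/
def bpow (x : List Bool) (n : ℕ) : List Bool := (fun acc => bmul x acc)^[n] [true]

@[simp] theorem bval_bpow (x : List Bool) (n : ℕ) : bval (bpow x n) = bval x ^ n := by
  induction n with
  | zero => rfl
  | succ n ih =>
    rw [bpow, Function.iterate_succ_apply', bval_bmul, pow_succ, mul_comm]
    rw [bpow] at ih
    rw [ih]

theorem length_bpow (x : List Bool) (n : ℕ) : (bpow x n).length ≤ n * x.length + 1 := by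
  induction n with
  | zero => simp [bpow]
  | succ n ih =>
    rw [bpow, Function.iterate_succ_apply']
    rw [bpow] at ih
    refine (length_bmul _ _).trans ?_
    rw [Nat.succ_mul]
    omega

/-- sum of a list of binary numbers -/
def bsum (l : List (List Bool)) : List Bool := l.foldl badd []

theorem bval_foldl_badd (l : List (List Bool)) : ∀ x, bval (l.foldl badd x) =
    bval x + (l.map bval).sum := by
  induction l with
  | nil => simp
  | cons y l ih => intro x; rw [List.foldl_cons, ih]; simp [add_assoc]

@[simp] theorem bval_bsum (l : List (List Bool)) : bval (bsum l) = (l.map bval).sum := by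
  rw [bsum, bval_foldl_badd]; simp

/-- product of a list of binary numbers -/
def bprod (l : List (List Bool)) : List Bool := l.foldl bmul [true]

theorem bval_foldl_bmul (l : List (List Bool)) : ∀ x, bval (l.foldl bmul x) =
    bval x * (l.map bval).prod := by
  induction l with
  | nil => simp
  | cons y l ih => intro x; rw [List.foldl_cons, ih]; simp [mul_assoc]

@[simp] theorem bval_bprod (l : List (List Bool)) : bval (bprod l) = (l.map bval).prod := by
  rw [bprod, bval_foldl_bmul]; simp

/-! ### Closure lemmas -/

section closure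

variable {α β γ δ : Type*} [Enc α] [Enc β] [Enc γ] [Enc δ]

theorem length_le_sz (x : List β) : x.length ≤ sz x := (length_lt_sz x).le

/-- the size of a list of bits is bounded by its length -/
theorem sz_bools_poly : ∃ P : Polynomial ℕ, ∀ x : List Bool, sz x ≤ P.eval x.length :=
  ⟨4 * Polynomial.X + 1, fun x => by
    simpa using sz_bools x⟩

theorem PB.length {f : α → List β} (h : PolyTime f) : PB (fun a => (f a).length) :=
  h.size_bdd.mono fun _ => length_le_sz _

protected theorem PolyTime.bnorm {f : α → List Bool} (hf : PolyTime f) :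
    PolyTime (fun a => bnorm (f a)) := by
  refine PolyTime.foldr_add' (f := fun (_ : α) (b : Bool) (acc : List Bool) =>
    bif acc.isEmpty && !b then [] else b :: acc) hf (PolyTime.const ([] : List Bool)) ?_
    ⟨4, fun a x y => ?_⟩
  · exact ((PolyTime.id.snd.snd.isEmpty).and PolyTime.id.snd.fst.not).cond
      (PolyTime.const []) (PolyTime.id.snd.fst.cons PolyTime.id.snd.snd)
  · have h1 := sz_bool_le y
    have h2 := sz_pos x
    rw [Polynomial.eval_ofNat]
    cases x.isEmpty && !y
    · rw [cond_false, sz_list_cons]; omega
    · rw [cond_true, sz_list_nil]; omega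

protected theorem PolyTime.bpad {n : α → ℕ} {f : α → List Bool} (hn : PolyTime n)
    (hf : PolyTime f) : PolyTime (fun a => bpad (n a) (f a)) :=
  hf.append ((hn.sub hf.length).replicate (PolyTime.const false))

protected theorem PolyTime.bzip {f g : α → List Bool} (hf : PolyTime f) (hg : PolyTime g) :
    PolyTime (fun a => bzip (f a) (g a)) :=
  ((hf.length.max hg.length).bpad hf).zip ((hf.length.max hg.length).bpad hg)

theorem sz_step_le (s : Bool × List Bool) (b c : Bool) : sz (b, c :: s.2) ≤ sz s + 10 := by
  obtain ⟨s1, s2⟩ := s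
  have h1 := sz_bool_le b
  have h2 := sz_bool_le c
  rw [sz_pair, sz_pair, sz_list_cons]
  show _ ≤ sz s1 + sz s2 + 1 + 10
  have h3 : sz ((s1, s2) : Bool × List Bool).2 = sz s2 := rfl
  omega

theorem PolyTime.addFold {l : α → List (Bool × Bool)} (hl : PolyTime l) :
    PolyTime (fun a => (l a).foldl addStep (false, [])) := by
  have s1 : PolyTime (fun q : α × (Bool × List Bool) × (Bool × Bool) => q.2.1.1) :=
    PolyTime.id.snd.fst.fst
  have s2 : PolyTime (fun q : α × (Bool × List Bool) × (Bool × Bool) => q.2.1.2) :=
    PolyTime.id.snd.fst.snd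
  have p1 : PolyTime (fun q : α × (Bool × List Bool) × (Bool × Bool) => q.2.2.1) :=
    PolyTime.id.snd.snd.fst
  have p2 : PolyTime (fun q : α × (Bool × List Bool) × (Bool × Bool) => q.2.2.2) :=
    PolyTime.id.snd.snd.snd
  exact PolyTime.foldl_add' (f := fun (_ : α) s p => addStep s p) hl
    (PolyTime.const (false, ([] : List Bool)))
    ((((s1.and p1).or (s1.and p2)).or (p1.and p2)).pair (((s1.xor p1).xor p2).cons s2))
    ⟨10, fun a x y => by rw [Polynomial.eval_ofNat]; exact sz_step_le _ _ _⟩

theorem PolyTime.subFold {l : α → List (Bool × Bool)} (hl : PolyTime l) :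
    PolyTime (fun a => (l a).foldl subStep (false, [])) := by
  have s1 : PolyTime (fun q : α × (Bool × List Bool) × (Bool × Bool) => q.2.1.1) :=
    PolyTime.id.snd.fst.fst
  have s2 : PolyTime (fun q : α × (Bool × List Bool) × (Bool × Bool) => q.2.1.2) :=
    PolyTime.id.snd.fst.snd
  have p1 : PolyTime (fun q : α × (Bool × List Bool) × (Bool × Bool) => q.2.2.1) :=
    PolyTime.id.snd.snd.fst
  have p2 : PolyTime (fun q : α × (Bool × List Bool) × (Bool × Bool) => q.2.2.2) :=
    PolyTime.id.snd.snd.snd
  exact PolyTime.foldl_add' (f := fun (_ : α) s p => subStep s p) hl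
    (PolyTime.const (false, ([] : List Bool)))
    (((p1.not.and (s1.or p2)).or (s1.and p2)).pair (((s1.xor p1).xor p2).cons s2))
    ⟨10, fun a x y => by rw [Polynomial.eval_ofNat]; exact sz_step_le _ _ _⟩

protected theorem PolyTime.badd {f g : α → List Bool} (hf : PolyTime f) (hg : PolyTime g) :
    PolyTime (fun a => badd (f a) (g a)) :=
  ((hf.bzip hg).addFold.snd.reverse).append ((hf.bzip hg).addFold.fst.cons (PolyTime.const []))

protected theorem PolyTime.bsubAux {f g : α → List Bool} (hf : PolyTime f) (hg : PolyTime g) :
    PolyTime (fun a => bsubAux (f a) (g a)) :=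
  (hf.bzip hg).subFold

protected theorem PolyTime.ble {f g : α → List Bool} (hf : PolyTime f) (hg : PolyTime g) :
    PolyTime (fun a => ble (f a) (g a)) :=
  (hg.bsubAux hf).fst.not

protected theorem PolyTime.beqv {f g : α → List Bool} (hf : PolyTime f) (hg : PolyTime g) :
    PolyTime (fun a => beqv (f a) (g a)) :=
  (hf.ble hg).and (hg.ble hf)

protected theorem PolyTime.bsub {f g : α → List Bool} (hf : PolyTime f) (hg : PolyTime g) :
    PolyTime (fun a => bsub (f a) (g a)) :=
  (hf.bsubAux hg).fst.cond (PolyTime.const []) (PolyTime.take hf.length (hf.bsubAux hg).snd.reverse)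

protected theorem PolyTime.bmul {f g : α → List Bool} (hf : PolyTime f) (hg : PolyTime g) :
    PolyTime (fun a => bmul (f a) (g a)) := by
  have h : PolyTime (fun a => bmulAux (f a) (g a)) := by
    refine PolyTime.foldr_meas (f := fun (a : α) (b : Bool) (acc : List Bool) =>
      badd (bif b then g a else []) (false :: acc)) (b := fun _ => ([] : List Bool))
      List.length hf (PolyTime.const []) ?_ sz_bools_poly (PB.const 0) ?_
    · exact ((PolyTime.id.snd.fst.cond (hg.comp PolyTime.id.fst) (PolyTime.const []))).badd
        ((PolyTime.const false).cons PolyTime.id.snd.snd)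
    · obtain ⟨p, hp⟩ := hg.sz_le
      refine ⟨p + 2, fun a x y _ => ?_⟩
      rw [length_badd, List.length_cons]
      have h1 := hp a
      have h2 := length_le_sz (g a)
      rw [Polynomial.eval_add, Polynomial.eval_ofNat]
      have h3 : (bif y then g a else []).length ≤ (g a).length := by cases y <;> simp
      omega
  exact PolyTime.take (hf.length.add hg.length) h

protected theorem PolyTime.bdivMod {f g : α → List Bool} (hf : PolyTime f) (hg : PolyTime g) :
    PolyTime (fun a => bdivMod (f a) (g a)) := by
  refine PolyTime.foldr_meas (f := fun (a : α) (b : Bool) (s : List Bool × List Bool) =>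
    divStep (g a) b s) (b := fun _ => (([], []) : List Bool × List Bool))
    (fun s => s.1.length + s.2.length) hf (PolyTime.const ([], [])) ?_
    ⟨4 * Polynomial.X + 3, fun x => ?_⟩ (PB.const 0) ⟨2, fun a x y _ => ?_⟩
  · have hy : PolyTime (fun q : α × Bool × (List Bool × List Bool) => g q.1) :=
      hg.comp PolyTime.id.fst
    have hr : PolyTime (fun q : α × Bool × (List Bool × List Bool) => q.2.1 :: q.2.2.2) :=
      PolyTime.id.snd.fst.cons PolyTime.id.snd.snd.snd
    have hq : PolyTime (fun q : α × Bool × (List Bool × List Bool) => q.2.2.1) :=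
      PolyTime.id.snd.snd.fst
    exact (hy.ble hr).cond (((PolyTime.const true).cons hq).pair (hr.bsub hy))
      (((PolyTime.const false).cons hq).pair hr)
  · obtain ⟨x1, x2⟩ := x
    have h1 := sz_bools x1
    have h2 := sz_bools x2
    rw [sz_pair]
    simp only [Polynomial.eval_add, Polynomial.eval_mul, Polynomial.eval_ofNat, Polynomial.eval_X]
    omega
  · rw [divStep, Polynomial.eval_ofNat]
    have := length_bsub (y :: x.2) (g a)
    rw [List.length_cons] at this
    cases ble (g a) (y :: x.2)
    · rw [cond_false]; simp only [List.length_cons]; omega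
    · rw [cond_true]; simp only [List.length_cons]; omega

protected theorem PolyTime.bdiv {f g : α → List Bool} (hf : PolyTime f) (hg : PolyTime g) :
    PolyTime (fun a => bdiv (f a) (g a)) :=
  (hg.ble (PolyTime.const [])).cond (PolyTime.const []) (hf.bdivMod hg).fst

protected theorem PolyTime.bmod {f g : α → List Bool} (hf : PolyTime f) (hg : PolyTime g) :
    PolyTime (fun a => bmod (f a) (g a)) :=
  (hg.ble (PolyTime.const [])).cond hf (hf.bdivMod hg).snd

protected theorem PolyTime.ofUnary {f : α → ℕ} (hf : PolyTime f) :
    PolyTime (fun a => ofUnary (f a)) := by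
  have h := PolyTime.iterate (f := fun (_ : α) (x : List Bool) => bnorm (badd x [true])) hf
    (PolyTime.const ([] : List Bool)) (PolyTime.id.snd.badd (PolyTime.const [true])).bnorm (by
      obtain ⟨p, hp⟩ := hf.sz_le
      refine ⟨4 * p + 1, fun a i hi => ?_⟩
      have key : ∀ i, ((fun x : List Bool => bnorm (badd x [true]))^[i] []) = ofUnary i := by
        intro i
        induction i with
        | zero => simp [ofUnary]
        | succ i ih => rw [Function.iterate_succ_apply', ih, ofUnary_succ]
      rw [key]
      have h1 := sz_bools (ofUnary i)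
      have h2 := length_ofUnary i
      have h3 := hp a
      rw [sz_nat] at h3
      simp only [Polynomial.eval_add, Polynomial.eval_mul, Polynomial.eval_ofNat,
        Polynomial.eval_one]
      omega)
  refine h.congr fun a => ?_
  generalize f a = n
  induction n with
  | zero => simp [ofUnary]
  | succ i ih => rw [Function.iterate_succ_apply', ih, ofUnary_succ]

protected theorem PolyTime.bpow {f : α → List Bool} {n : α → ℕ} (hf : PolyTime f)
    (hn : PolyTime n) : PolyTime (fun a => bpow (f a) (n a)) := by
  refine PolyTime.iterate_meas (f := fun (a : α) (acc : List Bool) => bmul (f a) acc)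
    List.length hn (PolyTime.const [true]) ((hf.comp PolyTime.id.fst).bmul PolyTime.id.snd)
    sz_bools_poly (PB.const 1) ?_
  obtain ⟨p, hp⟩ := hf.sz_le
  refine ⟨p, fun a x => ?_⟩
  have h1 := length_bmul (f a) x
  have h2 := length_le_sz (f a)
  have h3 := hp a
  omega

protected theorem PolyTime.bsum {l : α → List (List Bool)} (hl : PolyTime l) :
    PolyTime (fun a => bsum (l a)) := by
  refine PolyTime.foldl_meas (f := fun (_ : α) => badd) (b := fun _ => ([] : List Bool))
    List.length hl (PolyTime.const []) (PolyTime.id.snd.fst.badd PolyTime.id.snd.snd)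
    sz_bools_poly (PB.const 0) ?_
  obtain ⟨p, hp⟩ := hl.sz_le
  refine ⟨p, fun a x y hy => ?_⟩
  rw [length_badd]
  have h1 := sz_mem_lt hy
  have h2 := length_lt_sz y
  have h3 := hp a
  omega

protected theorem PolyTime.bprod {l : α → List (List Bool)} (hl : PolyTime l) :
    PolyTime (fun a => bprod (l a)) := by
  refine PolyTime.foldl_meas (f := fun (_ : α) => bmul) (b := fun _ => ([true] : List Bool))
    List.length hl (PolyTime.const [true]) (PolyTime.id.snd.fst.bmul PolyTime.id.snd.snd)
    sz_bools_poly (PB.const 1) ?_
  obtain ⟨p, hp⟩ := hl.sz_le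
  refine ⟨p, fun a x y hy => ?_⟩
  have h0 := length_bmul x y
  have h1 := sz_mem_lt hy
  have h2 := length_lt_sz y
  have h3 := hp a
  omega

end closure

/-! ### Fractions -/

/-- fractions `(p, q, d)`, meaning `(p - q) / d` -/
abbrev BQ : Type := List Bool × List Bool × List Bool

/-- value of a fraction -/
def qval (x : BQ) : ℚ := ((bval x.1 : ℚ) - bval x.2.1) / bval x.2.2

/-- the maximal length of the three parts -/
def qlen (x : BQ) : ℕ := max (max x.1.length x.2.1.length) x.2.2.length

theorem qlen_le_sz (x : BQ) : qlen x ≤ sz x := by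
  obtain ⟨p, q, d⟩ := x
  have h1 := length_le_sz p
  have h2 := length_le_sz q
  have h3 := length_le_sz d
  simp only [qlen, sz_pair]
  omega

theorem sz_le_qlen : ∃ P : Polynomial ℕ, ∀ x : BQ, sz x ≤ P.eval (qlen x) := by
  refine ⟨12 * Polynomial.X + 5, fun x => ?_⟩
  obtain ⟨p, q, d⟩ := x
  have h1 := sz_bools p
  have h2 := sz_bools q
  have h3 := sz_bools d
  simp only [qlen, sz_pair, Polynomial.eval_add, Polynomial.eval_mul, Polynomial.eval_ofNat,
    Polynomial.eval_X]
  omega

/-- addition of fractions -/
def qadd (x y : BQ) : BQ :=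
  bif beqv x.2.2 [] then y else bif beqv y.2.2 [] then x else
    (badd (bmul x.1 y.2.2) (bmul y.1 x.2.2), badd (bmul x.2.1 y.2.2) (bmul y.2.1 x.2.2),
      bmul x.2.2 y.2.2)

@[simp] theorem qval_qadd (x y : BQ) : qval (qadd x y) = qval x + qval y := by
  rw [qadd, beqv_eq, beqv_eq, bval_nil]
  by_cases h1 : bval x.2.2 = 0
  · rw [decide_eq_true h1, cond_true]
    simp [qval, h1]
  · rw [decide_eq_false h1, cond_false]
    by_cases h2 : bval y.2.2 = 0
    · rw [decide_eq_true h2, cond_true]
      simp [qval, h2]
    · rw [decide_eq_false h2, cond_false]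
      have h1' : (bval x.2.2 : ℚ) ≠ 0 := by exact_mod_cast h1
      have h2' : (bval y.2.2 : ℚ) ≠ 0 := by exact_mod_cast h2
      simp only [qval, bval_badd, bval_bmul, Nat.cast_add, Nat.cast_mul]
      field_simp
      ring

theorem qlen_qadd (x y : BQ) : qlen (qadd x y) ≤ qlen x + qlen y + 1 := by
  rw [qadd]
  cases beqv x.2.2 []
  · rw [cond_false]
    cases beqv y.2.2 []
    · rw [cond_false]
      have h1 := length_bmul x.1 y.2.2
      have h2 := length_bmul y.1 x.2.2
      have h3 := length_bmul x.2.1 y.2.2
      have h4 := length_bmul y.2.1 x.2.2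
      have h5 := length_bmul x.2.2 y.2.2
      simp only [qlen, length_badd]
      omega
    · rw [cond_true]; omega
  · rw [cond_true]; omega

/-- multiplication of fractions -/
def qmul (x y : BQ) : BQ :=
  (badd (bmul x.1 y.1) (bmul x.2.1 y.2.1), badd (bmul x.1 y.2.1) (bmul x.2.1 y.1),
    bmul x.2.2 y.2.2)

@[simp] theorem qval_qmul (x y : BQ) : qval (qmul x y) = qval x * qval y := by
  simp only [qmul, qval, bval_badd, bval_bmul, Nat.cast_add, Nat.cast_mul]
  rw [div_mul_div_comm]
  congr 1
  ring

theorem qlen_qmul (x y : BQ) : qlen (qmul x y) ≤ qlen x + qlen y + 1 := by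
  have h1 := length_bmul x.1 y.1
  have h2 := length_bmul x.2.1 y.2.1
  have h3 := length_bmul x.1 y.2.1
  have h4 := length_bmul x.2.1 y.1
  have h5 := length_bmul x.2.2 y.2.2
  simp only [qmul, qlen, length_badd]
  omega

/-- negation -/
def qneg (x : BQ) : BQ := (x.2.1, x.1, x.2.2)

@[simp] theorem qval_qneg (x : BQ) : qval (qneg x) = -qval x := by
  simp only [qneg, qval]
  rw [← neg_div, neg_sub]

theorem qlen_qneg (x : BQ) : qlen (qneg x) = qlen x := by
  simp only [qneg, qlen]
  omega

/-- inverse -/
def qinv (x : BQ) : BQ :=
  bif ble x.2.1 x.1 then (x.2.2, [], bsub x.1 x.2.1) else ([], x.2.2, bsub x.2.1 x.1)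

@[simp] theorem qval_qinv (x : BQ) : qval (qinv x) = (qval x)⁻¹ := by
  rw [qinv, ble_eq]
  by_cases h : bval x.2.1 ≤ bval x.1
  · rw [decide_eq_true h, cond_true]
    simp only [qval, bval_nil, bval_bsub, Nat.cast_zero, sub_zero, inv_div]
    rw [Nat.cast_sub h]
  · rw [decide_eq_false h, cond_false]
    simp only [qval, bval_nil, bval_bsub, Nat.cast_zero, zero_sub, inv_div]
    rw [Nat.cast_sub (by omega), neg_div, ← div_neg, neg_sub]

theorem qlen_qinv (x : BQ) : qlen (qinv x) ≤ qlen x := by
  have h1 := length_bsub x.1 x.2.1
  have h2 := length_bsub x.2.1 x.1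
  rw [qinv]
  cases ble x.2.1 x.1
  · rw [cond_false]
    simp only [qlen, List.length_nil]
    omega
  · rw [cond_true]
    simp only [qlen, List.length_nil]
    omega

/-- a natural number as a fraction -/
def qofNat (x : List Bool) : BQ := (x, [], [true])

@[simp] theorem qval_qofNat (x : List Bool) : qval (qofNat x) = bval x := by
  simp [qofNat, qval]

theorem qlen_qofNat (x : List Bool) : qlen (qofNat x) ≤ x.length + 1 := by
  simp only [qofNat, qlen, List.length_nil, List.length_cons]
  omega

/-- the difference of two unary numbers as a fraction -/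
def qofInt (m n : ℕ) : BQ := (ofUnary m, ofUnary n, [true])

@[simp] theorem qval_qofInt (m n : ℕ) : qval (qofInt m n) = (m : ℚ) - n := by
  simp [qofInt, qval]

/-- subtraction -/
def qsub (x y : BQ) : BQ := qadd x (qneg y)

@[simp] theorem qval_qsub (x y : BQ) : qval (qsub x y) = qval x - qval y := by
  rw [qsub, qval_qadd, qval_qneg, sub_eq_add_neg]

theorem qlen_qsub (x y : BQ) : qlen (qsub x y) ≤ qlen x + qlen y + 1 := by
  have := qlen_qadd x (qneg y)
  rwa [qlen_qneg] at this

/-- division -/
def qdiv (x y : BQ) : BQ := qmul x (qinv y)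

@[simp] theorem qval_qdiv (x y : BQ) : qval (qdiv x y) = qval x / qval y := by
  rw [qdiv, qval_qmul, qval_qinv, div_eq_mul_inv]

/-- sum of a list of fractions -/
def qsum (l : List BQ) : BQ := l.foldl qadd ([], [], [true])

theorem qval_foldl_qadd (l : List BQ) : ∀ x, qval (l.foldl qadd x) =
    qval x + (l.map qval).sum := by
  induction l with
  | nil => simp
  | cons y l ih => intro x; rw [List.foldl_cons, ih]; simp [add_assoc]

@[simp] theorem qval_qsum (l : List BQ) : qval (qsum l) = (l.map qval).sum := by
  rw [qsum, qval_foldl_qadd]; simp [qval]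

/-- product of a list of fractions -/
def qprod (l : List BQ) : BQ := l.foldl qmul ([true], [], [true])

theorem qval_foldl_qmul (l : List BQ) : ∀ x, qval (l.foldl qmul x) =
    qval x * (l.map qval).prod := by
  induction l with
  | nil => simp
  | cons y l ih => intro x; rw [List.foldl_cons, ih]; simp [mul_assoc]

@[simp] theorem qval_qprod (l : List BQ) : qval (qprod l) = (l.map qval).prod := by
  rw [qprod, qval_foldl_qmul]; simp [qval]

/-- the natural number represented by a fraction (floor of it in general) -/
def qtoNat (x : BQ) : List Bool := bdiv (bsub x.1 x.2.1) x.2.2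

theorem bval_qtoNat {x : BQ} {n : ℕ} (h : qval x = n) : bval (qtoNat x) = n := by
  rw [qtoNat, bval_bdiv, bval_bsub]
  by_cases hd : bval x.2.2 = 0
  · rw [hd, Nat.div_zero]
    simp only [qval, hd, Nat.cast_zero, div_zero] at h
    exact_mod_cast h
  · have hd' : (bval x.2.2 : ℚ) ≠ 0 := by exact_mod_cast hd
    rw [qval, div_eq_iff hd'] at h
    have h2 : (bval x.1 : ℚ) = ((n * bval x.2.2 + bval x.2.1 : ℕ) : ℚ) := by
      push_cast
      linarith
    have h3 : bval x.1 = n * bval x.2.2 + bval x.2.1 := by exact_mod_cast h2
    rw [h3, Nat.add_sub_cancel, Nat.mul_div_cancel _ (Nat.pos_of_ne_zero hd)]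

theorem bnorm_qtoNat {x : BQ} {n : ℕ} (h : qval x = n) : bnorm (qtoNat x) = n.bits := by
  rw [bnorm_eq, bval_qtoNat h]

section closure

variable {α β γ δ : Type*} [Enc α] [Enc β] [Enc γ] [Enc δ]

protected theorem PolyTime.qadd {f g : α → BQ} (hf : PolyTime f) (hg : PolyTime g) :
    PolyTime (fun a => qadd (f a) (g a)) :=
  (hf.snd.snd.beqv (PolyTime.const [])).cond hg ((hg.snd.snd.beqv (PolyTime.const [])).cond hf
    (((hf.fst.bmul hg.snd.snd).badd (hg.fst.bmul hf.snd.snd)).pair
      (((hf.snd.fst.bmul hg.snd.snd).badd (hg.snd.fst.bmul hf.snd.snd)).pair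
        (hf.snd.snd.bmul hg.snd.snd))))

protected theorem PolyTime.qmul {f g : α → BQ} (hf : PolyTime f) (hg : PolyTime g) :
    PolyTime (fun a => qmul (f a) (g a)) :=
  (((hf.fst.bmul hg.fst).badd (hf.snd.fst.bmul hg.snd.fst)).pair
      (((hf.fst.bmul hg.snd.fst).badd (hf.snd.fst.bmul hg.fst)).pair
        (hf.snd.snd.bmul hg.snd.snd)))

protected theorem PolyTime.qneg {f : α → BQ} (hf : PolyTime f) :
    PolyTime (fun a => qneg (f a)) :=
  hf.snd.fst.pair (hf.fst.pair hf.snd.snd)

protected theorem PolyTime.qinv {f : α → BQ} (hf : PolyTime f) :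
    PolyTime (fun a => qinv (f a)) :=
  (hf.snd.fst.ble hf.fst).cond
    (hf.snd.snd.pair ((PolyTime.const []).pair (hf.fst.bsub hf.snd.fst)))
    ((PolyTime.const []).pair (hf.snd.snd.pair (hf.snd.fst.bsub hf.fst)))

protected theorem PolyTime.qsub {f g : α → BQ} (hf : PolyTime f) (hg : PolyTime g) :
    PolyTime (fun a => qsub (f a) (g a)) := hf.qadd hg.qneg

protected theorem PolyTime.qdiv {f g : α → BQ} (hf : PolyTime f) (hg : PolyTime g) :
    PolyTime (fun a => qdiv (f a) (g a)) := hf.qmul hg.qinv

protected theorem PolyTime.qofNat {f : α → List Bool} (hf : PolyTime f) :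
    PolyTime (fun a => qofNat (f a)) :=
  hf.pair ((PolyTime.const []).pair (PolyTime.const [true]))

protected theorem PolyTime.qofInt {f g : α → ℕ} (hf : PolyTime f) (hg : PolyTime g) :
    PolyTime (fun a => qofInt (f a) (g a)) :=
  hf.ofUnary.pair (hg.ofUnary.pair (PolyTime.const [true]))

protected theorem PolyTime.qsum {l : α → List BQ} (hl : PolyTime l) :
    PolyTime (fun a => qsum (l a)) := by
  refine PolyTime.foldl_meas (f := fun (_ : α) => qadd) (b := fun _ => (([], [], [true]) : BQ))
    qlen hl (PolyTime.const _) (PolyTime.id.snd.fst.qadd PolyTime.id.snd.snd)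
    sz_le_qlen (PB.const 1) ?_
  obtain ⟨p, hp⟩ := hl.sz_le
  refine ⟨p, fun a x y hy => ?_⟩
  have h0 := qlen_qadd x y
  have h1 := sz_mem_lt hy
  have h2 := qlen_le_sz y
  have h3 := hp a
  omega

protected theorem PolyTime.qprod {l : α → List BQ} (hl : PolyTime l) :
    PolyTime (fun a => qprod (l a)) := by
  refine PolyTime.foldl_meas (f := fun (_ : α) => qmul) (b := fun _ => (([true], [], [true]) : BQ))
    qlen hl (PolyTime.const _) (PolyTime.id.snd.fst.qmul PolyTime.id.snd.snd)
    sz_le_qlen (PB.const 1) ?_
  obtain ⟨p, hp⟩ := hl.sz_le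
  refine ⟨p, fun a x y hy => ?_⟩
  have h0 := qlen_qmul x y
  have h1 := sz_mem_lt hy
  have h2 := qlen_le_sz y
  have h3 := hp a
  omega

protected theorem PolyTime.qtoNat {f : α → BQ} (hf : PolyTime f) :
    PolyTime (fun a => qtoNat (f a)) :=
  (hf.fst.bsub hf.snd.fst).bdiv hf.snd.snd

end closure

end Pool.Agent.Lib.PT
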