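import Pool.Agent.Lib.PolyTime.Basic

/-!
# Compiling `Code` to Mathlib's multi-stack Turing machines

Main result: `polyTime_toTM2`.
-/

namespace Pool.Agent.Lib.PT.ToTM2

open Pool.Agent.Lib.PT Turing Function

/-- the stacks: input, output, main, three auxiliary ones -/
inductive K : Type
  | I | O | M | A | B | C
  deriving DecidableEq

instance : Fintype K where
  elems := {K.I, K.O, K.M, K.A, K.B, K.C}
  complete x := by cases x <;> simp

/-- structured programs over stacks of bits -/
inductive P : Type
  | skip : P
  | push : K → Bool → P
  | seq : P → P → P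
  /-- pop a stack and branch on the result (empty, `false`, `true`) -/
  | pop : K → P → P → P → P
  /-- while the stack is nonempty: pop it and run the program of the popped bit -/
  | loop : K → P → P → P

/-- labels of a program -/
def Lab : P → Type
  | .skip => Unit
  | .push _ _ => Unit
  | .seq p q => Lab p ⊕ Lab q
  | .pop _ p q r => Option (Lab p ⊕ (Lab q ⊕ Lab r))
  | .loop _ p q => Option (Lab p ⊕ Lab q)

/-- the label sets are finite -/
@[instance_reducible] def labFin : (p : P) → Fintype (Lab p)
  | .skip => inferInstanceAs (Fintype Unit)
  | .push _ _ => inferInstanceAs (Fintype Unit)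
  | .seq p q => by
      have := labFin p; have := labFin q
      exact inferInstanceAs (Fintype (Lab p ⊕ Lab q))
  | .pop _ p q r => by
      have := labFin p; have := labFin q; have := labFin r
      exact inferInstanceAs (Fintype (Option (Lab p ⊕ (Lab q ⊕ Lab r))))
  | .loop _ p q => by
      have := labFin p; have := labFin q
      exact inferInstanceAs (Fintype (Option (Lab p ⊕ Lab q)))

/-- the first label -/
def entry : (p : P) → Lab p
  | .skip => ()
  | .push _ _ => ()
  | .seq p _ => Sum.inl (entry p)
  | .pop _ _ _ _ => none
  | .loop _ _ _ => none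

/-- all stacks are stacks of bits -/
abbrev Γ : K → Type := fun _ => Bool

/-- The statements of a program whose labels are embedded in `Λ` by `em`, with exit label `ex`. -/
def code {Λ : Type} : (p : P) → (Lab p → Λ) → Λ → Lab p → TM2.Stmt Γ Λ (Option Bool)
  | .skip, _, ex, _ => .goto fun _ => ex
  | .push k b, _, ex, _ => .push k (fun _ => b) (.goto fun _ => ex)
  | .seq p q, em, _, Sum.inl l => code p (fun l => em (Sum.inl l)) (em (Sum.inr (entry q))) l
  | .seq _ q, em, ex, Sum.inr l => code q (fun l => em (Sum.inr l)) ex l
  | .pop k p q r, em, _, none => .pop k (fun _ o => o) (.goto fun v => match v with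
      | none => em (some (Sum.inl (entry p)))
      | some false => em (some (Sum.inr (Sum.inl (entry q))))
      | some true => em (some (Sum.inr (Sum.inr (entry r)))))
  | .pop _ p _ _, em, ex, some (Sum.inl l) => code p (fun l => em (some (Sum.inl l))) ex l
  | .pop _ _ q _, em, ex, some (Sum.inr (Sum.inl l)) =>
      code q (fun l => em (some (Sum.inr (Sum.inl l)))) ex l
  | .pop _ _ _ r, em, ex, some (Sum.inr (Sum.inr l)) =>
      code r (fun l => em (some (Sum.inr (Sum.inr l)))) ex l
  | .loop k p q, em, ex, none => .pop k (fun _ o => o) (.goto fun v => match v with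
      | none => ex
      | some false => em (some (Sum.inl (entry p)))
      | some true => em (some (Sum.inr (entry q))))
  | .loop _ p _, em, _, some (Sum.inl l) => code p (fun l => em (some (Sum.inl l))) (em none) l
  | .loop _ _ q, em, _, some (Sum.inr l) => code q (fun l => em (some (Sum.inr l))) (em none) l

/-- big-step semantics with exact running time -/
inductive Run : P → (K → List Bool) → (K → List Bool) → ℕ → Prop
  | skip (S) : Run .skip S S 1
  | push (k b S) : Run (.push k b) S (update S k (b :: S k)) 1
  | seq {p q S S' S'' t t'} : Run p S S' t → Run q S' S'' t' → Run (.seq p q) S S'' (t' + t)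
  | pop_none {k p q r S S' t} : S k = [] → Run p S S' t → Run (.pop k p q r) S S' (t + 1)
  | pop_false {k p q r S S' t l} : S k = false :: l → Run q (update S k l) S' t →
      Run (.pop k p q r) S S' (t + 1)
  | pop_true {k p q r S S' t l} : S k = true :: l → Run r (update S k l) S' t →
      Run (.pop k p q r) S S' (t + 1)
  | loop_nil {k p q S} : S k = [] → Run (.loop k p q) S S 1
  | loop_false {k p q S S' S'' t t' l} : S k = false :: l → Run p (update S k l) S' t →
      Run (.loop k p q) S' S'' t' → Run (.loop k p q) S S'' (t' + (t + 1))
  | loop_true {k p q S S' S'' t t' l} : S k = true :: l → Run q (update S k l) S' t →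
      Run (.loop k p q) S' S'' t' → Run (.loop k p q) S S'' (t' + (t + 1))

theorem step_of {Λ : Type} {m : Λ → TM2.Stmt Γ Λ (Option Bool)} {l : Λ} {v : Option Bool}
    {S : K → List Bool} {st : TM2.Stmt Γ Λ (Option Bool)} (h : m l = st) :
    (flip bind (TM2.step m)) (some ⟨some l, v, S⟩) = some (TM2.stepAux st v S) := by
  subst h; rfl

theorem stepAux_pop {Λ : Type} (k : K) (g : Option Bool → Λ) (v : Option Bool)
    (S : K → List Bool) :
    TM2.stepAux (.pop k (fun _ o => o) (.goto g) : TM2.Stmt Γ Λ (Option Bool)) v S =
      ⟨some (g (S k).head?), (S k).head?, update S k (S k).tail⟩ := rfl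

theorem run_tm {p : P} {S S' : K → List Bool} {t : ℕ} (h : Run p S S' t) :
    ∀ {Λ : Type} (em : Lab p → Λ) (ex : Λ) (m : Λ → TM2.Stmt Γ Λ (Option Bool))
      (_ : ∀ l, m (em l) = code p em ex l) (v : Option Bool),
      ∃ v', (flip bind (TM2.step m))^[t] (some ⟨some (em (entry p)), v, S⟩) =
        some ⟨some ex, v', S'⟩ := by
  induction h with
  | skip S =>
    intro Λ em ex m hm v
    exact ⟨v, step_of (hm ())⟩
  | push k b S =>
    intro Λ em ex m hm v
    exact ⟨v, step_of (hm ())⟩
  | @seq p q S S' S'' t t' _ _ ih1 ih2 =>
    intro Λ em ex m hm v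
    obtain ⟨v1, h1⟩ := ih1 (fun l => em (Sum.inl l)) (em (Sum.inr (entry q))) m
      (fun l => hm (Sum.inl l)) v
    obtain ⟨v2, h2⟩ := ih2 (fun l => em (Sum.inr l)) ex m (fun l => hm (Sum.inr l)) v1
    exact ⟨v2, by rw [iterate_add_apply]; exact (congrArg _ h1).trans h2⟩
  | @pop_none k p q r S S' t hS _ ih =>
    intro Λ em ex m hm v
    obtain ⟨v1, h1⟩ := ih (fun l => em (some (Sum.inl l))) ex m
      (fun l => hm (some (Sum.inl l))) none
    refine ⟨v1, ?_⟩
    rw [iterate_succ_apply, ← h1]
    congr 1
    refine (step_of (hm none)).trans ((congrArg some (stepAux_pop k _ v S)).trans ?_)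
    have : update S k [] = S := by rw [← hS, update_eq_self]
    simp only [hS, List.head?_nil, List.tail_nil, this]
  | @pop_false k p q r S S' t l hS _ ih =>
    intro Λ em ex m hm v
    obtain ⟨v1, h1⟩ := ih (fun l => em (some (Sum.inr (Sum.inl l)))) ex m
      (fun l => hm (some (Sum.inr (Sum.inl l)))) (some false)
    refine ⟨v1, ?_⟩
    rw [iterate_succ_apply, ← h1]
    congr 1
    refine (step_of (hm none)).trans ((congrArg some (stepAux_pop k _ v S)).trans ?_)
    simp only [hS, List.head?_cons, List.tail_cons]
  | @pop_true k p q r S S' t l hS _ ih =>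
    intro Λ em ex m hm v
    obtain ⟨v1, h1⟩ := ih (fun l => em (some (Sum.inr (Sum.inr l)))) ex m
      (fun l => hm (some (Sum.inr (Sum.inr l)))) (some true)
    refine ⟨v1, ?_⟩
    rw [iterate_succ_apply, ← h1]
    congr 1
    refine (step_of (hm none)).trans ((congrArg some (stepAux_pop k _ v S)).trans ?_)
    simp only [hS, List.head?_cons, List.tail_cons]
  | @loop_nil k p q S hS =>
    intro Λ em ex m hm v
    refine ⟨none, ?_⟩
    refine (step_of (hm none)).trans ((congrArg some (stepAux_pop k _ v S)).trans ?_)
    have : update S k [] = S := by rw [← hS, update_eq_self]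
    simp only [hS, List.head?_nil, List.tail_nil, this]
  | @loop_false k p q S S' S'' t t' l hS _ _ ih1 ih2 =>
    intro Λ em ex m hm v
    obtain ⟨v1, h1⟩ := ih1 (fun l => em (some (Sum.inl l))) (em none) m
      (fun l => hm (some (Sum.inl l))) (some false)
    obtain ⟨v2, h2⟩ := ih2 em ex m hm v1
    refine ⟨v2, ?_⟩
    rw [iterate_add_apply, iterate_succ_apply, ← h2]
    congr 1
    refine Eq.trans ?_ h1
    congr 1
    refine (step_of (hm none)).trans ((congrArg some (stepAux_pop k _ v S)).trans ?_)
    simp only [hS, List.head?_cons, List.tail_cons]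
  | @loop_true k p q S S' S'' t t' l hS _ _ ih1 ih2 =>
    intro Λ em ex m hm v
    obtain ⟨v1, h1⟩ := ih1 (fun l => em (some (Sum.inr l))) (em none) m
      (fun l => hm (some (Sum.inr l))) (some true)
    obtain ⟨v2, h2⟩ := ih2 em ex m hm v1
    refine ⟨v2, ?_⟩
    rw [iterate_add_apply, iterate_succ_apply, ← h2]
    congr 1
    refine Eq.trans ?_ h1
    congr 1
    refine (step_of (hm none)).trans ((congrArg some (stepAux_pop k _ v S)).trans ?_)
    simp only [hS, List.head?_cons, List.tail_cons]

/-! ### The machine of a program -/

/-- the machine of a program: run it, then reset the variable and halt -/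
def tm (p : P) : FinTM2 where
  K := K
  kDecidableEq := inferInstance
  kFin := inferInstance
  k₀ := K.I
  k₁ := K.O
  Γ := Γ
  Λ := Option (Lab p)
  main := some (entry p)
  ΛFin := by
    have := labFin p
    exact inferInstanceAs (Fintype (Option (Lab p)))
  σ := Option Bool
  initialState := none
  σFin := inferInstanceAs (Fintype (Option Bool))
  Γk₀Fin := inferInstanceAs (Fintype Bool)
  m := fun l => match l with
    | none => .load (fun _ => none) .halt
    | some l => code p some none l

/-- explicit stack contents -/
def st (i o m a b c : List Bool) : K → List Bool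
  | .I => i
  | .O => o
  | .M => m
  | .A => a
  | .B => b
  | .C => c

@[simp] theorem st_I (i o m a b c : List Bool) : st i o m a b c .I = i := rfl
@[simp] theorem st_O (i o m a b c : List Bool) : st i o m a b c .O = o := rfl
@[simp] theorem st_M (i o m a b c : List Bool) : st i o m a b c .M = m := rfl
@[simp] theorem st_A (i o m a b c : List Bool) : st i o m a b c .A = a := rfl
@[simp] theorem st_B (i o m a b c : List Bool) : st i o m a b c .B = b := rfl
@[simp] theorem st_C (i o m a b c : List Bool) : st i o m a b c .C = c := rfl

@[simp] theorem up_I (i o m a b c x : List Bool) :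
    update (st i o m a b c) K.I x = st x o m a b c := by funext k; cases k <;> rfl
@[simp] theorem up_O (i o m a b c x : List Bool) :
    update (st i o m a b c) K.O x = st i x m a b c := by funext k; cases k <;> rfl
@[simp] theorem up_M (i o m a b c x : List Bool) :
    update (st i o m a b c) K.M x = st i o x a b c := by funext k; cases k <;> rfl
@[simp] theorem up_A (i o m a b c x : List Bool) :
    update (st i o m a b c) K.A x = st i o m x b c := by funext k; cases k <;> rfl
@[simp] theorem up_B (i o m a b c x : List Bool) :
    update (st i o m a b c) K.B x = st i o m a x c := by funext k; cases k <;> rfl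
@[simp] theorem up_C (i o m a b c x : List Bool) :
    update (st i o m a b c) K.C x = st i o m a b x := by funext k; cases k <;> rfl

theorem init_eq (p : P) (w : List Bool) :
    initList (tm p) w = ⟨some (some (entry p)), none, st w [] [] [] [] []⟩ := by
  unfold initList
  congr 1
  funext k
  cases k <;> rfl

theorem halt_eq (p : P) (w : List Bool) :
    haltList (tm p) w = ⟨none, none, st [] w [] [] [] []⟩ := by
  unfold haltList
  congr 1
  funext k
  cases k <;> rfl

/-- A run of the program gives a run of the machine. -/
def outputs_of_run (p : P) (w w' : List Bool) (t : ℕ)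
    (h : Run p (st w [] [] [] [] []) (st [] w' [] [] [] []) t) :
    TM2OutputsInTime (tm p) w (some w') (t + 1) where
  steps := t + 1
  evals_in_steps := by
    obtain ⟨v', hv⟩ := run_tm h (some : Lab p → Option (Lab p)) none (tm p).m (fun l => rfl) none
    rw [init_eq, add_comm, iterate_add_apply, iterate_one]
    exact (congrArg _ hv).trans (congrArg some (halt_eq p w').symm)
  steps_le_m := le_rfl

/-! ### Running times with upper bounds -/

/-- `p` leads from `S` to `S'` in at most `t` steps -/
def R (p : P) (S S' : K → List Bool) (t : ℕ) : Prop := ∃ t' ≤ t, Run p S S' t'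

theorem R.mono {p : P} {S S' : K → List Bool} {t t' : ℕ} (h : R p S S' t) (ht : t ≤ t') :
    R p S S' t' := by
  obtain ⟨u, hu, h⟩ := h
  exact ⟨u, hu.trans ht, h⟩

theorem R.skip (S : K → List Bool) : R .skip S S 1 := ⟨1, le_rfl, .skip S⟩

theorem R.push {k : K} {b : Bool} {S S' : K → List Bool} (h : S' = update S k (b :: S k)) :
    R (.push k b) S S' 1 := ⟨1, le_rfl, h ▸ .push k b S⟩

theorem R.seq {p q : P} {S S' S'' : K → List Bool} {t t' : ℕ} (h : R p S S' t)
    (h' : R q S' S'' t') : R (.seq p q) S S'' (t + t') := by
  obtain ⟨u, hu, h⟩ := h
  obtain ⟨u', hu', h'⟩ := h'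
  exact ⟨u' + u, by omega, .seq h h'⟩

theorem R.pop_false {k : K} {p q r : P} {S S' : K → List Bool} {t : ℕ} {l : List Bool}
    (hS : S k = false :: l) (h : R q (update S k l) S' t) : R (.pop k p q r) S S' (t + 1) := by
  obtain ⟨u, hu, h⟩ := h
  exact ⟨u + 1, by omega, .pop_false hS h⟩

theorem R.pop_true {k : K} {p q r : P} {S S' : K → List Bool} {t : ℕ} {l : List Bool}
    (hS : S k = true :: l) (h : R r (update S k l) S' t) : R (.pop k p q r) S S' (t + 1) := by
  obtain ⟨u, hu, h⟩ := h
  exact ⟨u + 1, by omega, .pop_true hS h⟩

theorem R.loop_nil {k : K} {p q : P} {S : K → List Bool} (hS : S k = []) :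
    R (.loop k p q) S S 1 := ⟨1, le_rfl, .loop_nil hS⟩

theorem R.loop_false {k : K} {p q : P} {S S' S'' : K → List Bool} {t t' : ℕ} {l : List Bool}
    (hS : S k = false :: l) (h : R p (update S k l) S' t) (h' : R (.loop k p q) S' S'' t') :
    R (.loop k p q) S S'' (t + t' + 1) := by
  obtain ⟨u, hu, h⟩ := h
  obtain ⟨u', hu', h'⟩ := h'
  exact ⟨_, by omega, .loop_false hS h h'⟩

theorem R.loop_true {k : K} {p q : P} {S S' S'' : K → List Bool} {t t' : ℕ} {l : List Bool}
    (hS : S k = true :: l) (h : R q (update S k l) S' t) (h' : R (.loop k p q) S' S'' t') :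
    R (.loop k p q) S S'' (t + t' + 1) := by
  obtain ⟨u, hu, h⟩ := h
  obtain ⟨u', hu', h'⟩ := h'
  exact ⟨_, by omega, .loop_true hS h h'⟩

/-! ### Serialised trees and the basic routines -/

/-- prefix serialisation -/
def ser : T → List Bool
  | .nil => [false]
  | .cons a b => true :: (ser a ++ ser b)

@[simp] theorem ser_nil : ser T.nil = [false] := rfl
@[simp] theorem ser_cons (a b : T) : ser (T.cons a b) = true :: (ser a ++ ser b) := rfl

@[simp] theorem length_ser (x : T) : (ser x).length = x.size := by
  induction x with
  | nil => rfl
  | cons a b iha ihb => simp [iha, ihb]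

/-- push a token -/
def tok : P := .push .C true

/-- the loop of `mvA` -/
def lA : P := .loop .C .skip
  (.pop .M .skip (.push .A false) (.seq (.push .A true) (.seq tok tok)))

/-- move one tree from `M` to `A` (reversed) -/
def mvA : P := .seq tok lA

/-- the loop of `mvB` -/
def lB : P := .loop .C .skip
  (.pop .M .skip (.push .B false) (.seq (.push .B true) (.seq tok tok)))

/-- move one tree from `M` to `B` (reversed) -/
def mvB : P := .seq tok lB

/-- the loop of `drop` -/
def lD : P := .loop .C .skip (.pop .M .skip .skip (.seq tok tok))

/-- drop one tree from `M` -/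
def drop : P := .seq tok lD

/-- move everything from `A` to `M` -/
def resA : P := .loop .A (.push .M false) (.push .M true)

/-- move everything from `B` to `M` -/
def resB : P := .loop .B (.push .M false) (.push .M true)

theorem R_tok (i o m a b c : List Bool) :
    R tok (st i o m a b c) (st i o m a b (true :: c)) 1 := R.push (by simp)

theorem R_mvA_aux (x : T) : ∀ (i o m a b c : List Bool) (S' : K → List Bool) (t : ℕ),
    R lA (st i o m ((ser x).reverse ++ a) b c) S' t →
    R lA (st i o (ser x ++ m) a b (true :: c)) S' (5 * x.size + t) := by
  induction x with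
  | nil =>
    intro i o m a b c S' t h
    refine (R.loop_true (k := K.C) rfl (R.pop_false (l := m) (by simp)
      (R.push (S' := st i o m (false :: a) b c) (by simp))) h).mono ?_
    simp only [T.size_nil]; omega
  | cons u v ihu ihv =>
    intro i o m a b c S' t h
    have h1 : R lA (st i o m ((ser v).reverse ++ ((ser u).reverse ++ (true :: a))) b c) S' t := by
      simpa using h
    have h2 := ihv _ _ _ _ _ _ _ _ h1
    have h3 := ihu _ _ _ _ _ _ _ _ h2
    refine (R.loop_true (k := K.C) rfl (R.pop_true (l := ser u ++ (ser v ++ m)) (by simp)
      (R.seq (S' := st i o (ser u ++ (ser v ++ m)) (true :: a) b c) (R.push (by simp))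
        (R.seq (R_tok _ _ _ _ _ _) (R_tok _ _ _ _ _ _)))) h3).mono ?_
    simp only [T.size_cons]; omega

theorem R_mvA (x : T) (i o m a b : List Bool) :
    R mvA (st i o (ser x ++ m) a b []) (st i o m ((ser x).reverse ++ a) b []) (5 * x.size + 2) :=
  (R.seq (R_tok _ _ _ _ _ _) (R_mvA_aux x i o m a b [] _ 1 (R.loop_nil rfl))).mono (by omega)

theorem R_mvB_aux (x : T) : ∀ (i o m a b c : List Bool) (S' : K → List Bool) (t : ℕ),
    R lB (st i o m a ((ser x).reverse ++ b) c) S' t →
    R lB (st i o (ser x ++ m) a b (true :: c)) S' (5 * x.size + t) := by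
  induction x with
  | nil =>
    intro i o m a b c S' t h
    refine (R.loop_true (k := K.C) rfl (R.pop_false (l := m) (by simp)
      (R.push (S' := st i o m a (false :: b) c) (by simp))) h).mono ?_
    simp only [T.size_nil]; omega
  | cons u v ihu ihv =>
    intro i o m a b c S' t h
    have h1 : R lB (st i o m a ((ser v).reverse ++ ((ser u).reverse ++ (true :: b))) c) S' t := by
      simpa using h
    have h2 := ihv _ _ _ _ _ _ _ _ h1
    have h3 := ihu _ _ _ _ _ _ _ _ h2
    refine (R.loop_true (k := K.C) rfl (R.pop_true (l := ser u ++ (ser v ++ m)) (by simp)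
      (R.seq (S' := st i o (ser u ++ (ser v ++ m)) a (true :: b) c) (R.push (by simp))
        (R.seq (R_tok _ _ _ _ _ _) (R_tok _ _ _ _ _ _)))) h3).mono ?_
    simp only [T.size_cons]; omega

theorem R_mvB (x : T) (i o m a b : List Bool) :
    R mvB (st i o (ser x ++ m) a b []) (st i o m a ((ser x).reverse ++ b) []) (5 * x.size + 2) :=
  (R.seq (R_tok _ _ _ _ _ _) (R_mvB_aux x i o m a b [] _ 1 (R.loop_nil rfl))).mono (by omega)

theorem R_drop_aux (x : T) : ∀ (i o m a b c : List Bool) (S' : K → List Bool) (t : ℕ),
    R lD (st i o m a b c) S' t →
    R lD (st i o (ser x ++ m) a b (true :: c)) S' (5 * x.size + t) := by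
  induction x with
  | nil =>
    intro i o m a b c S' t h
    refine (R.loop_true (k := K.C) rfl (R.pop_false (l := m) (by simp)
      (by simpa using R.skip (st i o m a b c))) h).mono ?_
    simp only [T.size_nil]; omega
  | cons u v ihu ihv =>
    intro i o m a b c S' t h
    have h2 := ihv _ _ _ _ _ _ _ _ h
    have h3 := ihu _ _ _ _ _ _ _ _ h2
    refine (R.loop_true (k := K.C) rfl (R.pop_true (l := ser u ++ (ser v ++ m)) (by simp)
      (R.seq (S' := st i o (ser u ++ (ser v ++ m)) a b (true :: c)) (R.push (by simp))
        (R_tok _ _ _ _ _ _))) h3).mono ?_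
    simp only [T.size_cons]; omega

theorem R_drop (x : T) (i o m a b : List Bool) :
    R drop (st i o (ser x ++ m) a b []) (st i o m a b []) (5 * x.size + 2) :=
  (R.seq (R_tok _ _ _ _ _ _) (R_drop_aux x i o m a b [] _ 1 (R.loop_nil rfl))).mono (by omega)

theorem R_resA (a : List Bool) : ∀ i o m b c : List Bool,
    R resA (st i o m a b c) (st i o (a.reverse ++ m) [] b c) (2 * a.length + 1) := by
  induction a with
  | nil => intro i o m b c; exact R.loop_nil rfl
  | cons x a ih =>
    intro i o m b c
    have h := ih i o (x :: m) b c
    cases x
    · refine (R.loop_false (k := K.A) rfl (R.push (S' := st i o (false :: m) a b c) (by simp))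
        (by simpa [resA] using h)).mono ?_
      simp only [List.length_cons]; omega
    · refine (R.loop_true (k := K.A) rfl (R.push (S' := st i o (true :: m) a b c) (by simp))
        (by simpa [resA] using h)).mono ?_
      simp only [List.length_cons]; omega

theorem R_resB (b : List Bool) : ∀ i o m a c : List Bool,
    R resB (st i o m a b c) (st i o (b.reverse ++ m) a [] c) (2 * b.length + 1) := by
  induction b with
  | nil => intro i o m a c; exact R.loop_nil rfl
  | cons x b ih =>
    intro i o m a c
    have h := ih i o (x :: m) a c
    cases x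
    · refine (R.loop_false (k := K.B) rfl (R.push (S' := st i o (false :: m) a b c) (by simp))
        (by simpa [resB] using h)).mono ?_
      simp only [List.length_cons]; omega
    · refine (R.loop_true (k := K.B) rfl (R.push (S' := st i o (true :: m) a b c) (by simp))
        (by simpa [resB] using h)).mono ?_
      simp only [List.length_cons]; omega

/-- move everything from `A` to both `M` and `B` -/
def cpA : P := .loop .A (.seq (.push .M false) (.push .B false))
  (.seq (.push .M true) (.push .B true))

/-- move everything from `B` to `A` -/
def toA : P := .loop .B (.push .A false) (.push .A true)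

theorem R_cpA (a : List Bool) : ∀ i o m b c : List Bool,
    R cpA (st i o m a b c) (st i o (a.reverse ++ m) [] (a.reverse ++ b) c)
      (3 * a.length + 1) := by
  induction a with
  | nil => intro i o m b c; exact R.loop_nil rfl
  | cons x a ih =>
    intro i o m b c
    have h := ih i o (x :: m) (x :: b) c
    cases x
    · refine (R.loop_false (k := K.A) rfl (R.seq (S' := st i o (false :: m) a b c)
        (R.push (by simp)) (R.push (S' := st i o (false :: m) a (false :: b) c) (by simp)))
        (by simpa [cpA] using h)).mono ?_
      simp only [List.length_cons]; omega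
    · refine (R.loop_true (k := K.A) rfl (R.seq (S' := st i o (true :: m) a b c)
        (R.push (by simp)) (R.push (S' := st i o (true :: m) a (true :: b) c) (by simp)))
        (by simpa [cpA] using h)).mono ?_
      simp only [List.length_cons]; omega

theorem R_toA (b : List Bool) : ∀ i o m a c : List Bool,
    R toA (st i o m a b c) (st i o m (b.reverse ++ a) [] c) (2 * b.length + 1) := by
  induction b with
  | nil => intro i o m a c; exact R.loop_nil rfl
  | cons x b ih =>
    intro i o m a c
    have h := ih i o m (x :: a) c
    cases x
    · refine (R.loop_false (k := K.B) rfl (R.push (S' := st i o m (false :: a) b c) (by simp))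
        (by simpa [toA] using h)).mono ?_
      simp only [List.length_cons]; omega
    · refine (R.loop_true (k := K.B) rfl (R.push (S' := st i o m (true :: a) b c) (by simp))
        (by simpa [toA] using h)).mono ?_
      simp only [List.length_cons]; omega

/-- duplicate the top tree of `M` -/
def dup : P := .seq mvA (.seq cpA (.seq toA resA))

theorem R_dup (x : T) (i o m : List Bool) :
    R dup (st i o (ser x ++ m) [] [] []) (st i o (ser x ++ (ser x ++ m)) [] [] [])
      (12 * x.size + 5) := by
  have h1 := R_mvA x i o m [] []
  have h2 := R_cpA ((ser x).reverse ++ []) i o m [] []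
  have h3 := R_toA (ser x) i o (ser x ++ m) [] []
  have h4 := R_resA ((ser x).reverse ++ []) i o (ser x ++ m) [] []
  simp only [List.append_nil, List.reverse_reverse, List.length_reverse, length_ser]
    at h1 h2 h3 h4
  exact (h1.seq (h2.seq (h3.seq h4))).mono (by omega)

/-- swap the two top trees of `M` -/
def swap : P := .seq mvA (.seq mvB (.seq resA resB))

theorem R_swap (x y : T) (i o m : List Bool) :
    R swap (st i o (ser x ++ (ser y ++ m)) [] [] []) (st i o (ser y ++ (ser x ++ m)) [] [] [])
      (7 * x.size + 7 * y.size + 6) := by
  have h1 := R_mvA x i o (ser y ++ m) [] []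
  have h2 := R_mvB y i o m (ser x).reverse []
  have h3 := R_resA (ser x).reverse i o m (ser y).reverse []
  have h4 := R_resB (ser y).reverse i o (ser x ++ m) [] []
  simp only [List.append_nil, List.reverse_reverse, List.length_reverse, length_ser]
    at h1 h2 h3 h4
  exact (h1.seq (h2.seq (h3.seq h4))).mono (by omega)

/-- the main loop of `iter` -/
def lI (p : P) : P := .loop .C .skip
      (.pop .M .skip .skip (.seq drop (.seq swap (.seq p (.seq swap tok)))))

/-- the program of a code -/
def prog : Code → P
  | .id => .skip
  | .nil => .seq drop (.push .M false)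
  | .fst => .pop .M .skip (.push .M false) (.seq mvA (.seq drop resA))
  | .snd => .pop .M .skip (.push .M false) drop
  | .pair f g => .seq dup (.seq (prog f) (.seq swap (.seq (prog g) (.seq swap (.push .M true)))))
  | .comp f g => .seq (prog g) (prog f)
  | .case f g => .pop .M .skip (.seq (.push .M false) (prog f)) (.seq (.push .M true) (prog g))
  | .iter f => .pop .M .skip (.push .M false) (.seq tok (lI (prog f)))

theorem R_iter (f : Code) (hf : ∀ (x : T) (i o m : List Bool),
      R (prog f) (st i o (ser x ++ m) [] [] []) (st i o (ser (f.eval x) ++ m) [] [] [])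
        (40 * f.cost x)) (N : ℕ) (i o m : List Bool) :
    ∀ (n : T) (_ : n.size ≤ N) (x : T),
      R (lI (prog f)) (st i o (ser n ++ (ser x ++ m)) [] [] [true])
        (st i o (ser ((f.eval)^[n.len] x) ++ m) [] [] [])
        (4 + 40 * ∑ j ∈ Finset.range n.len, (f.cost (f.eval^[j] x) + (f.eval^[j] x).size +
          (f.eval^[j + 1] x).size + N + 1)) := by
  intro n
  induction n with
  | nil =>
    intro hN x
    refine (R.loop_true (k := K.C) rfl (R.pop_false (l := ser x ++ m) (by simp)
      (by simpa using R.skip (st i o (ser x ++ m) [] [] []))) (R.loop_nil rfl)).mono ?_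
    simp
  | cons a b iha ihb =>
    intro hN x
    simp only [T.size_cons] at hN
    have h := ihb (by omega) (f.eval x)
    have h1 := R_drop a i o (ser b ++ (ser x ++ m)) [] []
    have h2 := R_swap b x i o m
    have h3 := hf x i o (ser b ++ m)
    have h4 := R_swap (f.eval x) b i o m
    have h5 := R_tok i o (ser b ++ (ser (f.eval x) ++ m)) [] [] []
    have h6 := h1.seq (h2.seq (h3.seq (h4.seq h5)))
    simp only [T.len_cons, iterate_succ_apply]
    refine (R.loop_true (k := K.C) rfl (R.pop_true (l := ser a ++ (ser b ++ (ser x ++ m)))
      (by simp) (by simpa using h6)) h).mono ?_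
    rw [Finset.sum_range_succ']
    simp only [iterate_succ_apply, iterate_zero, id_eq]
    rw [Nat.mul_add]
    generalize hs : ∑ j ∈ Finset.range b.len, (f.cost (f.eval^[j] (f.eval x)) +
      (f.eval^[j] (f.eval x)).size + (f.eval^[j] (f.eval (f.eval x))).size + N + 1) = s
    omega

theorem R_prog (c : Code) : ∀ (x : T) (i o m : List Bool),
    R (prog c) (st i o (ser x ++ m) [] [] []) (st i o (ser (c.eval x) ++ m) [] [] [])
      (40 * c.cost x) := by
  induction c with
  | id =>
    intro x i o m
    rw [Code.eval_id]
    refine (R.skip _).mono ?_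
    simp only [Code.cost]; omega
  | nil =>
    intro x i o m
    refine ((R_drop x i o m [] []).seq (R.push (S' := st i o (false :: m) [] [] [])
      (by simp))).mono ?_
    simp only [Code.cost]; omega
  | fst =>
    intro x i o m
    cases x with
    | nil =>
      refine (R.pop_false (l := m) (by simp) (R.push (S' := st i o (false :: m) [] [] [])
        (by simp))).mono ?_
      simp only [Code.cost]; omega
    | cons a b =>
      have h1 := R_mvA a i o (ser b ++ m) [] []
      have h2 := R_drop b i o m (ser a).reverse []
      have h3 := R_resA (ser a).reverse i o m [] []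
      simp only [List.append_nil, List.reverse_reverse, List.length_reverse, length_ser]
        at h1 h2 h3
      refine (R.pop_true (l := ser a ++ (ser b ++ m)) (by simp)
        (by simpa using h1.seq (h2.seq h3))).mono ?_
      simp only [Code.cost, T.size_cons]; omega
  | snd =>
    intro x i o m
    cases x with
    | nil =>
      refine (R.pop_false (l := m) (by simp) (R.push (S' := st i o (false :: m) [] [] [])
        (by simp))).mono ?_
      simp only [Code.cost]; omega
    | cons a b =>
      have h1 := R_drop a i o (ser b ++ m) [] []
      refine (R.pop_true (l := ser a ++ (ser b ++ m)) (by simp)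
        (by simpa using h1)).mono ?_
      simp only [Code.cost, T.size_cons]; omega
  | pair f g ihf ihg =>
    intro x i o m
    have h1 := R_dup x i o m
    have h2 := ihf x i o (ser x ++ m)
    have h3 := R_swap (f.eval x) x i o m
    have h4 := ihg x i o (ser (f.eval x) ++ m)
    have h5 := R_swap (g.eval x) (f.eval x) i o m
    refine (h1.seq (h2.seq (h3.seq (h4.seq (h5.seq (R.push (by simp))))))).mono ?_
    simp only [Code.cost]; omega
  | comp f g ihf ihg =>
    intro x i o m
    rw [Code.eval_comp]
    refine ((ihg x i o m).seq (ihf _ i o m)).mono ?_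
    simp only [Code.cost]; omega
  | case f g ihf ihg =>
    intro x i o m
    cases x with
    | nil =>
      rw [Code.eval_case_nil]
      refine (R.pop_false (l := m) (by simp) (R.seq (S' := st i o (ser T.nil ++ m) [] [] [])
        (R.push (by simp)) (ihf _ i o m))).mono ?_
      simp only [Code.cost]; omega
    | cons a b =>
      rw [Code.eval_case_cons]
      refine (R.pop_true (l := ser a ++ (ser b ++ m)) (by simp) (R.seq
        (S' := st i o (ser (T.cons a b) ++ m) [] [] [])
        (R.push (by simp)) (ihg _ i o m))).mono ?_
      simp only [Code.cost]; omega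
  | iter f ihf =>
    intro x i o m
    cases x with
    | nil =>
      refine (R.pop_false (l := m) (by simp) (R.push (S' := st i o (false :: m) [] [] [])
        (by simp))).mono ?_
      simp only [Code.cost]; omega
    | cons n x =>
      rw [Code.eval_iter_cons]
      have h1 := R_tok i o (ser n ++ (ser x ++ m)) [] [] []
      have h2 := R_iter f ihf n.size i o m n le_rfl x
      refine (R.pop_true (l := ser n ++ (ser x ++ m)) (by simp)
        (by simp only [up_M]; exact h1.seq h2)).mono ?_
      simp only [Code.cost]; omega

/-! ### Input and output -/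

/-- reverse the input into `A` -/
def in1 : P := .loop .I (.push .A false) (.push .A true)

/-- build the encoded list on `M` -/
def in2 : P := .loop .A (.seq (.push .M false) (.push .M true))
  (.seq (.push .M false) (.seq (.push .M false) (.seq (.push .M true) (.push .M true))))

/-- decode the list on `M` into `A` (reversed) -/
def out1 : P := .loop .C .skip (.pop .M .skip .skip (.pop .M .skip (.seq (.push .A false) tok)
  (.pop .M .skip (.pop .M .skip (.seq (.push .A true) tok) .skip) .skip)))

/-- reverse `A` to the output -/
def out2 : P := .loop .A (.push .O false) (.push .O true)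

theorem R_in1 (w : List Bool) : ∀ o m a b c : List Bool,
    R in1 (st w o m a b c) (st [] o m (w.reverse ++ a) b c) (2 * w.length + 1) := by
  induction w with
  | nil => intro o m a b c; exact R.loop_nil rfl
  | cons x w ih =>
    intro o m a b c
    have h := ih o m (x :: a) b c
    cases x
    · refine (R.loop_false (k := K.I) rfl (R.push (S' := st w o m (false :: a) b c) (by simp))
        (by simpa [in1] using h)).mono ?_
      simp only [List.length_cons]; omega
    · refine (R.loop_true (k := K.I) rfl (R.push (S' := st w o m (true :: a) b c) (by simp))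
        (by simpa [in1] using h)).mono ?_
      simp only [List.length_cons]; omega

theorem R_in2 (a : List Bool) : ∀ i o r b c : List Bool,
    R in2 (st i o (ser (enc r)) a b c) (st i o (ser (enc (a.reverse ++ r))) [] b c)
      (5 * a.length + 1) := by
  induction a with
  | nil => intro i o r b c; exact R.loop_nil rfl
  | cons x a ih =>
    intro i o r b c
    have h := ih i o (x :: r) b c
    cases x
    · have h1 : R (.seq (.push .M false) (.push .M true)) (st i o (ser (enc r)) a b c)
          (st i o (ser (enc (false :: r))) a b c) (1 + 1) :=
        R.seq (S' := st i o (false :: ser (enc r)) a b c) (R.push (by simp)) (R.push (by simp))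
      refine (R.loop_false (k := K.A) rfl (by simpa using h1)
        (by simpa [in2] using h)).mono ?_
      simp only [List.length_cons]; omega
    · have h1 : R (.seq (.push .M false) (.seq (.push .M false) (.seq (.push .M true)
          (.push .M true)))) (st i o (ser (enc r)) a b c)
          (st i o (ser (enc (true :: r))) a b c) (1 + (1 + (1 + 1))) :=
        R.seq (S' := st i o (false :: ser (enc r)) a b c) (R.push (by simp))
          (R.seq (S' := st i o (false :: false :: ser (enc r)) a b c) (R.push (by simp))
            (R.seq (S' := st i o (true :: false :: false :: ser (enc r)) a b c)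
              (R.push (by simp)) (R.push (by simp))))
      refine (R.loop_true (k := K.A) rfl (by simpa using h1)
        (by simpa [in2] using h)).mono ?_
      simp only [List.length_cons]; omega

theorem R_out1 (l : List Bool) : ∀ i o m a b : List Bool,
    R out1 (st i o (ser (enc l) ++ m) a b [true]) (st i o m (l.reverse ++ a) b [])
      (7 * l.length + 4) := by
  induction l with
  | nil =>
    intro i o m a b
    refine (R.loop_true (k := K.C) rfl (R.pop_false (l := m) (by simp)
      (by simpa using R.skip (st i o m a b []))) (R.loop_nil rfl)).mono ?_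
    simp
  | cons x l ih =>
    intro i o m a b
    have h := ih i o m (x :: a) b
    cases x
    · have h1 : R (.seq (.push .A false) tok) (st i o (ser (enc l) ++ m) a b [])
          (st i o (ser (enc l) ++ m) (false :: a) b [true]) (1 + 1) :=
        R.seq (S' := st i o (ser (enc l) ++ m) (false :: a) b []) (R.push (by simp))
          (R.push (by simp))
      refine (R.loop_true (k := K.C) rfl (R.pop_true (l := false :: (ser (enc l) ++ m))
        (by simp) (R.pop_false (l := ser (enc l) ++ m) (by simp) (by simpa using h1)))
        (by simpa [out1] using h)).mono ?_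
      simp only [List.length_cons]; omega
    · have h1 : R (.seq (.push .A true) tok) (st i o (ser (enc l) ++ m) a b [])
          (st i o (ser (enc l) ++ m) (true :: a) b [true]) (1 + 1) :=
        R.seq (S' := st i o (ser (enc l) ++ m) (true :: a) b []) (R.push (by simp))
          (R.push (by simp))
      refine (R.loop_true (k := K.C) rfl (R.pop_true
        (l := true :: false :: false :: (ser (enc l) ++ m)) (by simp)
        (R.pop_true (l := false :: false :: (ser (enc l) ++ m)) (by simp)
          (R.pop_false (l := false :: (ser (enc l) ++ m)) (by simp)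
            (R.pop_false (l := ser (enc l) ++ m) (by simp) (by simpa using h1)))))
        (by simpa [out1] using h)).mono ?_
      simp only [List.length_cons]; omega

theorem R_out2 (a : List Bool) : ∀ i o m b c : List Bool,
    R out2 (st i o m a b c) (st i (a.reverse ++ o) m [] b c) (2 * a.length + 1) := by
  induction a with
  | nil => intro i o m b c; exact R.loop_nil rfl
  | cons x a ih =>
    intro i o m b c
    have h := ih i (x :: o) m b c
    cases x
    · refine (R.loop_false (k := K.A) rfl (R.push (S' := st i (false :: o) m a b c) (by simp))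
        (by simpa [out2] using h)).mono ?_
      simp only [List.length_cons]; omega
    · refine (R.loop_true (k := K.A) rfl (R.push (S' := st i (true :: o) m a b c) (by simp))
        (by simpa [out2] using h)).mono ?_
      simp only [List.length_cons]; omega

/-- the whole program -/
def full (c : Code) : P :=
  .seq in1 (.seq (.push .M false) (.seq in2 (.seq (prog c) (.seq tok (.seq out1 out2)))))

theorem R_full (c : Code) (w w' : List Bool) (h : c.eval (enc w) = enc w') :
    R (full c) (st w [] [] [] [] []) (st [] w' [] [] [] [])
      (7 * w.length + 40 * c.cost (enc w) + 9 * w'.length + 12) := by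
  have h1 := R_in1 w [] [] [] [] []
  have h2 : R (.push .M false) (st [] [] [] (w.reverse ++ []) [] [])
    (st [] [] (ser (enc ([] : List Bool))) (w.reverse ++ []) [] []) 1 := R.push (by simp)
  have h3 := R_in2 (w.reverse ++ []) [] [] [] [] []
  have h4 := R_prog c (enc w) [] [] []
  have h5 := R_tok [] [] (ser (enc w') ++ []) [] [] []
  have h6 := R_out1 w' [] [] [] [] []
  have h7 := R_out2 (w'.reverse ++ []) [] [] [] [] []
  rw [h] at h4
  simp only [List.append_nil, List.reverse_reverse, List.length_reverse]
    at h1 h2 h3 h4 h5 h6 h7
  exact (h1.seq (h2.seq (h3.seq (h4.seq (h5.seq (h6.seq h7)))))).mono (by omega)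

theorem size_encList (w : List Bool) : (enc w).size ≤ 4 * w.length + 1 := by
  induction w with
  | nil => simp
  | cons x w ih =>
    cases x
    · simp only [enc_list_cons, enc_false, T.size_cons, T.size_nil, List.length_cons]; omega
    · simp only [enc_list_cons, enc_true, T.size_cons, T.size_nil, List.length_cons]; omega

theorem length_le_size (w : List Bool) : w.length ≤ (enc w).size := by
  induction w with
  | nil => simp
  | cons x w ih =>
    simp only [enc_list_cons, T.size_cons, List.length_cons]; omega

theorem eval_mono (p : Polynomial ℕ) {a b : ℕ} (h : a ≤ b) : p.eval a ≤ p.eval b := by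
  induction p using Polynomial.induction_on' with
  | add p q hp hq => rw [Polynomial.eval_add, Polynomial.eval_add]; exact add_le_add hp hq
  | monomial n c =>
    rw [Polynomial.eval_monomial, Polynomial.eval_monomial]
    exact Nat.mul_le_mul_left _ (Nat.pow_le_pow_left h n)

/-- **Main result.**  A polynomial-time function on bit strings is computed by a multi-stack
Turing machine of Mathlib in polynomial time. -/
theorem polyTime_toTM2 (f : List Bool → List Bool) (h : PolyTime f) :
    Nonempty (Turing.TM2ComputableInPolyTime (fun x : List Bool => x)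
      (fun x : List Bool => x) f) := by
  obtain ⟨c, hc, p, hp⟩ := h
  refine ⟨{ tm := tm (full c)
            inputAlphabet := Equiv.refl Bool
            outputAlphabet := Equiv.refl Bool
            time := 49 * p.comp (4 * Polynomial.X + 1) + 43 * Polynomial.X + 22
            outputsFun := fun w => ?_ }⟩
  have hr : ∃ t ≤ 7 * w.length + 40 * c.cost (enc w) + 9 * (f w).length + 12,
    Run (full c) (st w [] [] [] [] []) (st [] (f w) [] [] [] []) t := R_full c w (f w) (hc w)
  have ht := hr.choose_spec.1
  have hrun := hr.choose_spec.2
  have h0 := outputs_of_run (full c) w (f w) _ hrun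
  have hle : hr.choose + 1 ≤ Polynomial.eval w.length
      (49 * p.comp (4 * Polynomial.X + 1) + 43 * Polynomial.X + 22) := by
    have e : Polynomial.eval w.length
      (49 * p.comp (4 * Polynomial.X + 1) + 43 * Polynomial.X + 22) =
        49 * p.eval (4 * w.length + 1) + 43 * w.length + 22 := by
      simp [Polynomial.eval_comp]
    rw [e]
    have h1 := (hp w).trans (eval_mono p (size_encList w))
    have h2 := size_encList w
    have h3 := length_le_size (f w)
    have h4 := Code.size_eval_le c (enc w)
    rw [hc w] at h4
    omega
  have hid : ∀ l : List Bool, List.map (Equiv.refl Bool).invFun l = l := fun l => List.map_id l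
  have key : ∀ l l' : List Bool, l = w → l' = f w →
      TM2OutputsInTime (tm (full c)) l (some l') (Polynomial.eval w.length
        (49 * p.comp (4 * Polynomial.X + 1) + 43 * Polynomial.X + 22)) := by
    intro l l' hl hl'
    subst hl hl'
    exact ⟨⟨h0.steps, h0.evals_in_steps⟩, h0.steps_le_m.trans hle⟩
  exact key _ _ (hid w) (hid (f w))

end Pool.Agent.Lib.PT.ToTM2
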