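import Mathlib

/-!
# Cell automata with a broadcast cell, and simulation of `TM2` machines by them

A cell automaton here has rows of cells indexed by `ℕ`; the new state of cell `i` depends on the
old states of the cells `0`, `i - 1`, `i`, `i + 1`.  Each `Turing.FinTM2` machine deciding a
predicate on lists of bits in polynomial time is simulated by such an automaton, cell `0` holding
the control (current statement and local variables), cell `i + 1` holding the symbols at depth `i`
of all stacks.
-/

set_option autoImplicit false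

namespace Pool.Agent.Lib.PT

/-- The initial row on the input `w`. -/
def row0 {S : Type} (s0 : S) (sI : Bool → S) (sB : S) (w : List Bool) : ℕ → S
  | 0 => s0
  | i + 1 => match w[i]? with
    | some b => sI b
    | none => sB

/-- The rows of the automaton. -/
def traj {S : Type} (δ : S → S → S → S → S) (s0 : S) (sI : Bool → S) (sB : S) (w : List Bool) :
    ℕ → ℕ → S
  | 0 => row0 s0 sI sB w
  | t + 1 => fun i => δ (traj δ s0 sI sB w t 0) (traj δ s0 sI sB w t (i - 1))
      (traj δ s0 sI sB w t i) (traj δ s0 sI sB w t (i + 1))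

namespace Cells

open Turing Turing.TM2 Turing.TM2.Stmt Function

section

variable {K : Type} {Γ : K → Type} {Λ σ : Type}

/-- Configurations of the elementary-step machine: the control is the statement being executed
(`none` for halted) and the value of the local variables. -/
@[ext]
structure ECfg (Γ : K → Type) (Λ σ : Type) where
  ctl : Option (Stmt Γ Λ σ)
  var : σ
  stk : ∀ k, List (Γ k)

/-- The states of the cells. -/
inductive Cell (Γ : K → Type) (Λ σ : Type)
  | ctl : Option (Stmt Γ Λ σ) → σ → Cell Γ Λ σ
  | col : (∀ k, Option (Γ k)) → Cell Γ Λ σ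

namespace Cell

/-- content of a column cell -/
def get : Cell Γ Λ σ → ∀ k, Option (Γ k)
  | ctl _ _, _ => none
  | col s, k => s k

/-- the content of stack `k` after a push, in terms of the left neighbour -/
def pushed (l : Cell Γ Λ σ) (k : K) (x : Γ k) : Option (Γ k) :=
  match l with
  | ctl _ _ => some x
  | col s => s k

/-- new control, in terms of the old one and of the tops of the stacks. -/
def next (M : Λ → Stmt Γ Λ σ) (top : ∀ k, Option (Γ k)) :
    Option (Stmt Γ Λ σ) → σ → Cell Γ Λ σ
  | none, v => ctl none v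
  | some (push _ _ q), v => ctl (some q) v
  | some (peek k f q), v => ctl (some q) (f v (top k))
  | some (pop k f q), v => ctl (some q) (f v (top k))
  | some (load a q), v => ctl (some q) (a v)
  | some (branch p q₁ q₂), v => ctl (some (cond (p v) q₁ q₂)) v
  | some (goto l), v => ctl (some (M (l v))) v
  | some halt, v => ctl none v

/-- new column, in terms of control and neighbours -/
def move [DecidableEq K] (s : ∀ k, Option (Γ k)) (l r : Cell Γ Λ σ) :
    Option (Stmt Γ Λ σ) → σ → Cell Γ Λ σ
  | some (push k f _), v => col (update s k (pushed l k (f v)))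
  | some (pop k _ _), _ => col (update s k (r.get k))
  | _, _ => col s

/-- The transition function of the automaton. -/
def trans [DecidableEq K] (M : Λ → Stmt Γ Λ σ) (c0 l s r : Cell Γ Λ σ) : Cell Γ Λ σ :=
  match s with
  | ctl q v => next M r.get q v
  | col s => match c0 with
    | ctl q v => move s l r q v
    | col _ => col s

end Cell

/-- Elementary steps. -/
def estep [DecidableEq K] (M : Λ → Stmt Γ Λ σ) : ECfg Γ Λ σ → ECfg Γ Λ σ
  | ⟨none, v, S⟩ => ⟨none, v, S⟩
  | ⟨some (push k f q), v, S⟩ => ⟨some q, v, update S k (f v :: S k)⟩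
  | ⟨some (peek k f q), v, S⟩ => ⟨some q, f v (S k).head?, S⟩
  | ⟨some (pop k f q), v, S⟩ => ⟨some q, f v (S k).head?, update S k (S k).tail⟩
  | ⟨some (load a q), v, S⟩ => ⟨some q, a v, S⟩
  | ⟨some (branch p q₁ q₂), v, S⟩ => ⟨some (cond (p v) q₁ q₂), v, S⟩
  | ⟨some (goto l), v, S⟩ => ⟨some (M (l v)), v, S⟩
  | ⟨some halt, v, S⟩ => ⟨none, v, S⟩

/-- The cells of an elementary configuration. -/
def cells (c : ECfg Γ Λ σ) : ℕ → Cell Γ Λ σ
  | 0 => .ctl c.ctl c.var
  | i + 1 => .col fun k => (c.stk k)[i]?

theorem cells_estep [DecidableEq K] (M : Λ → Stmt Γ Λ σ) (c : ECfg Γ Λ σ) (i : ℕ) :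
    cells (estep M c) i =
      Cell.trans M (cells c 0) (cells c (i - 1)) (cells c i) (cells c (i + 1)) := by
  obtain ⟨q, v, S⟩ := c
  cases i with
  | zero =>
    rcases q with _ | q
    · rfl
    · cases q <;> simp [cells, estep, Cell.trans, Cell.next, Cell.get, List.head?_eq_getElem?]
  | succ i =>
    rcases q with _ | q
    · rfl
    · cases q with
      | push k f q =>
        simp only [cells, estep, Cell.trans, Cell.move, Nat.add_sub_cancel]
        congr 1
        funext k'
        by_cases h : k' = k
        · subst h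
          simp only [update_self]
          cases i with
          | zero => simp [Cell.pushed]
          | succ i => simp [Cell.pushed]
        · simp [update_of_ne h]
      | pop k f q =>
        simp only [cells, estep, Cell.trans, Cell.move, Cell.get]
        congr 1
        funext k'
        by_cases h : k' = k
        · subst h
          simp
        · simp [update_of_ne h]
      | _ => rfl

/-- Embedding of `TM2` configurations. -/
def emb (M : Λ → Stmt Γ Λ σ) (c : Cfg Γ Λ σ) : ECfg Γ Λ σ := ⟨c.l.map M, c.var, c.stk⟩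

/-- Depth of a statement. -/
def ssize : Stmt Γ Λ σ → ℕ
  | push _ _ q => ssize q + 1
  | peek _ _ q => ssize q + 1
  | pop _ _ q => ssize q + 1
  | load _ q => ssize q + 1
  | branch _ q₁ q₂ => max (ssize q₁) (ssize q₂) + 1
  | goto _ => 1
  | halt => 1

theorem exists_iterate_stepAux [DecidableEq K] (M : Λ → Stmt Γ Λ σ) (q : Stmt Γ Λ σ) :
    ∀ (v : σ) (S : ∀ k, List (Γ k)), ∃ n ≤ ssize q,
      (estep M)^[n] ⟨some q, v, S⟩ = emb M (stepAux q v S) := by
  induction q with
  | push k f q ih =>
    intro v S
    obtain ⟨n, hn, h⟩ := ih v (update S k (f v :: S k))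
    exact ⟨n + 1, by simpa [ssize] using hn, by rw [iterate_succ_apply]; simpa [estep] using h⟩
  | peek k f q ih =>
    intro v S
    obtain ⟨n, hn, h⟩ := ih (f v (S k).head?) S
    exact ⟨n + 1, by simpa [ssize] using hn, by rw [iterate_succ_apply]; simpa [estep] using h⟩
  | pop k f q ih =>
    intro v S
    obtain ⟨n, hn, h⟩ := ih (f v (S k).head?) (update S k (S k).tail)
    exact ⟨n + 1, by simpa [ssize] using hn, by rw [iterate_succ_apply]; simpa [estep] using h⟩
  | load a q ih =>
    intro v S
    obtain ⟨n, hn, h⟩ := ih (a v) S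
    exact ⟨n + 1, by simpa [ssize] using hn, by rw [iterate_succ_apply]; simpa [estep] using h⟩
  | branch p q₁ q₂ ih₁ ih₂ =>
    intro v S
    cases hp : p v with
    | true =>
      obtain ⟨n, hn, h⟩ := ih₁ v S
      exact ⟨n + 1, by simp only [ssize]; omega,
        by rw [iterate_succ_apply]; simpa [estep, hp] using h⟩
    | false =>
      obtain ⟨n, hn, h⟩ := ih₂ v S
      exact ⟨n + 1, by simp only [ssize]; omega,
        by rw [iterate_succ_apply]; simpa [estep, hp] using h⟩
  | goto l =>
    intro v S
    exact ⟨1, le_rfl, by simp [estep, emb]⟩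
  | halt =>
    intro v S
    exact ⟨1, le_rfl, by simp [estep, emb]⟩

theorem exists_iterate_step [DecidableEq K] (M : Λ → Stmt Γ Λ σ) {C : ℕ}
    (hC : ∀ l, ssize (M l) ≤ C) (c' : Cfg Γ Λ σ) (n : ℕ) :
    ∀ (c : Cfg Γ Λ σ), (flip bind (TM2.step M))^[n] (some c) = some c' →
      ∃ m ≤ C * n, (estep M)^[m] (emb M c) = emb M c' := by
  induction n with
  | zero =>
    intro c h
    simp only [iterate_zero, id_eq, Option.some.injEq] at h
    subst h
    exact ⟨0, le_rfl, rfl⟩
  | succ n ih =>
    intro c h
    rw [iterate_succ_apply] at h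
    have h1 : flip bind (TM2.step M) (some c) = TM2.step M c := rfl
    rw [h1] at h
    obtain ⟨l, v, S⟩ := c
    cases l with
    | none =>
      exfalso
      have h2 : TM2.step M ⟨none, v, S⟩ = none := rfl
      rw [h2] at h
      have h3 : ∀ n, (flip bind (TM2.step M))^[n] (none : Option (Cfg Γ Λ σ)) = none := by
        intro n
        induction n with
        | zero => rfl
        | succ n ih => rw [iterate_succ_apply]; exact ih
      rw [h3] at h
      simp at h
    | some l =>
      have h2 : TM2.step M ⟨some l, v, S⟩ = some (stepAux (M l) v S) := rfl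
      rw [h2] at h
      obtain ⟨m, hm, h4⟩ := ih _ h
      obtain ⟨k, hk, h5⟩ := exists_iterate_stepAux M (M l) v S
      refine ⟨m + k, ?_, ?_⟩
      · have := hC l
        rw [Nat.mul_succ]
        omega
      · rw [iterate_add_apply]
        have : emb M ⟨some l, v, S⟩ = ⟨some (M l), v, S⟩ := rfl
        rw [this, h5, h4]

theorem iterate_halted [DecidableEq K] (M : Λ → Stmt Γ Λ σ) (v : σ) (S : ∀ k, List (Γ k))
    (n : ℕ) : (estep M)^[n] ⟨none, v, S⟩ = ⟨none, v, S⟩ := by
  induction n with
  | zero => rfl
  | succ n ih => rw [iterate_succ_apply]; exact ih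

/-! ### The finite set of states used -/

/-- symbols which can occur on stack `k`. -/
def Sig [Fintype Λ] (M : Λ → Stmt Γ Λ σ) (I : ∀ k, Set (Γ k)) (k : K) : Set (Γ k) :=
  I k ∪ {x | ∃ f q v, some (push k f q) ∈ stmts M (Finset.univ : Finset Λ) ∧ f v = x}

theorem finite_Sig [Fintype Λ] [Finite σ] (M : Λ → Stmt Γ Λ σ) (I : ∀ k, Set (Γ k))
    (hI : ∀ k, (I k).Finite) (k : K) : (Sig M I k).Finite := by
  apply (hI k).union
  have h1 : {x : Γ k | ∃ f q v, some (push k f q) ∈ stmts M (Finset.univ : Finset Λ) ∧ f v = x} ⊆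
      ⋃ o ∈ stmts M (Finset.univ : Finset Λ),
        {x : Γ k | ∃ f q, o = some (push k f q) ∧ ∃ v, f v = x} := by
    rintro x ⟨f, q, v, h, rfl⟩
    simp only [Set.mem_iUnion]
    exact ⟨_, h, f, q, rfl, v, rfl⟩
  refine Set.Finite.subset (Set.Finite.biUnion (Finset.finite_toSet _) ?_) h1
  intro o _
  by_cases h : ∃ f q, o = some (push k f q)
  · obtain ⟨f, q, rfl⟩ := h
    apply (Set.finite_range f).subset
    rintro x ⟨f', q', h, v, rfl⟩
    simp only [Option.some.injEq, push.injEq, heq_eq_eq, true_and] at h
    rw [h.1]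
    exact ⟨v, rfl⟩
  · convert Set.finite_empty
    ext x
    simp only [Set.mem_ofPred_eq, Set.mem_empty_iff_false, iff_false]
    rintro ⟨f, q, h', -⟩
    exact h ⟨f, q, h'⟩

/-- The set of cell states used. -/
def Used [Fintype Λ] (M : Λ → Stmt Γ Λ σ) (I : ∀ k, Set (Γ k)) : Set (Cell Γ Λ σ) :=
  {c | (∃ q ∈ stmts M (Finset.univ : Finset Λ), ∃ v, c = .ctl q v) ∨
    ∃ s : ∀ k, Option (Γ k), (∀ k x, s k = some x → x ∈ Sig M I k) ∧ c = .col s}

theorem finite_Used [Fintype Λ] [Finite σ] [Finite K] (M : Λ → Stmt Γ Λ σ) (I : ∀ k, Set (Γ k))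
    (hI : ∀ k, (I k).Finite) : (Used M I).Finite := by
  have h1 : Used M I ⊆ (fun p : Option (Stmt Γ Λ σ) × σ => Cell.ctl p.1 p.2) ''
      ((stmts M (Finset.univ : Finset Λ) : Set (Option (Stmt Γ Λ σ))) ×ˢ Set.univ) ∪
      Cell.col '' (Set.pi Set.univ fun k => insert none (some '' Sig M I k)) := by
    rintro c (⟨q, hq, v, rfl⟩ | ⟨s, hs, rfl⟩)
    · left
      exact ⟨(q, v), ⟨hq, Set.mem_univ _⟩, rfl⟩
    · right
      refine ⟨s, fun k _ => ?_, rfl⟩
      cases h : s k with
      | none => exact Set.mem_insert _ _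
      | some x => exact Set.mem_insert_of_mem _ ⟨x, hs k x h, rfl⟩
  refine Set.Finite.subset (Set.Finite.union ?_ ?_) h1
  · exact ((Finset.finite_toSet _).prod Set.finite_univ).image _
  · exact (Set.Finite.pi fun k => ((finite_Sig M I hI k).image _).insert _).image _

/-- Elementary configurations using only the finite set of states. -/
structure Good [Fintype Λ] (M : Λ → Stmt Γ Λ σ) (I : ∀ k, Set (Γ k)) (c : ECfg Γ Λ σ) : Prop where
  ctl : c.ctl ∈ stmts M (Finset.univ : Finset Λ)
  stk : ∀ k, ∀ x ∈ c.stk k, x ∈ Sig M I k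

theorem stmts_sub [Fintype Λ] {M : Λ → Stmt Γ Λ σ} {q q' : Stmt Γ Λ σ}
    (h : some q ∈ stmts M (Finset.univ : Finset Λ)) (h' : q' ∈ stmts₁ q) :
    some q' ∈ stmts M (Finset.univ : Finset Λ) := stmts_trans h' h

theorem mem_stmts_label [Fintype Λ] (M : Λ → Stmt Γ Λ σ) (l : Λ) :
    some (M l) ∈ stmts M (Finset.univ : Finset Λ) := by
  simp only [stmts, Finset.mem_insertNone, Finset.mem_biUnion, Option.mem_def, Option.some.injEq,
    forall_eq']
  exact ⟨l, Finset.mem_univ _, stmts₁_self⟩

theorem mem_stmts_none [Fintype Λ] (M : Λ → Stmt Γ Λ σ) :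
    (none : Option (Stmt Γ Λ σ)) ∈ stmts M (Finset.univ : Finset Λ) := by
  simp [stmts]

theorem Good.estep [Fintype Λ] [DecidableEq K] {M : Λ → Stmt Γ Λ σ} {I : ∀ k, Set (Γ k)}
    {c : ECfg Γ Λ σ} (h : Good M I c) : Good M I (estep M c) := by
  obtain ⟨q, v, S⟩ := c
  obtain ⟨h1, h2⟩ := h
  simp only at h1 h2
  rcases q with _ | q
  · exact ⟨h1, h2⟩
  · cases q with
    | push k f q =>
      refine ⟨stmts_sub h1 (by simp [stmts₁, stmts₁_self]), fun k' x hx => ?_⟩
      by_cases hk : k' = k
      · subst hk
        simp only [Cells.estep, update_self, List.mem_cons] at hx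
        rcases hx with rfl | hx
        · right; exact ⟨f, q, v, h1, rfl⟩
        · exact h2 _ x hx
      · simp only [Cells.estep, update_of_ne hk] at hx
        exact h2 _ x hx
    | peek k f q => exact ⟨stmts_sub h1 (by simp [stmts₁, stmts₁_self]), h2⟩
    | pop k f q =>
      refine ⟨stmts_sub h1 (by simp [stmts₁, stmts₁_self]), fun k' x hx => ?_⟩
      by_cases hk : k' = k
      · subst hk
        simp only [Cells.estep, update_self] at hx
        exact h2 _ x (List.mem_of_mem_tail hx)
      · simp only [Cells.estep, update_of_ne hk] at hx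
        exact h2 _ x hx
    | load a q => exact ⟨stmts_sub h1 (by simp [stmts₁, stmts₁_self]), h2⟩
    | branch p q₁ q₂ =>
      refine ⟨stmts_sub h1 ?_, h2⟩
      cases p v <;> simp [stmts₁, stmts₁_self]
    | goto l => exact ⟨mem_stmts_label M _, h2⟩
    | halt => exact ⟨mem_stmts_none M, h2⟩

theorem Good.cells [Fintype Λ] {M : Λ → Stmt Γ Λ σ} {I : ∀ k, Set (Γ k)}
    {c : ECfg Γ Λ σ} (h : Good M I c) (i : ℕ) : cells c i ∈ Used M I := by
  cases i with
  | zero => exact Or.inl ⟨_, h.ctl, _, rfl⟩
  | succ i =>
    right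
    refine ⟨_, fun k x hx => h.stk k x ?_, rfl⟩
    exact List.mem_of_getElem? hx

end

/-- A machine deciding `R` in polynomial time gives a cell automaton. -/
theorem exists_automaton (R : List Bool → Bool)
    (hR : Nonempty (Turing.TM2ComputableInPolyTime (fun x : List Bool => x)
      (fun b : Bool => [b]) R)) :
    ∃ (S : Type) (A : Finset S) (δ : S → S → S → S → S) (s0 : S) (sI : Bool → S) (sB : S)
      (out : S → Bool) (T : Polynomial ℕ),
      (∀ w t i, traj δ s0 sI sB w t i ∈ A) ∧
      ∀ w, out (traj δ s0 sI sB w (T.eval w.length) 1) = R w := by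
  classical
  obtain ⟨C⟩ := hR
  obtain ⟨⟨tm, eI, eO⟩, time, hout⟩ := C
  simp only at hout
  let _ := tm.kFin
  let _ := tm.ΛFin
  let _ := tm.σFin
  let _ := tm.Γk₀Fin
  let M := tm.m
  obtain ⟨B, hB⟩ : ∃ B, ∀ l, ssize (M l) ≤ B :=
    ⟨Finset.univ.sup fun l => ssize (M l), fun l =>
      Finset.le_sup (f := fun l => ssize (M l)) (Finset.mem_univ l)⟩
  let I : ∀ k, Set (tm.Γ k) := fun k => if k = tm.k₀ then Set.univ else ∅
  have hI : ∀ k, (I k).Finite := by
    intro k
    by_cases h : k = tm.k₀
    · subst h
      simp only [I, if_true]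
      exact Set.finite_univ
    · simp only [I, if_neg h]
      exact Set.finite_empty
  let c₀ : List Bool → ECfg tm.Γ tm.Λ tm.σ := fun w =>
    emb M (initList tm (w.map eI.invFun))
  let sI : Bool → Cell tm.Γ tm.Λ tm.σ := fun b => .col (update (fun _ => none) tm.k₀
    (some (eI.symm b)))
  let sB : Cell tm.Γ tm.Λ tm.σ := .col (fun _ => none)
  let s0 : Cell tm.Γ tm.Λ tm.σ := .ctl (some (M tm.main)) tm.initialState
  let out : Cell tm.Γ tm.Λ tm.σ → Bool := fun c => ((c.get tm.k₁).map eO).getD false
  have hstk : ∀ w k, (c₀ w).stk k = update (fun _ => []) tm.k₀ (w.map eI.symm) k := by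
    intro w k
    by_cases h : k = tm.k₀
    · subst h
      simp [c₀, emb, initList]
    · simp [c₀, emb, initList, h]
  have htraj : ∀ w t, traj (Cell.trans M) s0 sI sB w t = cells ((estep M)^[t] (c₀ w)) := by
    intro w t
    induction t with
    | zero =>
      funext i
      cases i with
      | zero => rfl
      | succ i =>
        simp only [traj, row0, iterate_zero, id_eq, cells]
        cases h : w[i]? with
        | none =>
          simp only [sB]
          congr 1
          funext k
          rw [hstk]
          by_cases hk : k = tm.k₀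
          · subst hk
            simp [h]
          · simp [update_of_ne hk]
        | some b =>
          simp only [sI]
          congr 1
          funext k
          rw [hstk]
          by_cases hk : k = tm.k₀
          · subst hk
            simp [h]
          · simp [update_of_ne hk]
    | succ t ih =>
      funext i
      simp only [traj]
      rw [ih, iterate_succ_apply', cells_estep]
  have hgood : ∀ w t, Good M I ((estep M)^[t] (c₀ w)) := by
    intro w t
    induction t with
    | zero =>
      refine ⟨mem_stmts_label M _, fun k x hx => ?_⟩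
      simp only [iterate_zero, id_eq] at hx
      rw [hstk] at hx
      by_cases hk : k = tm.k₀
      · subst hk
        left
        simp [I]
      · simp [update_of_ne hk] at hx
    | succ t ih =>
      rw [iterate_succ_apply']
      exact ih.estep
  refine ⟨Cell tm.Γ tm.Λ tm.σ, (finite_Used M I hI).toFinset, Cell.trans M, s0, sI, sB, out,
    Polynomial.C B * time, ?_, ?_⟩
  · intro w t i
    rw [Set.Finite.mem_toFinset, htraj]
    exact (hgood w t).cells i
  · intro w
    obtain ⟨⟨n, hn⟩, hle⟩ := hout w
    simp only at hn hle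
    have hn' : (flip bind (TM2.step M))^[n] (some (initList tm (w.map eI.invFun))) =
        some (haltList tm (([R w] : List Bool).map eO.invFun)) := hn
    obtain ⟨m, hm, h1⟩ := exists_iterate_step M hB _ n _ hn'
    have h2 : m ≤ (Polynomial.C B * time).eval w.length := by
      rw [Polynomial.eval_mul, Polynomial.eval_C]
      exact hm.trans (Nat.mul_le_mul_left _ hle)
    obtain ⟨d, hd⟩ := Nat.exists_eq_add_of_le' h2
    rw [htraj, hd, iterate_add_apply]
    have h3 : (estep M)^[m] (c₀ w) = emb M (haltList tm (([R w] : List Bool).map eO.invFun)) := h1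
    rw [h3]
    have h4 : emb M (haltList tm (([R w] : List Bool).map eO.invFun)) =
      ⟨none, tm.initialState, (haltList tm (([R w] : List Bool).map eO.invFun)).stk⟩ := rfl
    rw [h4, iterate_halted]
    simp [out, cells, Cell.get, haltList]

end Cells

end Pool.Agent.Lib.PT
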