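import Mathlib
import Pool.Agent.Lib.PolyTime.Lib
import Pool.Agent.Lib.PolyTime.Cells
import Pool.Agent.Lib.PolyTime.ToTM2

/-!
# Functions computed by `TM2` machines in polynomial time are `PolyTime`

`polyTime_of_TM2` and the equivalence `polyTime_iff_TM2`; as a corollary the class of functions
`List Bool → List Bool` computed by Mathlib's `TM2` machines in polynomial time is closed under
composition (`TM2ComputableInPolyTime.comp'`).
-/

set_option autoImplicit false

namespace Pool.Agent.Lib.PT

namespace Cells

open Turing Turing.TM2 Turing.TM2.Stmt Function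

theorem length_estep {K : Type} {Γ : K → Type} {Λ σ : Type} [DecidableEq K]
    (M : Λ → Stmt Γ Λ σ) (c : ECfg Γ Λ σ) (k : K) :
    ((estep M c).stk k).length ≤ (c.stk k).length + 1 := by
  obtain ⟨q, v, S⟩ := c
  rcases q with _ | q
  · simp [estep]
  · cases q with
    | push k' f q =>
      by_cases h : k = k'
      · subst h; simp [estep]
      · simp [estep, update_of_ne h]
    | pop k' f q =>
      by_cases h : k = k'
      · subst h
        simp only [estep, update_self, List.length_tail]
        omega
      · simp [estep, update_of_ne h]
    | _ => simp [estep]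

theorem length_estep_iterate {K : Type} {Γ : K → Type} {Λ σ : Type} [DecidableEq K]
    (M : Λ → Stmt Γ Λ σ) (c : ECfg Γ Λ σ) (k : K) (n : ℕ) :
    (((estep M)^[n] c).stk k).length ≤ (c.stk k).length + n := by
  induction n with
  | zero => simp
  | succ n ih =>
    rw [iterate_succ_apply']
    have := length_estep M ((estep M)^[n] c) k
    omega

/-- A machine computing `f` in polynomial time gives a cell automaton. -/
theorem exists_automaton_fun (f : List Bool → List Bool)
    (hf : Nonempty (Turing.TM2ComputableInPolyTime (fun x : List Bool => x)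
      (fun x : List Bool => x) f)) :
    ∃ (S : Type) (A : Finset S) (δ : S → S → S → S → S) (s0 : S) (sI : Bool → S) (sB : S)
      (out : S → Option Bool) (T : Polynomial ℕ),
      (∀ w t i, traj δ s0 sI sB w t i ∈ A) ∧
      (∀ w i, out (traj δ s0 sI sB w (T.eval w.length) (i + 1)) = (f w)[i]?) ∧
      ∀ w, (f w).length ≤ w.length + T.eval w.length := by
  classical
  obtain ⟨C⟩ := hf
  obtain ⟨⟨tm, eI, eO⟩, time, hout⟩ := C
  simp only at hout
  let _ := tm.kFin
  let _ := tm.ΛFin
  let _ := tm.σFin
  let _ := tm.Γk₀Fin
  let M := tm.m
  obtain ⟨B, hB⟩ : ∃ B, ∀ l, ssize (M l) ≤ B :=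
    ⟨Finset.univ.sup fun l => ssize (M l), fun l =>
      Finset.le_sup (f := fun l => ssize (M l)) (Finset.mem_univ l)⟩
  let I : ∀ k, Set (tm.Γ k) := fun k => if k = tm.k₀ then Set.univ else ∅
  have hI : ∀ k, (I k).Finite := by
    intro k
    by_cases h : k = tm.k₀
    · subst h
      simp only [I, if_true]
      exact Set.finite_univ
    · simp only [I, if_neg h]
      exact Set.finite_empty
  let c₀ : List Bool → ECfg tm.Γ tm.Λ tm.σ := fun w =>
    emb M (initList tm (w.map eI.invFun))
  let sI : Bool → Cell tm.Γ tm.Λ tm.σ := fun b => .col (update (fun _ => none) tm.k₀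
    (some (eI.symm b)))
  let sB : Cell tm.Γ tm.Λ tm.σ := .col (fun _ => none)
  let s0 : Cell tm.Γ tm.Λ tm.σ := .ctl (some (M tm.main)) tm.initialState
  let out : Cell tm.Γ tm.Λ tm.σ → Option Bool := fun c => (c.get tm.k₁).map eO
  have hstk : ∀ w k, (c₀ w).stk k = update (fun _ => []) tm.k₀ (w.map eI.symm) k := by
    intro w k
    by_cases h : k = tm.k₀
    · subst h
      simp [c₀, emb, initList]
    · simp [c₀, emb, initList, h]
  have htraj : ∀ w t, traj (Cell.trans M) s0 sI sB w t = cells ((estep M)^[t] (c₀ w)) := by
    intro w t
    induction t with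
    | zero =>
      funext i
      cases i with
      | zero => rfl
      | succ i =>
        simp only [traj, row0, iterate_zero, id_eq, cells]
        cases h : w[i]? with
        | none =>
          simp only [sB]
          congr 1
          funext k
          rw [hstk]
          by_cases hk : k = tm.k₀
          · subst hk
            simp [h]
          · simp [update_of_ne hk]
        | some b =>
          simp only [sI]
          congr 1
          funext k
          rw [hstk]
          by_cases hk : k = tm.k₀
          · subst hk
            simp [h]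
          · simp [update_of_ne hk]
    | succ t ih =>
      funext i
      simp only [traj]
      rw [ih, iterate_succ_apply', cells_estep]
  have hgood : ∀ w t, Good M I ((estep M)^[t] (c₀ w)) := by
    intro w t
    induction t with
    | zero =>
      refine ⟨mem_stmts_label M _, fun k x hx => ?_⟩
      simp only [iterate_zero, id_eq] at hx
      rw [hstk] at hx
      by_cases hk : k = tm.k₀
      · subst hk
        left
        simp [I]
      · simp [update_of_ne hk] at hx
    | succ t ih =>
      rw [iterate_succ_apply']
      exact ih.estep
  have hfinal : ∀ w, (estep M)^[(Polynomial.C B * time).eval w.length] (c₀ w) =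
      ⟨none, tm.initialState, (haltList tm ((f w).map eO.invFun)).stk⟩ := by
    intro w
    obtain ⟨⟨n, hn⟩, hle⟩ := hout w
    simp only at hn hle
    have hn' : (flip bind (TM2.step M))^[n] (some (initList tm (w.map eI.invFun))) =
        some (haltList tm ((f w).map eO.invFun)) := hn
    obtain ⟨m, hm, h1⟩ := exists_iterate_step M hB _ n _ hn'
    have h2 : m ≤ (Polynomial.C B * time).eval w.length := by
      rw [Polynomial.eval_mul, Polynomial.eval_C]
      exact hm.trans (Nat.mul_le_mul_left _ hle)
    obtain ⟨d, hd⟩ := Nat.exists_eq_add_of_le' h2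
    rw [hd, iterate_add_apply]
    have h3 : (estep M)^[m] (c₀ w) = emb M (haltList tm ((f w).map eO.invFun)) := h1
    rw [h3]
    have h4 : emb M (haltList tm ((f w).map eO.invFun)) =
      ⟨none, tm.initialState, (haltList tm ((f w).map eO.invFun)).stk⟩ := rfl
    rw [h4, iterate_halted]
  have hk1 : ∀ w, (haltList tm ((f w).map eO.invFun)).stk tm.k₁ = (f w).map eO.invFun := by
    intro w
    simp [haltList]
  refine ⟨Cell tm.Γ tm.Λ tm.σ, (finite_Used M I hI).toFinset, Cell.trans M, s0, sI, sB, out,
    Polynomial.C B * time, ?_, ?_, ?_⟩
  · intro w t i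
    rw [Set.Finite.mem_toFinset, htraj]
    exact (hgood w t).cells i
  · intro w i
    rw [htraj, hfinal]
    simp only [out, cells, Cell.get, hk1]
    simp
  · intro w
    have h1 := length_estep_iterate M (c₀ w) tm.k₁ ((Polynomial.C B * time).eval w.length)
    rw [hfinal] at h1
    simp only [hk1, List.length_map] at h1
    refine h1.trans (Nat.add_le_add_right ?_ _)
    rw [hstk]
    by_cases hk : tm.k₁ = tm.k₀
    · rw [hk, update_self, List.length_map]
    · rw [update_of_ne hk]; simp

end Cells

/-! ### Simulation of a cell automaton by a program -/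

section sim

/-- lookup in a table with four indices -/
def look4 (tab : List (List (List (List ℕ)))) (a b c d : ℕ) : ℕ :=
  (((tab.getD a []).getD b []).getD c []).getD d 0

/-- one step of the automaton, on the list of indices of the cells -/
def stepRow (tab : List (List (List (List ℕ)))) (row : List ℕ) : List ℕ :=
  (List.range row.length).map fun i =>
    look4 tab (row.getD 0 0) (row.getD (i - 1) 0) (row.getD i 0) (row.getD (i + 1) 0)

theorem PolyTime.look4 {α : Type*} [Enc α] (tab : List (List (List (List ℕ))))
    {a b c d : α → ℕ} (ha : PolyTime a) (hb : PolyTime b) (hc : PolyTime c) (hd : PolyTime d) :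
    PolyTime (fun x => Pool.Agent.Lib.PT.look4 tab (a x) (b x) (c x) (d x)) :=
  ((((PolyTime.const tab).getD ha (PolyTime.const [])).getD hb (PolyTime.const [])).getD hc
    (PolyTime.const [])).getD hd (PolyTime.const 0)

theorem PolyTime.stepRow {α : Type*} [Enc α] (tab : List (List (List (List ℕ))))
    {f : α → List ℕ} (hf : PolyTime f) :
    PolyTime (fun x => Pool.Agent.Lib.PT.stepRow tab (f x)) := by
  refine PolyTime.map (f := fun (x : α) (i : ℕ) => Pool.Agent.Lib.PT.look4 tab ((f x).getD 0 0)
    ((f x).getD (i - 1) 0) ((f x).getD i 0) ((f x).getD (i + 1) 0)) hf.length.range ?_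
  have h1 : PolyTime (fun q : α × ℕ => f q.1) := hf.comp PolyTime.id.fst
  have h2 : PolyTime (fun q : α × ℕ => q.2) := PolyTime.id.snd
  exact PolyTime.look4 tab (h1.getD (PolyTime.const 0) (PolyTime.const 0))
    (h1.getD h2.pred (PolyTime.const 0)) (h1.getD h2 (PolyTime.const 0))
    (h1.getD h2.succ (PolyTime.const 0))

theorem length_stepRow (tab : List (List (List (List ℕ)))) (row : List ℕ) :
    (stepRow tab row).length = row.length := by simp [stepRow]

theorem length_stepRow_iterate (tab : List (List (List (List ℕ)))) (row : List ℕ) (n : ℕ) :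
    ((stepRow tab)^[n] row).length = row.length := by
  induction n with
  | zero => rfl
  | succ n ih => rw [Function.iterate_succ_apply', length_stepRow, ih]

theorem range_flatMap_getElem? (l : List Bool) : ∀ N, l.length ≤ N →
    (List.range N).flatMap (fun i => l[i]?.toList) = l := by
  induction l with
  | nil => intro N _; simp
  | cons b l ih =>
    intro N hN
    cases N with
    | zero => simp at hN
    | succ N =>
      rw [List.range_succ_eq_map, List.flatMap_cons, List.flatMap_map]
      simp only [List.getElem?_cons_zero, Option.toList_some, List.getElem?_cons_succ]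
      rw [ih N (by simpa using hN)]
      rfl

variable {S : Type} [DecidableEq S] (A : List S) (δ : S → S → S → S → S) (s0 : S)
  (sI : Bool → S) (sB : S)

/-- the table of the transition function -/
def mkTab : List (List (List (List ℕ))) :=
  A.map fun a => A.map fun b => A.map fun c => A.map fun d => A.idxOf (δ a b c d)

theorem look4_mkTab {a b c d : S} (ha : a ∈ A) (hb : b ∈ A) (hc : c ∈ A) (hd : d ∈ A) :
    look4 (mkTab A δ) (A.idxOf a) (A.idxOf b) (A.idxOf c) (A.idxOf d) = A.idxOf (δ a b c d) := by
  have key : ∀ {β : Type} (g : S → β) (e : β) (s : S), s ∈ A →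
      (A.map g).getD (A.idxOf s) e = g s := by
    intro β g e s hs
    have h := List.idxOf_lt_length_iff.2 hs
    rw [List.getD_eq_getElem _ _ (by simpa using h), List.getElem_map]
    congr 1
    exact List.getElem_idxOf h
  rw [look4, mkTab, key _ _ _ ha, key _ _ _ hb, key _ _ _ hc, key _ _ _ hd]

theorem look4_mkTab_le (a b c d : ℕ) : look4 (mkTab A δ) a b c d ≤ A.length := by
  have key : ∀ {β : Type} (g : S → β) (e : β) (n : ℕ) (P : β → Prop), (∀ s, P (g s)) → P e →
      P ((A.map g).getD n e) := by
    intro β g e n P h1 h2
    rcases lt_or_ge n (A.map g).length with h | h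
    · rw [List.getD_eq_getElem _ _ h, List.getElem_map]
      exact h1 _
    · rw [List.getD_eq_default _ _ h]
      exact h2
  rw [look4, mkTab]
  refine key _ _ _ (fun t : List (List (List ℕ)) => ((t.getD b []).getD c []).getD d 0 ≤ A.length)
    (fun a' => ?_) (by simp)
  refine key _ _ _ (fun t : List (List ℕ) => (t.getD c []).getD d 0 ≤ A.length)
    (fun b' => ?_) (by simp)
  refine key _ _ _ (fun t : List ℕ => t.getD d 0 ≤ A.length) (fun c' => ?_) (by simp)
  refine key _ _ _ (fun t : ℕ => t ≤ A.length) (fun d' => ?_) (by simp)
  exact List.idxOf_le_length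

theorem mem_stepRow_le {row : List ℕ} {x : ℕ} (hx : x ∈ stepRow (mkTab A δ) row) :
    x ≤ A.length := by
  rw [stepRow, List.mem_map] at hx
  obtain ⟨i, _, rfl⟩ := hx
  exact look4_mkTab_le A δ _ _ _ _

/-- initial row, as a list -/
def initRow (w : List Bool) (N : ℕ) : List ℕ :=
  A.idxOf s0 :: (w.map (fun b => bif b then A.idxOf (sI true) else A.idxOf (sI false)) ++
    List.replicate N (A.idxOf sB))

theorem length_initRow (w : List Bool) (N : ℕ) :
    (initRow A s0 sI sB w N).length = w.length + N + 1 := by
  simp [initRow]

theorem initRow_getD (w : List Bool) (N i : ℕ) (hi : i < w.length + N + 1) :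
    (initRow A s0 sI sB w N).getD i 0 = A.idxOf (row0 s0 sI sB w i) := by
  cases i with
  | zero => rfl
  | succ i =>
    rw [initRow, List.getD_cons_succ, row0]
    rcases lt_or_ge i w.length with h | h
    · rw [List.getD_append _ _ _ _ (by simpa using h), List.getD_eq_getElem _ _ (by simpa using h),
        List.getElem_map, List.getElem?_eq_getElem h]
      simp only
      cases w[i] <;> rfl
    · rw [List.getD_append_right _ _ _ _ (by simpa using h), List.length_map,
        List.getElem?_eq_none h, List.getD_eq_getElem _ _ (by
          rw [List.length_replicate]; omega), List.getElem_replicate]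

theorem stepRow_iterate_getD (hA : ∀ w t i, traj δ s0 sI sB w t i ∈ A) (w : List Bool) (N : ℕ) :
    ∀ t i, i + t < w.length + N + 1 →
      ((stepRow (mkTab A δ))^[t] (initRow A s0 sI sB w N)).getD i 0 =
        A.idxOf (traj δ s0 sI sB w t i) := by
  intro t
  induction t with
  | zero => intro i hi; exact initRow_getD A s0 sI sB w N i hi
  | succ t ih =>
    intro i hi
    rw [Function.iterate_succ_apply']
    have hl := length_stepRow_iterate (mkTab A δ) (initRow A s0 sI sB w N) t
    rw [length_initRow] at hl
    have hi' : i < ((stepRow (mkTab A δ))^[t] (initRow A s0 sI sB w N)).length := by omega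
    conv_lhs => rw [stepRow]
    rw [List.getD_eq_getElem _ _ (by simpa using hi'), List.getElem_map, List.getElem_range,
      ih 0 (by omega), ih (i - 1) (by omega), ih i (by omega), ih (i + 1) (by omega),
      look4_mkTab A δ (hA _ _ _) (hA _ _ _) (hA _ _ _) (hA _ _ _)]
    rfl

theorem sz_initRow_iterate (w : List Bool) (N t : ℕ) :
    sz ((stepRow (mkTab A δ))^[t] (initRow A s0 sI sB w N)) ≤
      (w.length + N + 1) * (2 * A.length + 2) + 1 := by
  refine sz_le_of_length (B := 2 * A.length + 1) ?_ ?_
  · rw [length_stepRow_iterate, length_initRow]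
  · intro x hx
    rw [sz_nat]
    have : x ≤ A.length := by
      cases t with
      | zero =>
        simp only [Function.iterate_zero, id_eq, initRow, List.mem_cons, List.mem_append,
          List.mem_map, List.mem_replicate] at hx
        rcases hx with rfl | ⟨b, _, rfl⟩ | ⟨_, rfl⟩
        · exact List.idxOf_le_length
        · cases b <;> exact List.idxOf_le_length
        · exact List.idxOf_le_length
      | succ t =>
        rw [Function.iterate_succ_apply'] at hx
        exact mem_stepRow_le A δ hx
    omega

end sim

/-- **Functions computed by `TM2` machines in polynomial time are `PolyTime`.** -/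
theorem polyTime_of_TM2 (f : List Bool → List Bool)
    (hf : Nonempty (Turing.TM2ComputableInPolyTime (fun x : List Bool => x)
      (fun x : List Bool => x) f)) : PolyTime f := by
  classical
  obtain ⟨S, A', δ, s0, sI, sB, out, T, hA', hout, hlen⟩ := Cells.exists_automaton_fun f hf
  set A := A'.toList with hAdef
  have hA : ∀ w t i, traj δ s0 sI sB w t i ∈ A := fun w t i => by
    rw [hAdef, Finset.mem_toList]; exact hA' w t i
  set tab := mkTab A δ
  -- numbers
  have hw : PolyTime (fun w : List Bool => w.length) := PolyTime.id.length
  have hT : PolyTime (fun w : List Bool => T.eval w.length) := PolyTime.polyEval T hw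
  set N : List Bool → ℕ := fun w => w.length + T.eval w.length with hNdef
  have hN : PolyTime N := hw.add hT
  set W : List Bool → ℕ := fun w => N w + T.eval w.length + 2 with hWdef
  have hW : PolyTime W := (hN.add hT).add (PolyTime.const 2)
  -- initial row
  have hinit : PolyTime (fun w => initRow A s0 sI sB w (W w)) := by
    refine (PolyTime.const _).cons (PolyTime.append (PolyTime.map (f := fun (_ : List Bool) b =>
      bif b then A.idxOf (sI true) else A.idxOf (sI false)) PolyTime.id ?_) ?_)
    · exact PolyTime.id.snd.cond (PolyTime.const _) (PolyTime.const _)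
    · exact hW.replicate (PolyTime.const _)
  -- final row
  have hfin : PolyTime (fun w => (stepRow tab)^[T.eval w.length]
      (initRow A s0 sI sB w (W w))) := by
    refine PolyTime.iterate (f := fun (_ : List Bool) => stepRow tab) hT hinit
      (PolyTime.stepRow tab PolyTime.id.snd) ?_
    obtain ⟨p, hp⟩ := hW.sz_le
    refine ⟨(Polynomial.X + p + 1) * Polynomial.C (2 * A.length + 2) + 1, fun w i _ => ?_⟩
    refine (sz_initRow_iterate A δ s0 sI sB w (W w) i).trans ?_
    have h1 := hp w
    rw [sz_nat] at h1
    have h2 := length_lt_sz w
    simp only [Polynomial.eval_add, Polynomial.eval_mul, Polynomial.eval_X, Polynomial.eval_C,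
      Polynomial.eval_one]
    refine Nat.add_le_add_right (Nat.mul_le_mul_right _ ?_) _
    omega
  -- output
  have hres : PolyTime (fun w => (List.range (N w)).flatMap fun i =>
      (A.map fun s => (out s).toList).getD (((stepRow tab)^[T.eval w.length]
        (initRow A s0 sI sB w (W w))).getD (i + 1) 0) []) := by
    refine PolyTime.flatMap (f := fun (w : List Bool) i =>
      (A.map fun s => (out s).toList).getD (((stepRow tab)^[T.eval w.length]
        (initRow A s0 sI sB w (W w))).getD (i + 1) 0) []) hN.range ?_
    exact (PolyTime.const _).getD ((hfin.comp PolyTime.id.fst).getD PolyTime.id.snd.succ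
      (PolyTime.const 0)) (PolyTime.const [])
  refine hres.congr fun w => ?_
  have key : ∀ i ∈ List.range (N w), (A.map fun s => (out s).toList).getD
      (((stepRow tab)^[T.eval w.length] (initRow A s0 sI sB w (W w))).getD (i + 1) 0) [] =
        ((f w)[i]?).toList := by
    intro i hi
    rw [List.mem_range] at hi
    rw [stepRow_iterate_getD A δ s0 sI sB hA w (W w) (T.eval w.length) (i + 1) (by
      simp only [hWdef]; omega)]
    have hmem := hA w (T.eval w.length) (i + 1)
    have h := List.idxOf_lt_length_iff.2 hmem
    rw [List.getD_eq_getElem _ _ (by simpa using h), List.getElem_map, List.getElem_idxOf h,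
      hout]
  rw [List.flatMap_congr key]
  exact range_flatMap_getElem? _ _ (hlen w)

/-- `PolyTime` is the same as computability by a `TM2` machine in polynomial time. -/
theorem polyTime_iff_TM2 (f : List Bool → List Bool) :
    PolyTime f ↔ Nonempty (Turing.TM2ComputableInPolyTime (fun x : List Bool => x)
      (fun x : List Bool => x) f) :=
  ⟨fun h => ToTM2.polyTime_toTM2 f h, polyTime_of_TM2 f⟩

/-- composition of polynomial-time computable functions -/
theorem TM2_comp {f g : List Bool → List Bool}
    (hg : Nonempty (Turing.TM2ComputableInPolyTime (fun x : List Bool => x)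
      (fun x : List Bool => x) g))
    (hf : Nonempty (Turing.TM2ComputableInPolyTime (fun x : List Bool => x)
      (fun x : List Bool => x) f)) :
    Nonempty (Turing.TM2ComputableInPolyTime (fun x : List Bool => x)
      (fun x : List Bool => x) (fun x => g (f x))) :=
  (polyTime_iff_TM2 _).1 (((polyTime_iff_TM2 g).2 hg).comp ((polyTime_iff_TM2 f).2 hf))

end Pool.Agent.Lib.PT
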