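import Pool.Agent.Lib.PolyTime.Basic
import Pool.Agent.Lib.PolyTime.Cells

/-!
# NAND circuits simulating cell automata
-/

set_option autoImplicit false

namespace Pool.Agent.Lib.PT

/-- NAND formulas -/
inductive NExp (V : Type) : Type
  | var : V → NExp V
  | cst : Bool → NExp V
  | nand : NExp V → NExp V → NExp V

namespace NExp

variable {V : Type}

/-- value of a formula -/
def eval (x : V → Bool) : NExp V → Bool
  | var v => x v
  | cst b => b
  | nand a b => !(eval x a && eval x b)

/-- negation -/
def not' (a : NExp V) : NExp V := nand a a

/-- conjunction -/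
def and' (a b : NExp V) : NExp V := not' (nand a b)

/-- disjunction -/
def or' (a b : NExp V) : NExp V := nand (not' a) (not' b)

@[simp] theorem eval_not' (x : V → Bool) (a : NExp V) : (not' a).eval x = !(a.eval x) := by
  simp [not', eval]

@[simp] theorem eval_and' (x : V → Bool) (a b : NExp V) :
    (and' a b).eval x = (a.eval x && b.eval x) := by
  simp [and', eval]

@[simp] theorem eval_or' (x : V → Bool) (a b : NExp V) :
    (or' a b).eval x = (a.eval x || b.eval x) := by
  simp [or', eval]

/-- conjunction of a list -/
def andL (l : List (NExp V)) : NExp V := l.foldr and' (cst true)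

/-- disjunction of a list -/
def orL (l : List (NExp V)) : NExp V := l.foldr or' (cst false)

theorem eval_andL (x : V → Bool) (l : List (NExp V)) :
    (andL l).eval x = true ↔ ∀ e ∈ l, e.eval x = true := by
  induction l with
  | nil => simp [andL, eval]
  | cons a l ih =>
    have : andL (a :: l) = and' a (andL l) := rfl
    rw [this, eval_and', Bool.and_eq_true, ih]
    simp

theorem eval_orL (x : V → Bool) (l : List (NExp V)) :
    (orL l).eval x = true ↔ ∃ e ∈ l, e.eval x = true := by
  induction l with
  | nil => simp [orL, eval]
  | cons a l ih =>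
    have : orL (a :: l) = or' a (orL l) := rfl
    rw [this, eval_or', Bool.or_eq_true, ih]
    simp

/-- Every Boolean function is given by a formula. -/
theorem exists_eval_eq [Fintype V] (f : (V → Bool) → Bool) :
    ∃ e : NExp V, ∀ x, e.eval x = f x := by
  classical
  let lit : (V → Bool) → V → NExp V := fun a v => if a v then var v else not' (var v)
  let tst : (V → Bool) → NExp V := fun a => andL (Finset.univ.toList.map (lit a))
  refine ⟨orL ((Finset.univ.filter fun a => f a = true).toList.map tst), fun x => ?_⟩
  have h1 : ∀ a, (tst a).eval x = true ↔ x = a := by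
    intro a
    simp only [tst]
    rw [eval_andL]
    simp only [List.mem_map, Finset.mem_toList, Finset.mem_univ, true_and, forall_exists_index,
      forall_apply_eq_imp_iff]
    constructor
    · intro h
      funext v
      have := h v
      simp only [lit] at this
      cases hav : a v <;> simp [hav, eval] at this <;> exact this
    · rintro rfl v
      simp only [lit]
      cases hav : x v <;> simp [eval, hav]
  rw [Bool.eq_iff_iff, eval_orL]
  simp only [List.mem_map, Finset.mem_toList, Finset.mem_filter, Finset.mem_univ, true_and,
    exists_exists_and_eq_and]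
  constructor
  · rintro ⟨a, ha, hx⟩
    rw [h1] at hx
    rwa [hx]
  · intro h
    exact ⟨x, h, (h1 x).mpr rfl⟩

/-- Every Boolean function is given by a formula whose main connective is `nand`. -/
theorem exists_nand_eval_eq [Fintype V] (f : (V → Bool) → Bool) :
    ∃ a b : NExp V, ∀ x, (nand a b).eval x = f x := by
  obtain ⟨e, he⟩ := exists_eval_eq (fun x => !(f x))
  exact ⟨e, e, fun x => by simp [eval, he]⟩

/-- number of gates -/
def glen : NExp V → ℕ
  | var _ => 0
  | cst _ => 0
  | nand a b => glen a + glen b + 1

/-- result wire, when the gates start at wire number `n` -/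
def res (pos : V → ℕ) (c1 c0 : ℕ) : NExp V → ℕ → ℕ
  | var x, _ => pos x
  | cst b, _ => bif b then c1 else c0
  | nand a b, n => n + (glen a + glen b)

/-- gates -/
def gts (pos : V → ℕ) (c1 c0 : ℕ) : NExp V → ℕ → List (ℕ × ℕ)
  | var _, _ => []
  | cst _, _ => []
  | nand a b, n => gts pos c1 c0 a n ++ (gts pos c1 c0 b (n + glen a) ++
      [(res pos c1 c0 a n, res pos c1 c0 b (n + glen a))])

end NExp

/-! ### Running NAND programs -/

theorem runNand_append (gs gs' : List (ℕ × ℕ)) (v : List Bool) :
    runNand (gs ++ gs') v = runNand gs' (runNand gs v) := by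
  induction gs generalizing v with
  | nil => rfl
  | cons g gs ih => obtain ⟨i, j⟩ := g; simp only [List.cons_append, runNand]; exact ih _

theorem length_runNand (gs : List (ℕ × ℕ)) (v : List Bool) :
    (runNand gs v).length = v.length + gs.length := by
  induction gs generalizing v with
  | nil => rfl
  | cons g gs ih =>
    obtain ⟨i, j⟩ := g
    simp only [runNand, ih, List.length_append, List.length_cons, List.length_nil]
    omega

theorem getD_runNand (gs : List (ℕ × ℕ)) (v : List Bool) {i : ℕ} (hi : i < v.length) :
    (runNand gs v).getD i false = v.getD i false := by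
  induction gs generalizing v with
  | nil => rfl
  | cons g gs ih =>
    obtain ⟨a, b⟩ := g
    simp only [runNand]
    rw [ih _ (by simp; omega), List.getD_append _ _ _ _ hi]

/-- all wires used by the gates are already defined, if there are `n` wires at the beginning -/
def WFr : ℕ → List (ℕ × ℕ) → Prop
  | _, [] => True
  | n, g :: gs => (g.1 < n ∧ g.2 < n) ∧ WFr (n + 1) gs

theorem wfr_append (n : ℕ) (gs gs' : List (ℕ × ℕ)) :
    WFr n (gs ++ gs') ↔ WFr n gs ∧ WFr (n + gs.length) gs' := by
  induction gs generalizing n with
  | nil => simp [WFr]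
  | cons g gs ih =>
    simp only [List.cons_append, WFr, ih, List.length_cons]
    rw [show n + 1 + gs.length = n + (gs.length + 1) by omega]
    tauto

theorem WFr.getElem {n : ℕ} {gs : List (ℕ × ℕ)} (h : WFr n gs) (k : ℕ) (hk : k < gs.length) :
    (gs[k]).1 < n + k ∧ (gs[k]).2 < n + k := by
  induction gs generalizing n k with
  | nil => simp at hk
  | cons g gs ih =>
    cases k with
    | zero => simpa using h.1
    | succ k =>
      have := ih h.2 k (by simpa using hk)
      simp only [List.getElem_cons_succ]
      omega

namespace NExp

variable {V : Type} {pos : V → ℕ} {c1 c0 : ℕ}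

theorem length_gts (e : NExp V) (n : ℕ) : (gts pos c1 c0 e n).length = glen e := by
  induction e generalizing n with
  | var x => rfl
  | cst b => rfl
  | nand a b iha ihb => simp [gts, iha, ihb, glen]; omega

theorem res_lt (e : NExp V) {n : ℕ} (hpos : ∀ x, pos x < n) (h1 : c1 < n) (h0 : c0 < n) :
    res pos c1 c0 e n < n + glen e := by
  cases e with
  | var x => have := hpos x; simp only [res, glen]; omega
  | cst b => cases b <;> simp only [res, glen, cond_true, cond_false] <;> omega
  | nand a b => simp only [res, glen]; omega

theorem wfr_gts (e : NExp V) {n : ℕ} (hpos : ∀ x, pos x < n) (h1 : c1 < n) (h0 : c0 < n) :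
    WFr n (gts pos c1 c0 e n) := by
  induction e generalizing n with
  | var x => trivial
  | cst b => trivial
  | nand a b iha ihb =>
    have hpos' : ∀ x, pos x < n + glen a := fun x => by have := hpos x; omega
    simp only [gts]
    rw [wfr_append, length_gts, wfr_append, length_gts]
    refine ⟨iha hpos h1 h0, ihb hpos' (by omega) (by omega), ⟨?_, ?_⟩, trivial⟩
    · have := res_lt a hpos h1 h0
      simp only; omega
    · exact res_lt b hpos' (by omega) (by omega)

theorem run_gts (e : NExp V) {n : ℕ} {v : List Bool} (hv : v.length = n)
    (hpos : ∀ x, pos x < n) (h1 : c1 < n) (h0 : c0 < n)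
    (hc1 : v.getD c1 false = true) (hc0 : v.getD c0 false = false) :
    (runNand (gts pos c1 c0 e n) v).getD (res pos c1 c0 e n) false =
      e.eval (fun x => v.getD (pos x) false) := by
  induction e generalizing n v with
  | var x => rfl
  | cst b => cases b <;> simp only [gts, runNand, res, eval, cond_true, cond_false, hc1, hc0]
  | nand a b iha ihb =>
    have hg : gts pos c1 c0 (nand a b) n = gts pos c1 c0 a n ++ (gts pos c1 c0 b (n + glen a) ++
      [(res pos c1 c0 a n, res pos c1 c0 b (n + glen a))]) := rfl
    have hr : res pos c1 c0 (nand a b) n = n + (glen a + glen b) := rfl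
    rw [hg, hr, runNand_append, runNand_append]
    set v1 := runNand (gts pos c1 c0 a n) v with hv1
    have hl1 : v1.length = n + glen a := by rw [hv1, length_runNand, length_gts, hv]
    have hpos' : ∀ x, pos x < n + glen a := fun x => by have := hpos x; omega
    have e1 : v1.getD (res pos c1 c0 a n) false = a.eval (fun x => v.getD (pos x) false) :=
      iha hv hpos h1 h0 hc1 hc0
    have hx : ∀ x, v1.getD (pos x) false = v.getD (pos x) false := fun x =>
      getD_runNand _ _ (by rw [hv]; exact hpos x)
    have e2 := ihb hl1 hpos' (by omega) (by omega)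
      (by rw [hv1, getD_runNand _ _ (by omega)]; exact hc1)
      (by rw [hv1, getD_runNand _ _ (by omega)]; exact hc0)
    simp only [hx] at e2
    set v2 := runNand (gts pos c1 c0 b (n + glen a)) v1 with hv2
    have hl2 : v2.length = n + glen a + glen b := by rw [hv2, length_runNand, length_gts, hl1]
    have hra : res pos c1 c0 a n < n + glen a := res_lt a hpos h1 h0
    have e3 : v2.getD (res pos c1 c0 a n) false = a.eval (fun x => v.getD (pos x) false) := by
      rw [hv2, getD_runNand _ _ (by omega), e1]
    simp only [runNand]
    rw [List.getD_append_right _ _ _ _ (by omega), hl2,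
      show n + (glen a + glen b) - (n + glen a + glen b) = 0 by omega]
    simp only [List.getD_cons_zero, eval]
    rw [e3, e2]

/-- gates for a list of formulas -/
def blk (pos : V → ℕ) (c1 c0 : ℕ) : List (NExp V) → ℕ → List (ℕ × ℕ)
  | [], _ => []
  | e :: es, n => gts pos c1 c0 e n ++ blk pos c1 c0 es (n + glen e)

/-- total number of gates of a list of formulas -/
def blen : List (NExp V) → ℕ
  | [] => 0
  | e :: es => glen e + blen es

/-- relative position of the output of the `j`-th formula, if it is a `nand` -/
def off : List (NExp V) → ℕ → ℕ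
  | [], _ => 0
  | e :: _, 0 => glen e - 1
  | e :: es, j + 1 => glen e + off es j

theorem length_blk (es : List (NExp V)) (n : ℕ) : (blk pos c1 c0 es n).length = blen es := by
  induction es generalizing n with
  | nil => rfl
  | cons e es ih => simp [blk, blen, length_gts, ih]

/-- being a `nand` -/
def IsNand (e : NExp V) : Prop := ∃ a b, e = nand a b

theorem off_lt {es : List (NExp V)} (hes : ∀ e ∈ es, IsNand e) {j : ℕ} (hj : j < es.length) :
    off es j < blen es := by
  induction es generalizing j with
  | nil => simp at hj
  | cons e es ih =>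
    obtain ⟨a, b, rfl⟩ := hes e (by simp)
    cases j with
    | zero => simp only [off, blen, glen]; omega
    | succ j =>
      have := ih (fun e he => hes e (by simp [he])) (j := j) (by simpa using hj)
      simp only [off, blen]
      omega

theorem wfr_blk (es : List (NExp V)) {n : ℕ} (hpos : ∀ x, pos x < n) (h1 : c1 < n)
    (h0 : c0 < n) : WFr n (blk pos c1 c0 es n) := by
  induction es generalizing n with
  | nil => trivial
  | cons e es ih =>
    simp only [blk]
    rw [wfr_append, length_gts]
    exact ⟨wfr_gts e hpos h1 h0, ih (fun x => by have := hpos x; omega) (by omega) (by omega)⟩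

theorem run_blk (es : List (NExp V)) (hes : ∀ e ∈ es, IsNand e) {n : ℕ} {v : List Bool}
    (hv : v.length = n)
    (hpos : ∀ x, pos x < n) (h1 : c1 < n) (h0 : c0 < n)
    (hc1 : v.getD c1 false = true) (hc0 : v.getD c0 false = false) (j : ℕ)
    (hj : j < es.length) :
    (runNand (blk pos c1 c0 es n) v).getD (n + off es j) false =
      (es[j]).eval (fun x => v.getD (pos x) false) := by
  induction es generalizing n v j with
  | nil => simp at hj
  | cons e es ih =>
    simp only [blk]
    rw [runNand_append]
    set v1 := runNand (gts pos c1 c0 e n) v with hv1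
    have hl1 : v1.length = n + glen e := by rw [hv1, length_runNand, length_gts, hv]
    cases j with
    | zero =>
      obtain ⟨a, b, rfl⟩ := hes e (by simp)
      have h2 : off (nand a b :: es) 0 = glen a + glen b := by simp [off, glen]
      rw [h2, getD_runNand _ _ (by rw [hl1, glen]; omega)]
      exact run_gts (nand a b) hv hpos h1 h0 hc1 hc0
    | succ j =>
      have hx : ∀ x, v1.getD (pos x) false = v.getD (pos x) false := fun x =>
        getD_runNand _ _ (by rw [hv]; exact hpos x)
      have := ih (fun e he => hes e (by simp [he])) hl1 (fun x => by have := hpos x; omega)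
        (by omega) (by omega)
        (by rw [hv1, getD_runNand _ _ (by omega)]; exact hc1)
        (by rw [hv1, getD_runNand _ _ (by omega)]; exact hc0) j (by simpa using hj)
      simp only [hx] at this
      simp only [off, List.getElem_cons_succ]
      rw [show n + (glen e + off es j) = n + glen e + off es j by omega]
      exact this

end NExp

open NExp

/-! ### The circuit of a cell automaton -/

/-- variables of the transition formulas: bits of the four old cells, and four mode bits -/
abbrev CVar (r : ℕ) : Type := (Fin 4 × Fin r) ⊕ Fin 4

/-- index of the `a`-th neighbour -/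
def nb (a : Fin 4) (i : ℕ) : ℕ :=
  if a = 0 then 0 else if a = 1 then i - 1 else if a = 2 then i else i + 1

/-- positions of the variables, for the cell `i` in row `t`, input length `L`, width `W`;
`B`: number of gates per cell, `o j`: relative position of the `j`-th output. -/
def cpos {r : ℕ} (B : ℕ) (o : ℕ → ℕ) (L W t i : ℕ) : CVar r → ℕ
  | .inl (a, j) => if t = 0 then L + 2 else L + 3 + ((t - 1) * W + nb a i) * B + o j
  | .inr a =>
    if a = 0 then (if t = 0 then L + 1 else L + 2)
    else if a = 1 then (if i = 0 then L + 1 else L + 2)
    else if a = 2 then (if i ≤ L then L + 1 else L + 2)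
    else (if i = 0 then L + 2 else if i ≤ L then i - 1 else L + 2)

/-- gates of the cell `i` in row `t` -/
def cellGates {r : ℕ} (es : List (NExp (CVar r))) (L W t i : ℕ) : List (ℕ × ℕ) :=
  blk (cpos (blen es) (off es) L W t i) (L + 1) (L + 2) es (L + 3 + (t * W + i) * blen es)

/-- the circuit -/
def circ {r : ℕ} (es : List (NExp (CVar r))) (eo : NExp (Fin r)) (T : ℕ → ℕ) (L : ℕ) :
    List (ℕ × ℕ) :=
  [(0, 0), (0, L), (L + 1, L + 1)] ++
    ((List.range (T L + 1)).flatMap fun t => (List.range (T L + 2)).flatMap fun i =>
      cellGates es L (T L + 2) t i) ++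
    gts (fun j : Fin r => L + 3 + (T L * (T L + 2) + 1) * blen es + off es j) (L + 1) (L + 2) eo
      (L + 3 + (T L + 1) * (T L + 2) * blen es)

theorem cpos_lt {r : ℕ} {es : List (NExp (CVar r))} (hlen : es.length = r)
    (hes : ∀ e ∈ es, IsNand e) {L W t i : ℕ} (hW : 2 ≤ W) (x : CVar r) :
    cpos (blen es) (off es) L W t i x < L + 3 + (t * W + i) * blen es := by
  rcases x with ⟨a, j⟩ | a
  · simp only [cpos]
    split_ifs with ht
    · omega
    · have h1 : off es j < blen es := off_lt hes (by rw [hlen]; exact j.2)
      have h2 : nb a i ≤ i + 1 := by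
        unfold nb
        split_ifs <;> omega
      obtain ⟨t', rfl⟩ := Nat.exists_eq_succ_of_ne_zero ht
      have h3 : t' * W + nb a i + 1 ≤ (t' + 1) * W + i := by
        rw [Nat.add_mul]; omega
      have h4 : (t' * W + nb a i + 1) * blen es ≤ ((t' + 1) * W + i) * blen es :=
        Nat.mul_le_mul_right _ h3
      rw [Nat.add_mul _ 1] at h4
      simp only [Nat.succ_eq_add_one, Nat.add_sub_cancel]
      omega
  · simp only [cpos]
    split_ifs <;> omega

section

variable {S : Type} (δ : S → S → S → S → S) (s0 : S) (sI : Bool → S) (sB : S)
  {r : ℕ} (enc' : S → Fin r → Bool) (es : List (NExp (CVar r)))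

/-- the invariant -/
structure CInv (w : List Bool) (L W n : ℕ) (v : List Bool) : Prop where
  len : v.length = L + 3 + n * blen es
  inp : ∀ i < L, v.getD i false = w.getD i false
  one : v.getD (L + 1) false = true
  zero : v.getD (L + 2) false = false
  cell : ∀ t i, i < W → t * W + i < n → t + i < W → ∀ j : Fin r,
    v.getD (L + 3 + (t * W + i) * blen es + off es j) false =
      enc' (traj δ s0 sI sB w t i) j

/-- the specification of the transition formulas -/
structure CSpec (A : Finset S) : Prop where
  len : es.length = r
  nand : ∀ e ∈ es, IsNand e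
  spec0 : ∀ (y : CVar r → Bool) (j : Fin r) (hj : (j : ℕ) < es.length), y (.inr 0) = true →
    (es[(j : ℕ)]).eval y =
      enc' (if y (.inr 1) then s0 else if y (.inr 2) then sI (y (.inr 3)) else sB) j
  spec1 : ∀ (y : CVar r → Bool) (j : Fin r) (hj : (j : ℕ) < es.length) (a b c d : S), a ∈ A →
    b ∈ A → c ∈ A → d ∈ A → y (.inr 0) = false → (∀ k, y (.inl (0, k)) = enc' a k) →
    (∀ k, y (.inl (1, k)) = enc' b k) → (∀ k, y (.inl (2, k)) = enc' c k) →
    (∀ k, y (.inl (3, k)) = enc' d k) →
    (es[(j : ℕ)]).eval y = enc' (δ a b c d) j

variable {δ s0 sI sB enc' es}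

theorem CInv.step {A : Finset S} (hs : CSpec δ s0 sI sB enc' es A) {w : List Bool}
    (hA : ∀ t i, traj δ s0 sI sB w t i ∈ A) {W : ℕ} (hW : 2 ≤ W) {t i : ℕ} (hi : i < W)
    {v : List Bool} (h : CInv δ s0 sI sB enc' es w w.length W (t * W + i) v) :
    CInv δ s0 sI sB enc' es w w.length W (t * W + i + 1)
      (runNand (cellGates es w.length W t i) v) := by
  have hpl := cpos_lt hs.len hs.nand (L := w.length) (t := t) (i := i) hW
  refine ⟨?_, ?_, ?_, ?_, ?_⟩
  · rw [length_runNand, cellGates, length_blk, h.len, Nat.add_mul _ 1]
    omega
  · intro k hk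
    rw [getD_runNand _ _ (by rw [h.len]; omega)]
    exact h.inp k hk
  · rw [getD_runNand _ _ (by rw [h.len]; omega)]
    exact h.one
  · rw [getD_runNand _ _ (by rw [h.len]; omega)]
    exact h.zero
  · intro t' i' hi' hlt hcone j
    rcases Nat.lt_succ_iff_lt_or_eq.mp hlt with hlt | heq
    · have h1 : off es j < blen es := off_lt hs.nand (by rw [hs.len]; exact j.2)
      have h2 : (t' * W + i' + 1) * blen es ≤ (t * W + i) * blen es := Nat.mul_le_mul_right _ hlt
      rw [Nat.add_mul _ 1] at h2
      rw [getD_runNand _ _ (by rw [h.len]; omega)]
      exact h.cell t' i' hi' hlt hcone j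
    · obtain ⟨rfl, rfl⟩ : t' = t ∧ i' = i := by
        have h1 : (t' * W + i') / W = (t * W + i) / W := by rw [heq]
        have h2 : (t' * W + i') % W = (t * W + i) % W := by rw [heq]
        have hW0 : 0 < W := by omega
        rw [Nat.add_comm, Nat.add_mul_div_right _ _ hW0, Nat.div_eq_of_lt hi', Nat.add_comm (t * W),
          Nat.add_mul_div_right _ _ hW0, Nat.div_eq_of_lt hi] at h1
        rw [Nat.add_comm, Nat.add_mul_mod_self_right, Nat.mod_eq_of_lt hi', Nat.add_comm (t * W),
          Nat.add_mul_mod_self_right, Nat.mod_eq_of_lt hi] at h2
        omega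
      have hj : (j : ℕ) < es.length := by rw [hs.len]; exact j.2
      have hrun := run_blk (pos := cpos (blen es) (off es) w.length W t' i') (c1 := w.length + 1)
        (c0 := w.length + 2) es hs.nand h.len hpl (by omega) (by omega) h.one h.zero j hj
      rw [cellGates, hrun]
      cases t' with
      | zero =>
        rw [hs.spec0 _ j hj (by simp only [cpos, if_true]; exact h.one)]
        congr 1
        cases i' with
        | zero =>
          have : v.getD (cpos (blen es) (off es) w.length W 0 0 (.inr (1 : Fin 4) : CVar r))
              false = true := by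
            simp only [cpos]
            simpa using h.one
          rw [if_pos this]
          rfl
        | succ i' =>
          have e1 : v.getD (cpos (blen es) (off es) w.length W 0 (i' + 1)
              (.inr (1 : Fin 4) : CVar r)) false = false := by
            simp only [cpos]
            simpa using h.zero
          rw [if_neg (by rw [e1]; simp)]
          simp only [traj, row0]
          by_cases hlt' : i' < w.length
          · have e2 : v.getD (cpos (blen es) (off es) w.length W 0 (i' + 1)
                (.inr (2 : Fin 4) : CVar r)) false = true := by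
              have : i' + 1 ≤ w.length := hlt'
              simp only [cpos]
              simpa [this] using h.one
            have e3 : v.getD (cpos (blen es) (off es) w.length W 0 (i' + 1)
                (.inr (3 : Fin 4) : CVar r)) false = w[i'] := by
              have h5 : i' + 1 ≤ w.length := hlt'
              have h6 : cpos (blen es) (off es) w.length W 0 (i' + 1)
                (.inr (3 : Fin 4) : CVar r) = i' := by
                simp only [cpos]
                simp [h5]
              rw [h6, h.inp i' hlt', List.getD_eq_getElem _ _ hlt']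
            rw [if_pos e2, e3, List.getElem?_eq_getElem hlt']
          · have e2 : v.getD (cpos (blen es) (off es) w.length W 0 (i' + 1)
                (.inr (2 : Fin 4) : CVar r)) false = false := by
              have : ¬ i' + 1 ≤ w.length := by omega
              simp only [cpos]
              simpa [this] using h.zero
            rw [if_neg (by rw [e2]; simp), List.getElem?_eq_none (by omega)]
      | succ t' =>
        have hcell : ∀ (a : Fin 4) (k : Fin r),
            v.getD (cpos (blen es) (off es) w.length W (t' + 1) i' (.inl (a, k))) false =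
              enc' (traj δ s0 sI sB w t' (nb a i')) k := by
          intro a k
          have hnb : nb a i' ≤ i' + 1 := by unfold nb; split_ifs <;> omega
          simp only [cpos, Nat.add_sub_cancel, Nat.succ_ne_zero, if_false]
          apply h.cell t' (nb a i') (by omega) _ (by omega) k
          rw [Nat.add_mul]
          omega
        rw [hs.spec1 _ j hj (traj δ s0 sI sB w t' 0) (traj δ s0 sI sB w t' (i' - 1))
          (traj δ s0 sI sB w t' i') (traj δ s0 sI sB w t' (i' + 1)) (hA _ _) (hA _ _) (hA _ _)
          (hA _ _) _ (fun k => hcell 0 k) (fun k => hcell 1 k) (fun k => hcell 2 k)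
          (fun k => hcell 3 k)]
        · rfl
        · simp only [cpos]
          simpa using h.zero

theorem CInv.row {A : Finset S} (hs : CSpec δ s0 sI sB enc' es A) {w : List Bool}
    (hA : ∀ t i, traj δ s0 sI sB w t i ∈ A) {W : ℕ} (hW : 2 ≤ W) {t : ℕ} (k : ℕ) (hk : k ≤ W)
    {v : List Bool} (h : CInv δ s0 sI sB enc' es w w.length W (t * W) v) :
    CInv δ s0 sI sB enc' es w w.length W (t * W + k)
      (runNand ((List.range k).flatMap fun i => cellGates es w.length W t i) v) := by
  induction k with
  | zero => exact h
  | succ k ih =>
    rw [List.range_succ, List.flatMap_append, runNand_append]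
    simp only [List.flatMap_cons, List.flatMap_nil, List.append_nil]
    exact (ih (by omega)).step hs hA hW (by omega)

theorem CInv.rows {A : Finset S} (hs : CSpec δ s0 sI sB enc' es A) {w : List Bool}
    (hA : ∀ t i, traj δ s0 sI sB w t i ∈ A) {W : ℕ} (hW : 2 ≤ W) (k : ℕ)
    {v : List Bool} (h : CInv δ s0 sI sB enc' es w w.length W 0 v) :
    CInv δ s0 sI sB enc' es w w.length W (k * W)
      (runNand ((List.range k).flatMap fun t => (List.range W).flatMap fun i =>
        cellGates es w.length W t i) v) := by
  induction k with
  | zero =>
    rw [Nat.zero_mul]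
    exact h
  | succ k ih =>
    rw [List.range_succ, List.flatMap_append, runNand_append]
    simp only [List.flatMap_cons, List.flatMap_nil, List.append_nil]
    rw [Nat.add_mul, Nat.one_mul]
    exact ih.row hs hA hW W le_rfl

end

theorem length_flatMap_const {β : Type} (k B : ℕ) (f : ℕ → List β) (h : ∀ i, (f i).length = B) :
    ((List.range k).flatMap f).length = k * B := by
  induction k with
  | zero => simp
  | succ k ih =>
    rw [List.range_succ, List.flatMap_append, List.length_append, ih]
    simp [h, Nat.add_mul]

theorem wfr_cells {r : ℕ} {es : List (NExp (CVar r))} (hlen : es.length = r)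
    (hes : ∀ e ∈ es, IsNand e) {L W : ℕ} (hW : 2 ≤ W) (t k : ℕ) (hk : k ≤ W) :
    WFr (L + 3 + t * W * blen es) ((List.range k).flatMap fun i => cellGates es L W t i) := by
  induction k with
  | zero => trivial
  | succ k ih =>
    rw [List.range_succ, List.flatMap_append, wfr_append]
    refine ⟨ih (by omega), ?_⟩
    rw [length_flatMap_const _ (blen es) _ (fun i => by rw [cellGates, length_blk])]
    simp only [List.flatMap_cons, List.flatMap_nil, List.append_nil]
    rw [show L + 3 + t * W * blen es + k * blen es = L + 3 + (t * W + k) * blen es by ring]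
    exact wfr_blk _ (cpos_lt hlen hes hW) (by omega) (by omega)

theorem wfr_rows {r : ℕ} {es : List (NExp (CVar r))} (hlen : es.length = r)
    (hes : ∀ e ∈ es, IsNand e) {L W : ℕ} (hW : 2 ≤ W) (k : ℕ) :
    WFr (L + 3) ((List.range k).flatMap fun t => (List.range W).flatMap fun i =>
      cellGates es L W t i) := by
  induction k with
  | zero => trivial
  | succ k ih =>
    rw [List.range_succ, List.flatMap_append, wfr_append]
    refine ⟨ih, ?_⟩
    rw [length_flatMap_const _ (W * blen es) _ (fun t => by
      rw [length_flatMap_const _ (blen es) _ (fun i => by rw [cellGates, length_blk])])]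
    simp only [List.flatMap_cons, List.flatMap_nil, List.append_nil]
    rw [show L + 3 + k * (W * blen es) = L + 3 + k * W * blen es by ring]
    exact wfr_cells hlen hes hW k W le_rfl

/-- **Circuits for cell automata.** -/
theorem exists_circ {S : Type} (A : Finset S) (δ : S → S → S → S → S) (s0 : S) (sI : Bool → S)
    (sB : S) (out : S → Bool) (hA : ∀ w t i, traj δ s0 sI sB w t i ∈ A) :
    ∃ (r : ℕ) (es : List (NExp (CVar r))) (eo : NExp (Fin r)), ∀ T : ℕ → ℕ,
      (∀ L, 0 < L → WFr L (circ es eo T L)) ∧
      ∀ w : List Bool, w ≠ [] → (runNand (circ es eo T w.length) w).getLast? =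
        some (out (traj δ s0 sI sB w (T w.length) 1)) := by
  classical
  -- the encoding
  let r := A.card
  let ix := A.equivFin
  let enc' : S → Fin r → Bool := fun s j => decide (s = ((ix.symm j : A) : S))
  let dec : (Fin r → Bool) → S := fun y => if h : ∃ s ∈ A, enc' s = y then h.choose else s0
  have hdec : ∀ s ∈ A, dec (enc' s) = s := by
    intro s hs
    have h : ∃ s' ∈ A, enc' s' = enc' s := ⟨s, hs, rfl⟩
    have h1 : dec (enc' s) = h.choose := by simp only [dec]; rw [dif_pos h]
    rw [h1]
    obtain ⟨h2, h3⟩ := h.choose_spec
    have h4 := congrFun h3 (ix ⟨s, hs⟩)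
    simp only [enc', Equiv.symm_apply_apply, decide_true] at h4
    exact of_decide_eq_true h4
  -- the formulas
  let F : Fin r → (CVar r → Bool) → Bool := fun j y =>
    if y (.inr 0) then
      enc' (if y (.inr 1) then s0 else if y (.inr 2) then sI (y (.inr 3)) else sB) j
    else enc' (δ (dec fun k => y (.inl (0, k))) (dec fun k => y (.inl (1, k)))
      (dec fun k => y (.inl (2, k))) (dec fun k => y (.inl (3, k)))) j
  choose fa fb hF using fun j => exists_nand_eval_eq (F j)
  let es : List (NExp (CVar r)) := List.ofFn fun j => nand (fa j) (fb j)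
  obtain ⟨oa, ob, ho⟩ := exists_nand_eval_eq (fun y : Fin r → Bool => out (dec y))
  have hspec : CSpec δ s0 sI sB enc' es A := by
    refine ⟨by simp [es], ?_, ?_, ?_⟩
    · intro e he
      simp only [es, List.mem_ofFn] at he
      obtain ⟨j, rfl⟩ := he
      exact ⟨_, _, rfl⟩
    · intro y j hj hy
      simp only [es, List.getElem_ofFn, hF]
      simp only [F]
      rw [if_pos hy]
    · intro y j hj a b c d ha hb hc hd hy h0 h1 h2 h3
      simp only [es, List.getElem_ofFn, hF]
      simp only [F]
      rw [if_neg (by rw [hy]; simp), funext h0, funext h1, funext h2, funext h3, hdec a ha,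
        hdec b hb, hdec c hc, hdec d hd]
  refine ⟨r, es, nand oa ob, fun T => ⟨fun L hL => ?_, fun w hw => ?_⟩⟩
  · simp only [circ]
    rw [wfr_append, wfr_append]
    refine ⟨⟨?_, ?_⟩, ?_⟩
    · exact ⟨⟨hL, hL⟩, ⟨by simp only; omega, by simp only; omega⟩,
        ⟨by simp only; omega, by simp only; omega⟩, trivial⟩
    · exact wfr_rows hspec.len hspec.nand (by omega) _
    · rw [List.length_append, length_flatMap_const _ ((T L + 2) * blen es) _ (fun t => by
        rw [length_flatMap_const _ (blen es) _ (fun i => by rw [cellGates, length_blk])])]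
      rw [show L + (([(0, 0), (0, L), (L + 1, L + 1)] : List (ℕ × ℕ)).length +
        (T L + 1) * ((T L + 2) * blen es)) = L + 3 + (T L + 1) * (T L + 2) * blen es by
          simp only [List.length_cons, List.length_nil]; ring]
      apply wfr_gts _ _ (by omega) (by omega)
      intro j
      have h1 : off es j < blen es := off_lt hspec.nand (by rw [hspec.len]; exact j.2)
      have h2 : T L * (T L + 2) + 1 + 1 ≤ (T L + 1) * (T L + 2) := by
        rw [Nat.add_mul]; omega
      have h3 : (T L * (T L + 2) + 1 + 1) * blen es ≤ (T L + 1) * (T L + 2) * blen es :=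
        Nat.mul_le_mul_right _ h2
      rw [Nat.add_mul _ 1] at h3
      omega
  · have hL : 0 < w.length := List.length_pos_iff.mpr hw
    set L := w.length with hLdef
    set W := T L + 2 with hWdef
    have hA' : ∀ t i, traj δ s0 sI sB w t i ∈ A := hA w
    -- the preliminary gates
    have hinit : CInv δ s0 sI sB enc' es w L W 0
        (runNand [(0, 0), (0, L), (L + 1, L + 1)] w) := by
      obtain ⟨b, w', rfl⟩ := List.exists_cons_of_ne_nil hw
      have e1 : runNand [(0, 0), (0, L), (L + 1, L + 1)] (b :: w') =
          (b :: w') ++ [!b, true, false] := by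
        simp only [runNand, List.length_cons] at hLdef ⊢
        have h1 : ((b :: w') ++ [!((b :: w').getD 0 false && (b :: w').getD 0 false)]).getD L false
            = !b := by
          rw [List.getD_append_right _ _ _ _ (by simp [hLdef])]
          simp [hLdef]
        rw [h1]
        simp [hLdef, List.getD_eq_getElem?_getD]
      rw [e1]
      have hLe : L = (b :: w').length := hLdef
      refine ⟨by simp [hLe], ?_, ?_, ?_, ?_⟩
      · intro i hi
        exact List.getD_append _ _ _ _ (by rw [← hLe]; exact hi)
      · rw [List.getD_append_right _ _ _ _ (by omega), ← hLe,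
          show L + 1 - L = 1 by omega]
        rfl
      · rw [List.getD_append_right _ _ _ _ (by omega), ← hLe,
          show L + 2 - L = 2 by omega]
        rfl
      · intro t i hi hlt
        omega
    have hrows := hinit.rows hspec hA' (by omega : 2 ≤ W) (T L + 1)
    simp only [circ]
    rw [runNand_append, runNand_append]
    set v := runNand ((List.range (T L + 1)).flatMap fun t =>
      (List.range (T L + 2)).flatMap fun i => cellGates es L (T L + 2) t i)
      (runNand [(0, 0), (0, L), (L + 1, L + 1)] w) with hv
    have hv' : CInv δ s0 sI sB enc' es w L W ((T L + 1) * W) v := hrows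
    have hvlen : v.length = L + 3 + (T L + 1) * (T L + 2) * blen es := hv'.len
    have hpos : ∀ j : Fin r, L + 3 + (T L * (T L + 2) + 1) * blen es + off es j <
        L + 3 + (T L + 1) * (T L + 2) * blen es := by
      intro j
      have h1 : off es j < blen es := off_lt hspec.nand (by rw [hspec.len]; exact j.2)
      have h2 : T L * (T L + 2) + 1 + 1 ≤ (T L + 1) * (T L + 2) := by
        rw [Nat.add_mul]; omega
      have h3 : (T L * (T L + 2) + 1 + 1) * blen es ≤ (T L + 1) * (T L + 2) * blen es :=
        Nat.mul_le_mul_right _ h2
      rw [Nat.add_mul _ 1] at h3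
      omega
    have hfin := run_gts (nand oa ob) hvlen hpos (c1 := L + 1) (c0 := L + 2) (by omega) (by omega)
      hv'.one hv'.zero
    have hval : ∀ j : Fin r, v.getD (L + 3 + (T L * (T L + 2) + 1) * blen es + off es j) false =
        enc' (traj δ s0 sI sB w (T L) 1) j := by
      intro j
      apply hv'.cell (T L) 1 (by omega) _ (by omega) j
      rw [Nat.add_mul (T L) 1 W]
      omega
    rw [ho] at hfin
    simp only [hval] at hfin
    rw [hdec _ (hA' _ _)] at hfin
    set u := runNand (gts (fun j : Fin r => L + 3 + (T L * (T L + 2) + 1) * blen es + off es j)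
      (L + 1) (L + 2) (nand oa ob) (L + 3 + (T L + 1) * (T L + 2) * blen es)) v with hu
    have hulen : u.length = L + 3 + (T L + 1) * (T L + 2) * blen es + (glen oa + glen ob + 1) := by
      rw [hu, length_runNand, length_gts, hvlen]
      rfl
    simp only [res] at hfin
    rw [List.getLast?_eq_getElem?, hulen, show L + 3 + (T L + 1) * (T L + 2) * blen es +
      (glen oa + glen ob + 1) - 1 = L + 3 + (T L + 1) * (T L + 2) * blen es +
      (glen oa + glen ob) by omega]
    have h9 : L + 3 + (T L + 1) * (T L + 2) * blen es + (glen oa + glen ob) < u.length := by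
      rw [hulen]; omega
    rw [List.getD_eq_getElem _ _ h9] at hfin
    rw [List.getElem?_eq_getElem h9, hfin]

end Pool.Agent.Lib.PT
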