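import Pool.Agent.Lib.PolyTime.Basic
import Pool.Agent.Lib.PolyTime.Lib
import Pool.Agent.Lib.PolyTime.Cells
import Pool.Agent.Lib.PolyTime.CellCircuit

/-!
# Cook–Levin: polynomial-time predicates have polynomial-time constructible NAND circuits
-/

set_option autoImplicit false

namespace Pool.Agent.Lib.PT

open NExp

section

variable {α : Type*} [Enc α] {V : Type}

theorem PolyTime.res {pos : α → V → ℕ} {c1 c0 : α → ℕ} (hpos : ∀ x, PolyTime fun a => pos a x)
    (h1 : PolyTime c1) (h0 : PolyTime c0) (e : NExp V) {n : α → ℕ} (hn : PolyTime n) :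
    PolyTime (fun a => NExp.res (pos a) (c1 a) (c0 a) e (n a)) := by
  cases e with
  | var x => exact hpos x
  | cst b => cases b; exacts [h0, h1]
  | nand a b => exact hn.add (PolyTime.const _)

theorem PolyTime.gts {pos : α → V → ℕ} {c1 c0 : α → ℕ} (hpos : ∀ x, PolyTime fun a => pos a x)
    (h1 : PolyTime c1) (h0 : PolyTime c0) (e : NExp V) {n : α → ℕ} (hn : PolyTime n) :
    PolyTime (fun a => NExp.gts (pos a) (c1 a) (c0 a) e (n a)) := by
  induction e generalizing n with
  | var x => exact PolyTime.const _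
  | cst b => exact PolyTime.const _
  | nand a b iha ihb =>
    have hn' : PolyTime (fun x => n x + glen a) := hn.add (PolyTime.const _)
    exact (iha hn).append ((ihb hn').append
      (((PolyTime.res hpos h1 h0 a hn).pair (PolyTime.res hpos h1 h0 b hn')).cons
        (PolyTime.const [])))

theorem PolyTime.blk {pos : α → V → ℕ} {c1 c0 : α → ℕ} (hpos : ∀ x, PolyTime fun a => pos a x)
    (h1 : PolyTime c1) (h0 : PolyTime c0) (es : List (NExp V)) {n : α → ℕ} (hn : PolyTime n) :
    PolyTime (fun a => NExp.blk (pos a) (c1 a) (c0 a) es (n a)) := by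
  induction es generalizing n with
  | nil => exact PolyTime.const _
  | cons e es ih =>
    exact (PolyTime.gts hpos h1 h0 e hn).append (ih (hn.add (PolyTime.const _)))

theorem PolyTime.nb (a : Fin 4) {i : α → ℕ} (hi : PolyTime i) :
    PolyTime (fun x => Pool.Agent.Lib.PT.nb a (i x)) := by
  fin_cases a
  · exact PolyTime.const 0
  · exact hi.pred
  · exact hi
  · exact hi.succ

theorem PolyTime.cpos {r : ℕ} (B : ℕ) (o : ℕ → ℕ) {L W t i : α → ℕ} (hL : PolyTime L)
    (hW : PolyTime W) (ht : PolyTime t) (hi : PolyTime i) (x : CVar r) :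
    PolyTime (fun a => Pool.Agent.Lib.PT.cpos B o (L a) (W a) (t a) (i a) x) := by
  have h1 : PolyTime (fun a => L a + 1) := hL.succ
  have h2 : PolyTime (fun a => L a + 2) := hL.add (PolyTime.const 2)
  have h3 : PolyTime (fun a => L a + 3) := hL.add (PolyTime.const 3)
  rcases x with ⟨a, j⟩ | a
  · simp only [Pool.Agent.Lib.PT.cpos]
    exact PolyTime.ite ht.isZero h2 ((h3.add (((ht.pred.mul hW).add (PolyTime.nb a hi)).mul
      (PolyTime.const B))).add (PolyTime.const _))
  · fin_cases a
    · exact PolyTime.ite ht.isZero h1 h2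
    · exact PolyTime.ite hi.isZero h1 h2
    · exact PolyTime.ite (hi.le hL) h1 h2
    · exact PolyTime.ite hi.isZero h2 (PolyTime.ite (hi.le hL) hi.pred h2)

theorem PolyTime.cellGates {r : ℕ} (es : List (NExp (CVar r))) {L W t i : α → ℕ}
    (hL : PolyTime L) (hW : PolyTime W) (ht : PolyTime t) (hi : PolyTime i) :
    PolyTime (fun a => Pool.Agent.Lib.PT.cellGates es (L a) (W a) (t a) (i a)) := by
  exact PolyTime.blk (PolyTime.cpos _ _ hL hW ht hi) hL.succ (hL.add (PolyTime.const 2)) es
    ((hL.add (PolyTime.const 3)).add (((ht.mul hW).add hi).mul (PolyTime.const _)))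

end

theorem PolyTime.circ {r : ℕ} (es : List (NExp (CVar r))) (eo : NExp (Fin r)) {T : ℕ → ℕ}
    (hT : PolyTime T) : PolyTime (Pool.Agent.Lib.PT.circ es eo T) := by
  have hL : PolyTime (fun L : ℕ => L) := PolyTime.id
  have hW : PolyTime (fun L : ℕ => T L + 2) := hT.add (PolyTime.const 2)
  have h1 : PolyTime (fun L : ℕ => ([(0, 0), (0, L), (L + 1, L + 1)] : List (ℕ × ℕ))) :=
    ((PolyTime.const 0).pair (PolyTime.const 0)).cons
      (((PolyTime.const 0).pair hL).cons ((hL.succ.pair hL.succ).cons (PolyTime.const [])))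
  -- the cells
  have h2 : PolyTime (fun q : (ℕ × ℕ) × ℕ =>
      Pool.Agent.Lib.PT.cellGates es q.1.1 (T q.1.1 + 2) q.1.2 q.2) :=
    PolyTime.cellGates es PolyTime.id.fst.fst (hW.comp PolyTime.id.fst.fst) PolyTime.id.fst.snd
      PolyTime.id.snd
  have h3 : PolyTime (fun q : ℕ × ℕ => (List.range (T q.1 + 2)).flatMap fun i =>
      Pool.Agent.Lib.PT.cellGates es q.1 (T q.1 + 2) q.2 i) :=
    (hW.comp PolyTime.id.fst).range.flatMap (f := fun (q : ℕ × ℕ) i =>
      Pool.Agent.Lib.PT.cellGates es q.1 (T q.1 + 2) q.2 i) h2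
  have h4 : PolyTime (fun L : ℕ => (List.range (T L + 1)).flatMap fun t =>
      (List.range (T L + 2)).flatMap fun i =>
        Pool.Agent.Lib.PT.cellGates es L (T L + 2) t i) :=
    hT.succ.range.flatMap (f := fun (L : ℕ) t => (List.range (T L + 2)).flatMap fun i =>
      Pool.Agent.Lib.PT.cellGates es L (T L + 2) t i) h3
  have h5 : PolyTime (fun L : ℕ => NExp.gts (fun j : Fin r => L + 3 +
      (T L * (T L + 2) + 1) * blen es + off es j) (L + 1) (L + 2) eo
      (L + 3 + (T L + 1) * (T L + 2) * blen es)) := by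
    refine PolyTime.gts (fun j => ?_) hL.succ (hL.add (PolyTime.const 2)) eo ?_
    · exact ((hL.add (PolyTime.const 3)).add (((hT.mul hW).add (PolyTime.const 1)).mul
        (PolyTime.const _))).add (PolyTime.const _)
    · exact (hL.add (PolyTime.const 3)).add ((hT.succ.mul hW).mul (PolyTime.const _))
  exact (h1.append h4).append h5

/-- **Cook–Levin**. If a `TM2` machine decides the predicate `R` on lists of bits in polynomial
time, then there is a polynomial-time computable family of NAND circuits (straight-line programs)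
computing `R`: the wires `0, …, L - 1` are the input bits, each gate refers to wires which are
already defined, and the last wire is the value of `R`. -/
theorem cook_levin (R : List Bool → Bool)
    (hR : Nonempty (Turing.TM2ComputableInPolyTime (fun x : List Bool => x)
      (fun b : Bool => [b]) R)) :
    ∃ gates : ℕ → List (ℕ × ℕ), PolyTime gates ∧
      (∀ L k, 0 < L → ∀ h : k < (gates L).length,
        (gates L)[k].1 < L + k ∧ (gates L)[k].2 < L + k) ∧
      ∀ w : List Bool, w ≠ [] →
        (runNand (gates w.length) w).getLast? = some (R w) ∧ gates w.length ≠ [] := by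
  obtain ⟨S, A, δ, s0, sI, sB, out, T, hA, hout⟩ := Cells.exists_automaton R hR
  obtain ⟨r, es, eo, h⟩ := exists_circ A δ s0 sI sB out hA
  obtain ⟨h1, h2⟩ := h (fun L => T.eval L)
  refine ⟨circ es eo (fun L => T.eval L), PolyTime.circ es eo (PolyTime.polyEval T PolyTime.id),
    fun L k hL hk => (h1 L hL).getElem k hk, fun w hw => ⟨?_, ?_⟩⟩
  · rw [h2 w hw, hout]
  · simp [circ]

end Pool.Agent.Lib.PT
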